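import Mathlib

set_option autoImplicit false
open Filter Topology ArithmeticFunction
open scoped ComplexOrder ArithmeticFunction.zeta

namespace Pool.Agent.Helper29

/-- complete multiplicativity of an arithmetic function -/
def CM (φ : ArithmeticFunction ℂ) : Prop :=
  φ 1 = 1 ∧ ∀ m n : ℕ, φ (m * n) = φ m * φ n

lemma CM.pow {φ : ArithmeticFunction ℂ} (h : CM φ) (n k : ℕ) : φ (n ^ k) = φ n ^ k := by
  induction k with
  | zero => simpa using h.1
  | succ k ih => rw [pow_succ, h.2, ih, pow_succ]

lemma CM.isMult {φ : ArithmeticFunction ℂ} (h : CM φ) : φ.IsMultiplicative :=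
  ⟨h.1, fun {m n} _ => h.2 m n⟩

lemma CM.pmul_mul {s : ArithmeticFunction ℂ} (h : CM s) (u v : ArithmeticFunction ℂ) :
    s.pmul (u * v) = s.pmul u * s.pmul v := by
  ext n
  simp only [pmul_apply, mul_apply, Finset.mul_sum]
  refine Finset.sum_congr rfl fun x hx => ?_
  have hn : x.1 * x.2 = n := (Nat.mem_divisorsAntidiagonal.mp hx).1
  rw [← hn, h.2]
  ring

/-- complex valued logarithm as arithmetic function -/
noncomputable def logC : ArithmeticFunction ℂ := ⟨fun n => (Real.log n : ℂ), by simp⟩

lemma logC_apply (n : ℕ) : logC n = (Real.log n : ℂ) := rfl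

lemma logC_pmul_mul (u v : ArithmeticFunction ℂ) :
    logC.pmul (u * v) = logC.pmul u * v + u * logC.pmul v := by
  ext n
  simp only [pmul_apply, mul_apply, ArithmeticFunction.add_apply, Finset.mul_sum, ← Finset.sum_add_distrib]
  refine Finset.sum_congr rfl fun x hx => ?_
  obtain ⟨hn, hn0⟩ := Nat.mem_divisorsAntidiagonal.mp hx
  have h1 : (x.1 : ℝ) ≠ 0 := by
    intro h
    have : x.1 = 0 := by exact_mod_cast h
    simp [this] at hn
    exact hn0 hn.symm
  have h2 : (x.2 : ℝ) ≠ 0 := by
    intro h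
    have : x.2 = 0 := by exact_mod_cast h
    simp [this] at hn
    exact hn0 hn.symm
  have : logC n = logC x.1 + logC x.2 := by
    rw [logC_apply, logC_apply, logC_apply, ← hn, ← Complex.ofReal_add]
    congr 1
    push_cast
    exact Real.log_mul h1 h2
  rw [this]
  ring

/-- complex valued von Mangoldt function as arithmetic function -/
noncomputable def vonC : ArithmeticFunction ℂ := ⟨fun n => (vonMangoldt n : ℂ), by simp⟩

lemma vonC_apply (n : ℕ) : vonC n = (vonMangoldt n : ℂ) := rfl

lemma zeta_mul_vonC : (ζ : ArithmeticFunction ℂ) * vonC = logC := by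
  ext n
  rw [coe_zeta_mul_apply, logC_apply, ← vonMangoldt_sum]
  simp [vonC_apply]

lemma CM.log_pmul {φ : ArithmeticFunction ℂ} (h : CM φ) :
    logC.pmul φ = φ * φ.pmul vonC := by
  rw [← zeta_mul_vonC, pmul_comm, h.pmul_mul]
  congr 1
  ext n
  simp only [pmul_apply, natCoe_apply, zeta_apply]
  split_ifs with hn
  · simp [hn]
  · simp

lemma log_four {φ₁ φ₂ φ₃ φ₄ : ArithmeticFunction ℂ} (h₁ : CM φ₁) (h₂ : CM φ₂) (h₃ : CM φ₃)
    (h₄ : CM φ₄) :
    logC.pmul (φ₁ * φ₂ * φ₃ * φ₄) =
      (φ₁ * φ₂ * φ₃ * φ₄) *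
        (φ₁.pmul vonC + φ₂.pmul vonC + φ₃.pmul vonC + φ₄.pmul vonC) := by
  rw [logC_pmul_mul, logC_pmul_mul, logC_pmul_mul, h₁.log_pmul, h₂.log_pmul, h₃.log_pmul,
    h₄.log_pmul]
  ring

/-- nonnegativity from nonnegativity of the logarithmic derivative -/
lemma nonneg_of_log {b L : ArithmeticFunction ℂ} (hb1 : b 1 = 1) (hL : ∀ n, 0 ≤ L n)
    (hL1 : L 1 = 0) (hlog : logC.pmul b = b * L) : ∀ n, 0 ≤ b n := by
  intro n
  induction n using Nat.strong_induction_on with
  | _ n ih =>
    rcases Nat.eq_zero_or_pos n with rfl | hpos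
    · simp
    rcases Nat.eq_or_lt_of_le (Nat.succ_le_of_lt hpos) with h1 | h1
    · have : n = 1 := by omega
      subst this
      rw [hb1]; exact zero_le_one
    · have hn1 : 1 < n := by omega
      have hlogpos : 0 < Real.log n := Real.log_pos (by exact_mod_cast hn1)
      have key : (Real.log n : ℂ) * b n = ∑ x ∈ n.divisorsAntidiagonal, b x.1 * L x.2 := by
        have := congrArg (fun a : ArithmeticFunction ℂ => a n) hlog
        simpa [pmul_apply, mul_apply, logC_apply] using this
      have hsum : 0 ≤ ∑ x ∈ n.divisorsAntidiagonal, b x.1 * L x.2 := by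
        refine Finset.sum_nonneg fun x hx => ?_
        obtain ⟨hx1, hx0⟩ := Nat.mem_divisorsAntidiagonal.mp hx
        rcases Nat.lt_or_ge x.1 n with hlt | hge
        · exact mul_nonneg (ih x.1 hlt) (hL x.2)
        · have hx2 : x.2 = 1 := by
            have h2pos : 0 < x.2 := by
              rcases Nat.eq_zero_or_pos x.2 with h | h
              · rw [h, mul_zero] at hx1; omega
              · exact h
            by_contra hne
            have : 2 ≤ x.2 := by omega
            nlinarith
          rw [hx2, hL1, mul_zero]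
      have : b n = ((Real.log n)⁻¹ : ℝ) * ((Real.log n : ℂ) * b n) := by
        rw [← mul_assoc, Complex.ofReal_inv, inv_mul_cancel₀, one_mul]
        exact_mod_cast hlogpos.ne'
      rw [this, key]
      refine mul_nonneg ?_ hsum
      exact_mod_cast (inv_pos.mpr hlogpos).le

end Pool.Agent.Helper29
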