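import Mathlib

set_option autoImplicit false
open Filter Topology Complex
open scoped ComplexOrder

namespace Pool.Agent.Helper29

/-- Finite form of the theorem of Landau for Dirichlet series with nonnegative coefficients. -/
lemma landau_partial {b : ℕ → ℂ} (hb : 0 ≤ b) {Φ : ℂ → ℂ} {σ₀ : ℝ}
    (hsum : ∀ s : ℂ, 1 < s.re → LSeriesSummable b s)
    (hΦ : DifferentiableOn ℂ Φ {s | σ₀ < s.re})
    (heq : ∀ s : ℂ, 1 < s.re → Φ s = LSeries b s)
    (N : ℕ) {w : ℝ} (hw : σ₀ < w) (hw' : w ≤ 2) :
    (∑ n ∈ Finset.Icc 1 N, LSeries.term b w n) ≤ Φ w := by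
  set bt : ℕ → ℂ := fun n => if n ≤ N then 0 else b n with hbt
  have hbt0 : 0 ≤ bt := by
    intro n
    simp only [hbt]
    split_ifs
    · exact le_rfl
    · exact hb n
  set P : ℂ → ℂ := fun s => ∑ n ∈ Finset.Icc 1 N, LSeries.term b s n with hP
  have hterm : ∀ s : ℂ, ∀ n : ℕ, LSeries.term bt s n =
      LSeries.term b s n - (if n ∈ Finset.Icc 1 N then LSeries.term b s n else 0) := by
    intro s n
    rcases Nat.eq_zero_or_pos n with rfl | hn
    · simp [LSeries.term]
    · by_cases hN : n ≤ N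
      · simp [LSeries.term, hbt, hN, hn.ne', hn, Nat.one_le_iff_ne_zero]
      · simp [LSeries.term, hbt, hN, hn.ne']
  have hPsum : ∀ s : ℂ, HasSum (fun n => if n ∈ Finset.Icc 1 N then LSeries.term b s n else 0)
      (P s) := by
    intro s
    have h0 : P s = ∑ n ∈ Finset.Icc 1 N,
        (if n ∈ Finset.Icc 1 N then LSeries.term b s n else 0) := by
      simp only [hP]
      exact Finset.sum_congr rfl fun n hn => by simp [hn]
    rw [h0]
    exact hasSum_sum_of_ne_finset_zero (fun n hn => by simp [hn])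
  have hbtsum : ∀ s : ℂ, 1 < s.re → LSeriesHasSum bt s (Φ s - P s) := by
    intro s hs
    have h1 : HasSum (LSeries.term b s) (Φ s) := by
      rw [heq s hs]
      exact (hsum s hs).hasSum
    have := h1.sub (hPsum s)
    unfold LSeriesHasSum
    convert! this using 1
    ext n
    exact hterm s n
  set Ψ : ℂ → ℂ := fun s => Φ s - P s with hΨ
  have hPdiff : Differentiable ℂ P := by
    refine Differentiable.fun_sum fun n hn => ?_
    have hn0 : n ≠ 0 := by
      have := (Finset.mem_Icc.mp hn).1
      omega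
    have : (fun s : ℂ => LSeries.term b s n) = fun s : ℂ => b n / (n : ℂ) ^ s := by
      ext s; simp [LSeries.term, hn0]
    rw [this]
    have hn' : (n : ℂ) ≠ 0 := by exact_mod_cast hn0
    refine Differentiable.div (differentiable_const _) ?_ ?_
    · exact differentiable_id.const_cpow (Or.inl hn')
    · intro s
      simp [Complex.cpow_eq_zero_iff, hn']
  have hΨdiff : DifferentiableOn ℂ Ψ {s | σ₀ < s.re} := hΦ.sub hPdiff.differentiableOn
  have hEqOn : Set.EqOn Ψ (LSeries bt) {s : ℂ | 1 < s.re} := fun s hs =>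
    ((hbtsum s hs).LSeries_eq).symm
  have hopen : IsOpen {s : ℂ | 1 < s.re} := isOpen_lt continuous_const Complex.continuous_re
  have habs : LSeries.abscissaOfAbsConv bt < ((2 : ℝ) : EReal) := by
    have h1 : LSeries.abscissaOfAbsConv bt ≤ ((3/2 : ℝ) : EReal) := by
      have := LSeriesSummable.abscissaOfAbsConv_le (f := bt) (s := ((3/2 : ℝ) : ℂ))
        ((hbtsum _ (by norm_num)).LSeriesSummable)
      simpa using this
    refine lt_of_le_of_lt h1 ?_
    exact_mod_cast (by norm_num : (3/2 : ℝ) < 2)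
  have hder : ∀ n : ℕ, 0 ≤ iteratedDeriv n (fun u : ℂ => Ψ (-u)) (-2) := by
    intro n
    rw [iteratedDeriv_comp_neg, neg_neg, hEqOn.iteratedDeriv_of_isOpen hopen n (by simp)]
    have := LSeries.iteratedDeriv_alternating hbt0 (x := 2) habs n
    simpa using this
  have hdiff2 : DifferentiableOn ℂ (fun u : ℂ => Ψ (-u)) (Metric.ball (-2) (2 - σ₀)) := by
    refine hΨdiff.comp differentiable_neg.differentiableOn ?_
    intro u hu
    simp only [Set.mem_ofPred_eq, neg_re]
    have h1 : ‖u - (-2)‖ < 2 - σ₀ := by simpa [dist_eq_norm] using hu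
    have h2 : |(u - (-2)).re| ≤ ‖u - (-2)‖ := Complex.abs_re_le_norm _
    have h3 : (u - (-2)).re = u.re + 2 := by simp
    rw [h3] at h2
    have := (abs_le.mp h2).2
    linarith
  have hmain := DifferentiableOn.nonneg_of_iteratedDeriv_nonneg hdiff2 hder (z := -(w : ℂ))
    (by
      rw [show (-2 : ℂ) = -((2 : ℝ) : ℂ) by norm_num]
      exact neg_le_neg (by exact_mod_cast hw'))
    (by
      rw [Metric.mem_ball, dist_eq_norm]
      have : (-(w : ℂ) - -2) = ((2 - w : ℝ) : ℂ) := by push_cast; ring
      rw [this, Complex.norm_real, Real.norm_of_nonneg (by linarith)]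
      linarith)
  simp only [neg_neg, hΨ] at hmain
  exact sub_nonneg.mp hmain

end Pool.Agent.Helper29
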