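import Mathlib

set_option autoImplicit false
open Filter Topology Complex MeasureTheory Asymptotics
open scoped ComplexOrder

namespace Pool.Agent.Helper29

/-- partial sums as a function of a real variable -/
noncomputable def psum (f : ℕ → ℂ) (t : ℝ) : ℂ := ∑ k ∈ Finset.Icc 1 ⌊t⌋₊, f k

lemma psum_of_lt_one (f : ℕ → ℂ) {t : ℝ} (ht : t < 1) : psum f t = 0 := by
  have : ⌊t⌋₊ = 0 := Nat.floor_eq_zero.mpr ht
  simp [psum, this]

/-- Mellin transform of the summatory function -/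
noncomputable def MT (f : ℕ → ℂ) (w : ℂ) : ℂ := mellin (psum f) (-w)

lemma measurable_psum (f : ℕ → ℂ) : Measurable (psum f) := by
  have : psum f = (fun n : ℕ => ∑ k ∈ Finset.Icc 1 n, f k) ∘ (fun t : ℝ => ⌊t⌋₊) := rfl
  rw [this]
  exact (measurable_from_nat).comp Nat.measurable_floor

lemma psum_bound (f : ℕ → ℂ) (T : ℝ) : ∀ t ≤ T, ‖psum f t‖ ≤ ∑ k ∈ Finset.Icc 1 ⌊T⌋₊, ‖f k‖ := by
  intro t ht
  refine (norm_sum_le _ _).trans ?_
  exact Finset.sum_le_sum_of_subset_of_nonneg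
    (Finset.Icc_subset_Icc_right (Nat.floor_le_floor ht)) (fun _ _ _ => norm_nonneg _)

lemma locallyIntegrable_psum (f : ℕ → ℂ) : LocallyIntegrable (psum f) := by
  rw [MeasureTheory.locallyIntegrable_iff]
  intro K hK
  obtain ⟨T, hT⟩ := hK.bddAbove
  refine Measure.integrableOn_of_bounded (M := ∑ k ∈ Finset.Icc 1 ⌊T⌋₊, ‖f k‖)
    hK.measure_lt_top.ne (measurable_psum f).aestronglyMeasurable ?_
  refine (ae_restrict_mem hK.measurableSet).mono fun t ht => ?_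
  exact psum_bound f T t (hT ht)

lemma psum_isBigO {f : ℕ → ℂ} {a : ℝ} (ha : 0 ≤ a)
    (h : (fun n : ℕ => ∑ k ∈ Finset.Icc 1 n, f k) =O[atTop] fun n : ℕ => (n : ℝ) ^ (-a)) :
    psum f =O[atTop] fun t : ℝ => t ^ (-a) := by
  have h1 : psum f =O[atTop] fun t : ℝ => ((⌊t⌋₊ : ℝ)) ^ (-a) :=
    h.comp_tendsto tendsto_nat_floor_atTop
  refine h1.trans ?_
  refine IsBigO.of_bound ((2:ℝ) ^ a) ?_
  filter_upwards [eventually_ge_atTop (1:ℝ)] with t ht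
  have ht0 : (0:ℝ) < t := by linarith
  have hn : 1 ≤ ⌊t⌋₊ := Nat.le_floor (by exact_mod_cast ht)
  have hn' : (1:ℝ) ≤ (⌊t⌋₊ : ℝ) := by exact_mod_cast hn
  have hlt : t < ⌊t⌋₊ + 1 := Nat.lt_floor_add_one t
  have h2 : t / 2 ≤ ⌊t⌋₊ := by linarith
  rw [Real.norm_of_nonneg (Real.rpow_nonneg (by positivity) _),
    Real.norm_of_nonneg (Real.rpow_nonneg ht0.le _)]
  calc ((⌊t⌋₊ : ℝ)) ^ (-a) ≤ (t / 2) ^ (-a) :=
        Real.rpow_le_rpow_of_nonpos (by positivity) h2 (by linarith)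
    _ = (2:ℝ) ^ a * t ^ (-a) := by
        rw [Real.div_rpow ht0.le (by norm_num), Real.rpow_neg (by norm_num : (0:ℝ) ≤ 2)]
        field_simp

lemma MT_differentiableAt {f : ℕ → ℂ} {a : ℝ} (ha : 0 ≤ a)
    (h : (fun n : ℕ => ∑ k ∈ Finset.Icc 1 n, f k) =O[atTop] fun n : ℕ => (n : ℝ) ^ (-a))
    {w : ℂ} (hw : -a < w.re) : DifferentiableAt ℂ (MT f) w := by
  have h1 : DifferentiableAt ℂ (mellin (psum f)) (-w) := by
    refine mellin_differentiableAt_of_isBigO_rpow (a := a) (b := (-w).re - 1)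
      ((locallyIntegrable_psum f).locallyIntegrableOn _) (psum_isBigO ha h) ?_ ?_ (by linarith)
    · rw [neg_re]; linarith
    · refine IsBigO.of_bound 1 ?_
      filter_upwards [Ioo_mem_nhdsGT (zero_lt_one)] with t ht
      rw [psum_of_lt_one f ht.2]
      simp
  exact h1.comp w differentiableAt_id.neg

lemma MT_eq_integral (f : ℕ → ℂ) (w : ℂ) :
    MT f w = ∫ t in Set.Ioi (1:ℝ), (t:ℂ) ^ (-w - 1) • psum f t := by
  unfold MT mellin
  refine setIntegral_eq_of_subset_of_ae_sdiff_eq_zero measurableSet_Ioi.nullMeasurableSet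
    (Set.Ioi_subset_Ioi zero_le_one) ?_
  have h1 : ∀ᵐ t : ℝ ∂volume, t ≠ 1 := by
    have : (volume : Measure ℝ) {1} = 0 := by simp
    exact compl_mem_ae_iff.mpr this
  filter_upwards [h1] with t ht1 ht
  have : t < 1 := by
    have h2 : t ≤ 1 := by
      by_contra h
      exact ht.2 (not_le.mp h)
    exact lt_of_le_of_ne h2 ht1
  rw [psum_of_lt_one f this, smul_zero]

lemma LSeries_eq_MT {f : ℕ → ℂ} {w : ℂ} (hw : 0 < w.re) (hS : LSeriesSummable f w)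
    (h : (fun n : ℕ => ∑ k ∈ Finset.Icc 1 n, f k) =O[atTop] fun n : ℕ => (n : ℝ) ^ (0:ℝ)) :
    LSeries f w = w * MT f w := by
  rw [LSeries_eq_mul_integral f le_rfl hw hS h, MT_eq_integral]
  congr 1
  refine setIntegral_congr_fun measurableSet_Ioi fun t _ => ?_
  simp only [smul_eq_mul, psum]
  rw [mul_comm, neg_add']

lemma psum_le_of_small {f : ℕ → ℂ} {ε : ℝ} (hε : 0 ≤ ε) {M : ℕ}
    (hM : ∀ N : ℕ, M ≤ N → ‖∑ k ∈ Finset.Icc 1 N, f k‖ * Real.sqrt N ≤ ε) :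
    ∃ K : ℝ, 0 ≤ K ∧ ∀ t : ℝ, 1 ≤ t →
      ‖psum f t‖ ≤ K * t ^ (-2:ℝ) + 2 * ε * t ^ (-(1/2):ℝ) := by
  refine ⟨(∑ k ∈ Finset.Icc 1 (M+1), ‖f k‖) * ((M:ℝ) + 1) ^ (2:ℝ), by positivity, ?_⟩
  intro t ht
  have ht0 : (0:ℝ) < t := by linarith
  by_cases hMt : M ≤ ⌊t⌋₊
  · have hn : 1 ≤ ⌊t⌋₊ := Nat.le_floor (by exact_mod_cast ht)
    have hn' : (1:ℝ) ≤ (⌊t⌋₊ : ℝ) := by exact_mod_cast hn
    have hlt : t < ⌊t⌋₊ + 1 := Nat.lt_floor_add_one t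
    have h4 : t ≤ 4 * ⌊t⌋₊ := by linarith
    have hsq : Real.sqrt t ≤ 2 * Real.sqrt (⌊t⌋₊ : ℝ) := by
      rw [show (2:ℝ) = Real.sqrt 4 by
        rw [show (4:ℝ) = 2 ^ 2 by norm_num, Real.sqrt_sq (by norm_num)],
        ← Real.sqrt_mul (by norm_num)]
      exact Real.sqrt_le_sqrt h4
    have hpos : 0 < Real.sqrt t := Real.sqrt_pos.mpr ht0
    have h1 := hM _ hMt
    have h2 : ‖psum f t‖ * Real.sqrt t ≤ 2 * ε := by
      calc ‖psum f t‖ * Real.sqrt t ≤ ‖psum f t‖ * (2 * Real.sqrt (⌊t⌋₊ : ℝ)) :=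
            mul_le_mul_of_nonneg_left hsq (norm_nonneg _)
        _ = 2 * (‖psum f t‖ * Real.sqrt (⌊t⌋₊ : ℝ)) := by ring
        _ ≤ 2 * ε := mul_le_mul_of_nonneg_left h1 (by norm_num)
    have h3 : ‖psum f t‖ ≤ 2 * ε * t ^ (-(1/2):ℝ) := by
      rw [Real.rpow_neg ht0.le, ← Real.sqrt_eq_rpow, ← div_eq_mul_inv, le_div_iff₀ hpos]
      exact h2
    have h5 : 0 ≤ (∑ k ∈ Finset.Icc 1 (M+1), ‖f k‖) * ((M:ℝ) + 1) ^ (2:ℝ) * t ^ (-2:ℝ) := by
      positivity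
    linarith
  · have hlt : t < (M:ℝ) + 1 := by
      have h1 : t < ⌊t⌋₊ + 1 := Nat.lt_floor_add_one t
      have h2 : (⌊t⌋₊ : ℝ) ≤ M := by exact_mod_cast (not_le.mp hMt).le
      linarith
    have h1 : ‖psum f t‖ ≤ ∑ k ∈ Finset.Icc 1 (M+1), ‖f k‖ := by
      have := psum_bound f ((M+1 : ℕ) : ℝ) t (by push_cast; exact hlt.le)
      rwa [Nat.floor_natCast] at this
    have h2 : (1:ℝ) ≤ ((M:ℝ) + 1) ^ (2:ℝ) * t ^ (-2:ℝ) := by
      rw [Real.rpow_neg ht0.le, ← div_eq_mul_inv, le_div_iff₀ (by positivity), one_mul]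
      exact Real.rpow_le_rpow ht0.le hlt.le (by norm_num)
    have h3 : 0 ≤ 2 * ε * t ^ (-(1/2):ℝ) := by positivity
    have h4 : 0 ≤ ∑ k ∈ Finset.Icc 1 (M+1), ‖f k‖ := by positivity
    calc ‖psum f t‖ ≤ (∑ k ∈ Finset.Icc 1 (M+1), ‖f k‖) * 1 := by simpa using h1
      _ ≤ (∑ k ∈ Finset.Icc 1 (M+1), ‖f k‖) * (((M:ℝ) + 1) ^ (2:ℝ) * t ^ (-2:ℝ)) :=
          mul_le_mul_of_nonneg_left h2 h4
      _ ≤ _ := by rw [← mul_assoc]; linarith

/-- Abelian bound near `-1/2`. -/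
lemma MT_bound {f : ℕ → ℂ} {K ε : ℝ}
    (h : ∀ t : ℝ, 1 ≤ t → ‖psum f t‖ ≤ K * t ^ (-2:ℝ) + ε * t ^ (-(1/2):ℝ))
    {w : ℝ} (hw : -(1/2) < w) :
    ‖MT f w‖ ≤ K / (w + 2) + ε / (w + 1/2) := by
  rw [MT_eq_integral]
  have hint1 : IntegrableOn (fun t : ℝ => t ^ (-w - 3)) (Set.Ioi 1) :=
    integrableOn_Ioi_rpow_of_lt (by linarith) zero_lt_one
  have hint2 : IntegrableOn (fun t : ℝ => t ^ (-w - 3/2)) (Set.Ioi 1) :=
    integrableOn_Ioi_rpow_of_lt (by linarith) zero_lt_one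
  have key : ‖∫ t in Set.Ioi (1:ℝ), (t:ℂ) ^ (-(w:ℂ) - 1) • psum f t‖ ≤
      ∫ t in Set.Ioi (1:ℝ), (K * t ^ (-w - 3) + ε * t ^ (-w - 3/2)) := by
    refine norm_integral_le_of_norm_le ((hint1.const_mul K).add (hint2.const_mul ε)) ?_
    refine (ae_restrict_mem measurableSet_Ioi).mono fun t ht => ?_
    have ht1 : (1:ℝ) < t := ht
    have ht0 : (0:ℝ) < t := by linarith
    rw [norm_smul, show (-(w:ℂ) - 1) = ((-w - 1 : ℝ) : ℂ) by push_cast; ring,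
      Complex.norm_cpow_eq_rpow_re_of_pos ht0, Complex.ofReal_re]
    calc t ^ (-w - 1) * ‖psum f t‖ ≤ t ^ (-w - 1) * (K * t ^ (-2:ℝ) + ε * t ^ (-(1/2):ℝ)) :=
          mul_le_mul_of_nonneg_left (h t ht1.le) (by positivity)
      _ = K * (t ^ (-w - 1) * t ^ (-2:ℝ)) + ε * (t ^ (-w - 1) * t ^ (-(1/2):ℝ)) := by ring
      _ = K * t ^ (-w - 3) + ε * t ^ (-w - 3/2) := by
          rw [← Real.rpow_add ht0, ← Real.rpow_add ht0]
          ring_nf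
  refine key.trans (le_of_eq ?_)
  rw [integral_add (hint1.const_mul K) (hint2.const_mul ε), integral_const_mul, integral_const_mul,
    integral_Ioi_rpow_of_lt (by linarith) zero_lt_one,
    integral_Ioi_rpow_of_lt (by linarith) zero_lt_one, Real.one_rpow, Real.one_rpow]
  have h1 : -w - 3 + 1 = -(w + 2) := by ring
  have h2 : -w - 3/2 + 1 = -(w + 1/2) := by ring
  rw [h1, h2, neg_div_neg_eq, neg_div_neg_eq]
  ring

end Pool.Agent.Helper29
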