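import Pool.Agent.Helper29.Smooth
import Pool.Agent.Helper29.Landau
import Pool.Agent.Helper29.Mellin

set_option autoImplicit false
open Filter Topology ArithmeticFunction Complex Asymptotics
open scoped ComplexOrder ArithmeticFunction.zeta ArithmeticFunction.Moebius

namespace Pool.Agent.Helper29

/-- w ζ(w+1) as entire function -/
noncomputable def Zt (w : ℂ) : ℂ :=
  Function.update (fun s : ℂ => (s - 1) * riemannZeta s) 1 1 (w + 1)

lemma differentiable_Zt : Differentiable ℂ Zt := by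
  have h1 : Differentiable ℂ (Function.update (fun s : ℂ => (s - 1) * riemannZeta s) 1 1) := by
    rw [← differentiableOn_univ,
      ← differentiableOn_compl_singleton_and_continuousAt_iff (c := 1) Filter.univ_mem]
    refine ⟨DifferentiableOn.congr (f := fun s ↦ (s - 1) * riemannZeta s)
      (fun s hs ↦ DifferentiableAt.differentiableWithinAt ?_)
      fun _ hs ↦ Function.update_of_ne (Set.mem_sdiff_singleton.mp hs).2 .., ?_⟩
    · have hs' : s ≠ 1 := (Set.mem_sdiff_singleton.mp hs).2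
      exact (differentiableAt_id.sub_const 1).mul (differentiableAt_riemannZeta hs')
    · refine continuousWithinAt_compl_self.mp ?_
      simpa using riemannZeta_residue_one
  exact h1.comp (differentiable_id.add_const 1)

lemma Zt_eq {w : ℂ} (hw : w ≠ 0) : Zt w = w * riemannZeta (w + 1) := by
  unfold Zt
  rw [Function.update_of_ne (by simpa using hw)]
  ring

/-- the hypotheses on the pair -/
structure Pair (f G : ArithmeticFunction ℂ) : Prop where
  cmf : CM f
  cmG : CM G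
  small : ∀ p : ℕ, p.Prime → ‖G p‖ * Real.sqrt p ≤ 1/2
  pos : ∀ p : ℕ, p.Prime → ‖G p‖ ≤ 1 / p ∨ 0 ≤ G p
  sum : Summable (fun p : Nat.Primes => Real.sqrt p * ‖f p - G p‖)
  lim : Tendsto (fun N : ℕ => ‖∑ k ∈ Finset.Icc 1 N, f k‖ * Real.sqrt N) atTop (𝓝 0)

lemma Pair.conj {f G : ArithmeticFunction ℂ} (h : Pair f G) : Pair (conjA f) (conjA G) where
  cmf := conjA_CM h.cmf
  cmG := conjA_CM h.cmG
  small := fun p hp => by rw [conjA_apply, Complex.norm_conj]; exact h.small p hp
  pos := fun p hp => by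
    rw [conjA_apply, Complex.norm_conj]
    rcases h.pos p hp with h1 | h1
    · exact Or.inl h1
    · right
      have h2 := Complex.nonneg_iff.mp h1
      rw [Complex.nonneg_iff]
      refine ⟨by simpa using h2.1, by simpa using h2.2.symm⟩
  sum := by
    refine h.sum.congr fun p => ?_
    rw [conjA_apply, conjA_apply, ← map_sub, Complex.norm_conj]
  lim := by
    refine h.lim.congr fun N => ?_
    simp only [conjA_apply]
    rw [← map_sum (starRingEnd ℂ), Complex.norm_conj]

lemma norm_le_of_prime {φ : ArithmeticFunction ℂ} (hφ : CM φ)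
    (h : ∀ p : ℕ, p.Prime → ‖φ p‖ ≤ 1) (n : ℕ) : ‖φ n‖ ≤ 1 := by
  induction n using induction_on_primes with
  | zero => simp
  | one => simp [hφ.1]
  | prime_mul p a hp ih =>
    rw [hφ.2, norm_mul]
    exact mul_le_one₀ (h p hp) (norm_nonneg _) ih

lemma Pair.G_norm_le {f G : ArithmeticFunction ℂ} (h : Pair f G) (n : ℕ) : ‖G n‖ ≤ 1 := by
  refine norm_le_of_prime h.cmG (fun p hp => ?_) n
  have h1 := h.small p hp
  have h2 : 1 ≤ Real.sqrt p := by
    rw [Real.one_le_sqrt]
    exact_mod_cast hp.one_le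
  have h3 := norm_nonneg (G p)
  nlinarith

lemma lim_isBigO {f : ℕ → ℂ}
    (lim : Tendsto (fun N : ℕ => ‖∑ k ∈ Finset.Icc 1 N, f k‖ * Real.sqrt N) atTop (𝓝 0)) :
    (fun n : ℕ => ∑ k ∈ Finset.Icc 1 n, f k) =O[atTop] fun n : ℕ => (n : ℝ) ^ (-(1/2) : ℝ) := by
  refine IsBigO.of_bound 1 ?_
  filter_upwards [lim.eventually_le_const (zero_lt_one), eventually_ge_atTop 1] with n hn hn1
  have hpos : 0 < Real.sqrt n := Real.sqrt_pos.mpr (by exact_mod_cast hn1)
  rw [one_mul, Real.norm_of_nonneg (by positivity), Real.rpow_neg (by positivity),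
    ← Real.sqrt_eq_rpow, ← one_div, le_div_iff₀ hpos]
  exact hn

lemma lim_isBigO' {f : ℕ → ℂ}
    (lim : Tendsto (fun N : ℕ => ‖∑ k ∈ Finset.Icc 1 N, f k‖ * Real.sqrt N) atTop (𝓝 0)) :
    (fun n : ℕ => ∑ k ∈ Finset.Icc 1 n, f k) =O[atTop] fun n : ℕ => (n : ℝ) ^ (0 : ℝ) := by
  refine (lim_isBigO lim).trans ?_
  refine IsBigO.of_bound 1 ?_
  filter_upwards [eventually_ge_atTop 1] with n hn1
  rw [one_mul, Real.norm_of_nonneg (by positivity), Real.norm_of_nonneg (by positivity)]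
  exact Real.rpow_le_rpow_of_exponent_le (by exact_mod_cast hn1) (by norm_num)

lemma bounded_of_lim {f : ℕ → ℂ}
    (lim : Tendsto (fun N : ℕ => ‖∑ k ∈ Finset.Icc 1 N, f k‖ * Real.sqrt N) atTop (𝓝 0)) :
    ∃ C : ℝ, ∀ n : ℕ, n ≠ 0 → ‖f n‖ ≤ C := by
  obtain ⟨C, hC⟩ := lim.bddAbove_range
  have hC' : ∀ N : ℕ, ‖∑ k ∈ Finset.Icc 1 N, f k‖ ≤ max C 0 := by
    intro N
    rcases Nat.eq_zero_or_pos N with rfl | hN
    · simp
    · have h1 : 1 ≤ Real.sqrt N := by
        rw [Real.one_le_sqrt]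
        exact_mod_cast hN
      have h2 : ‖∑ k ∈ Finset.Icc 1 N, f k‖ * Real.sqrt N ≤ C := hC ⟨N, rfl⟩
      refine le_trans ?_ (h2.trans (le_max_left _ _))
      exact le_mul_of_one_le_right (norm_nonneg _) h1
  refine ⟨max C 0 + max C 0, fun n hn => ?_⟩
  obtain ⟨m, rfl⟩ := Nat.exists_eq_succ_of_ne_zero hn
  have h1 : f (m + 1) = ∑ k ∈ Finset.Icc 1 (m + 1), f k - ∑ k ∈ Finset.Icc 1 m, f k := by
    rw [Finset.sum_Icc_succ_top (by omega)]
    ring
  rw [Nat.succ_eq_add_one, h1]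
  exact (norm_sub_le _ _).trans (add_le_add (hC' _) (hC' _))

lemma Pair.summable_r {f G : ArithmeticFunction ℂ} (h : Pair f G) :
    Summable (fun n : ℕ => ‖rfun f G n‖ * Real.sqrt n) :=
  summable_rfun h.cmf h.cmG h.small h.sum

lemma norm_term_le {r : ArithmeticFunction ℂ} {s : ℂ} (hs : -(1/2) ≤ s.re) (n : ℕ) :
    ‖LSeries.term r s n‖ ≤ ‖r n‖ * Real.sqrt n := by
  rw [LSeries.norm_term_eq]
  split_ifs with hn
  · positivity
  · have h1 : (1:ℝ) ≤ n := by exact_mod_cast Nat.one_le_iff_ne_zero.mpr hn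
    rw [div_eq_mul_inv, ← Real.rpow_neg (by positivity), Real.sqrt_eq_rpow]
    refine mul_le_mul_of_nonneg_left ?_ (norm_nonneg _)
    exact Real.rpow_le_rpow_of_exponent_le h1 (by linarith)

lemma Pair.LSeriesSummable_r {f G : ArithmeticFunction ℂ} (h : Pair f G) {s : ℂ}
    (hs : -(1/2) ≤ s.re) : LSeriesSummable (rfun f G) s := by
  refine Summable.of_norm_bounded h.summable_r fun n => ?_
  exact norm_term_le hs n

lemma Pair.norm_LSeries_r {f G : ArithmeticFunction ℂ} (h : Pair f G) {s : ℂ}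
    (hs : -(1/2) ≤ s.re) : ‖LSeries (rfun f G) s‖ ≤ ∑' n : ℕ, ‖rfun f G n‖ * Real.sqrt n := by
  exact tsum_of_norm_bounded h.summable_r.hasSum fun n => norm_term_le hs n

/-- the continuation of the Dirichlet series of `G`, divided by `s` -/
noncomputable def Qf (f G : ArithmeticFunction ℂ) (s : ℂ) : ℂ := LSeries (rfun f G) s * MT f s

lemma Pair.LSeriesSummable_f {f G : ArithmeticFunction ℂ} (h : Pair f G) {s : ℂ}
    (hs : 1 < s.re) : LSeriesSummable f s := by
  obtain ⟨C, hC⟩ := bounded_of_lim h.lim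
  exact LSeriesSummable_of_bounded_of_one_lt_re hC hs

lemma Pair.LSeriesSummable_G {f G : ArithmeticFunction ℂ} (h : Pair f G) {s : ℂ}
    (hs : 1 < s.re) : LSeriesSummable G s :=
  LSeriesSummable_of_bounded_of_one_lt_re (fun n _ => h.G_norm_le n) hs

lemma Pair.LSeries_G {f G : ArithmeticFunction ℂ} (h : Pair f G) {s : ℂ}
    (hs : 1 < s.re) : LSeries G s = s * Qf f G s := by
  have h1 : LSeries G s = LSeries (rfun f G * f : ArithmeticFunction ℂ) s := by
    rw [rfun_mul h.cmf]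
  rw [h1, LSeries_mul' (h.LSeriesSummable_r (by linarith)) (h.LSeriesSummable_f hs),
    LSeries_eq_MT (by linarith) (h.LSeriesSummable_f hs) (lim_isBigO' h.lim), Qf]
  ring

lemma Pair.differentiableOn_Q {f G : ArithmeticFunction ℂ} (h : Pair f G) :
    DifferentiableOn ℂ (Qf f G) {s | -(1/2) < s.re} := by
  intro s hs
  refine DifferentiableAt.differentiableWithinAt ?_
  have h1 : DifferentiableAt ℂ (LSeries (rfun f G)) s := by
    have habs : LSeries.abscissaOfAbsConv (rfun f G) < s.re := by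
      have := (h.LSeriesSummable_r (s := ((-(1/2) : ℝ) : ℂ)) (by simp)).abscissaOfAbsConv_le
      refine this.trans_lt ?_
      rw [Complex.ofReal_re]
      exact_mod_cast hs
    exact (LSeries_hasDerivAt habs).differentiableAt
  have h2 : DifferentiableAt ℂ (MT f) s :=
    MT_differentiableAt (a := 1/2) (by norm_num) (lim_isBigO h.lim) hs
  exact h1.mul h2

lemma Pair.Q_lim {f G : ArithmeticFunction ℂ} (h : Pair f G) :
    Tendsto (fun w : ℝ => (w + 1/2) * ‖Qf f G w‖) (𝓝[>] (-(1/2))) (𝓝 0) := by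
  set B := ∑' n : ℕ, ‖rfun f G n‖ * Real.sqrt n with hB
  have hB0 : 0 ≤ B := tsum_nonneg fun n => by positivity
  rw [Metric.tendsto_nhdsWithin_nhds]
  intro ε hε
  set η : ℝ := ε / (4 * (B + 1)) with hη
  have hη0 : 0 < η := by positivity
  obtain ⟨M, hM⟩ := (h.lim.eventually_le_const hη0).exists_forall_of_atTop
  obtain ⟨K, hK0, hK⟩ := psum_le_of_small hη0.le hM
  refine ⟨ε / (4 * (B + 1) * (K + 1)), by positivity, fun {w} hw hdist => ?_⟩
  have hw' : -(1/2) < w := hw
  have hb := MT_bound hK hw'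
  have hr := h.norm_LSeries_r (s := (w : ℂ)) (by simpa using hw'.le)
  have hdw : w + 1/2 < ε / (4 * (B + 1) * (K + 1)) := by
    rw [Real.dist_eq] at hdist
    have := (abs_lt.mp hdist).2
    linarith
  have hw0 : 0 < w + 1/2 := by linarith
  rw [Real.dist_eq, sub_zero, abs_of_nonneg (by positivity)]
  have h1 : ‖Qf f G w‖ ≤ B * (K / (w + 2) + 2 * η / (w + 1/2)) := by
    rw [Qf, norm_mul]
    exact mul_le_mul hr hb (norm_nonneg _) hB0
  have h2 : (w + 1/2) * ‖Qf f G w‖ ≤ (w + 1/2) * (B * (K / (w + 2) + 2 * η / (w + 1/2))) :=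
    mul_le_mul_of_nonneg_left h1 hw0.le
  have h3 : (w + 1/2) * (B * (K / (w + 2) + 2 * η / (w + 1/2))) =
      (w + 1/2) * (B * (K / (w + 2))) + 2 * η * B := by
    have h30 : 2 * η / (w + 1/2) * (w + 1/2) = 2 * η := div_mul_cancel₀ _ hw0.ne'
    linear_combination B * h30
  have h4 : (w + 1/2) * (B * (K / (w + 2))) ≤ (w + 1/2) * ((B + 1) * (K + 1)) := by
    refine mul_le_mul_of_nonneg_left ?_ hw0.le
    have : K / (w + 2) ≤ K + 1 := by
      rw [div_le_iff₀ (by linarith)]
      nlinarith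
    exact mul_le_mul (by linarith) this (div_nonneg hK0 (by linarith)) (by linarith)
  have h5 : (w + 1/2) * ((B + 1) * (K + 1)) < ε / 4 := by
    have h51 : (0:ℝ) < (B + 1) * (K + 1) := by positivity
    calc (w + 1/2) * ((B + 1) * (K + 1)) < ε / (4 * (B + 1) * (K + 1)) * ((B + 1) * (K + 1)) :=
          mul_lt_mul_of_pos_right hdw h51
      _ = ε / 4 := by field_simp
  have h6 : 2 * η * B ≤ ε / 2 := by
    have : B ≤ B + 1 := by linarith
    calc 2 * η * B ≤ 2 * η * (B + 1) := mul_le_mul_of_nonneg_left this (by positivity)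
      _ = ε / 2 := by rw [hη]; field_simp; ring
  linarith

/-- the continuation of the Dirichlet series of `b` -/
noncomputable def Phi (f G : ArithmeticFunction ℂ) (s : ℂ) : ℂ :=
  Zt s ^ 2 * Qf f G s * Qf (conjA f) (conjA G) s

lemma Pair.differentiableOn_Phi {f G : ArithmeticFunction ℂ} (h : Pair f G) :
    DifferentiableOn ℂ (Phi f G) {s | -(1/2) < s.re} :=
  (((differentiable_Zt.pow 2).differentiableOn).mul h.differentiableOn_Q).mul
    h.conj.differentiableOn_Q

lemma LSeriesSummable_uA {s : ℂ} (hs : 1 < s.re) : LSeriesSummable uA s := by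
  refine LSeriesSummable_of_bounded_of_one_lt_re (m := 1) (fun n hn => ?_) hs
  rw [uA_apply, norm_inv]
  have h1 : (1:ℝ) ≤ n := by exact_mod_cast Nat.one_le_iff_ne_zero.mpr hn
  simpa using inv_le_one_of_one_le₀ h1

lemma LSeries_uA {s : ℂ} (hs : 1 < s.re) : LSeries uA s = riemannZeta (s + 1) := by
  rw [zeta_eq_tsum_one_div_nat_cpow (by simp; linarith), LSeries]
  refine tsum_congr fun n => ?_
  rcases Nat.eq_zero_or_pos n with rfl | hn
  · have : s + 1 ≠ 0 := by
      intro h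
      have := congrArg Complex.re h
      simp at this
      linarith
    simp [this]
  · have hn' : (n : ℂ) ≠ 0 := by exact_mod_cast hn.ne'
    rw [LSeries.term_of_ne_zero hn.ne', uA_apply, Complex.cpow_add _ _ hn', Complex.cpow_one]
    field_simp

lemma Pair.LSeriesSummable_b {f G : ArithmeticFunction ℂ} (h : Pair f G) {s : ℂ}
    (hs : 1 < s.re) : LSeriesSummable (bfun G) s :=
  LSeriesSummable_mul (LSeriesSummable_mul (LSeriesSummable_mul (LSeriesSummable_uA hs)
    (LSeriesSummable_uA hs)) (h.LSeriesSummable_G hs)) (h.conj.LSeriesSummable_G hs)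

lemma Pair.Phi_eq {f G : ArithmeticFunction ℂ} (h : Pair f G) {s : ℂ}
    (hs : 1 < s.re) : Phi f G s = LSeries (bfun G) s := by
  unfold bfun
  rw [LSeries_mul' (LSeriesSummable_mul (LSeriesSummable_mul (LSeriesSummable_uA hs)
    (LSeriesSummable_uA hs)) (h.LSeriesSummable_G hs)) (h.conj.LSeriesSummable_G hs),
    LSeries_mul' (LSeriesSummable_mul (LSeriesSummable_uA hs)
    (LSeriesSummable_uA hs)) (h.LSeriesSummable_G hs),
    LSeries_mul' (LSeriesSummable_uA hs) (LSeriesSummable_uA hs), LSeries_uA hs, h.LSeries_G hs,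
    h.conj.LSeries_G hs, Phi, Zt_eq (by
      intro h0
      rw [h0] at hs
      simp at hs
      linarith)]
  ring

lemma Pair.lower {f G : ArithmeticFunction ℂ} (h : Pair f G) {w : ℝ} (hw : -(1/2) < w)
    (hw2 : w ≤ 2) : ‖riemannZeta (2 + 2 * w)‖ ^ 2 ≤ ‖Phi f G w‖ := by
  have hb0 : ∀ n, 0 ≤ bfun G n := bfun_nonneg h.cmG h.pos
  have hN : ∀ N : ℕ, (∑ n ∈ Finset.Icc 1 N, LSeries.term (bfun G) w n) ≤ Phi f G w := fun N =>
    landau_partial (b := bfun G) (fun n => hb0 n) (fun s hs => h.LSeriesSummable_b hs)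
      h.differentiableOn_Phi (fun s hs => h.Phi_eq hs) N hw hw2
  have hterm0 : ∀ n, 0 ≤ LSeries.term (bfun G) w n := by
    intro n
    rcases Nat.eq_zero_or_pos n with rfl | hn
    · simp
    · rw [LSeries.term_of_ne_zero hn.ne']
      have h1 : (0:ℂ) ≤ ((n : ℂ) ^ (w : ℂ))⁻¹ := by
        have : ((n : ℂ) ^ (w : ℂ))⁻¹ = ((((n:ℝ) ^ w)⁻¹ : ℝ) : ℂ) := by
          rw [Complex.ofReal_inv, Complex.ofReal_cpow (by positivity)]
          push_cast
          rfl
        rw [this]
        exact_mod_cast (by positivity : (0:ℝ) ≤ ((n:ℝ) ^ w)⁻¹)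
      rw [div_eq_mul_inv]
      exact mul_nonneg (hb0 n) h1
  have hsm : ∀ y n : ℕ, LSeries.term ((sInd y).pmul (bfun G)) w n ≤
      LSeries.term (bfun G) w n := by
    intro y n
    by_cases hn : n ∈ Nat.smoothNumbers y
    · have : LSeries.term ((sInd y).pmul (bfun G)) w n = LSeries.term (bfun G) w n := by
        rw [LSeries.term_of_ne_zero hn.1, LSeries.term_of_ne_zero hn.1, pmul_apply, sInd_mem hn,
          one_mul]
      rw [this]
    · have : LSeries.term ((sInd y).pmul (bfun G)) w n = 0 := by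
        rcases Nat.eq_zero_or_pos n with rfl | hpos
        · simp
        · rw [LSeries.term_of_ne_zero hpos.ne', pmul_apply, sInd_notMem hn]
          simp
      rw [this]
      exact hterm0 n
  have hy : ∀ y : ℕ, ∏ p ∈ y.primesBelow, ((1 - (p:ℝ) ^ (-(2 + 2 * w)))⁻¹) ^ 2 ≤
      ‖Phi f G w‖ := by
    intro y
    obtain ⟨P, hP, hle⟩ := smooth_lower h.cmG h.small h.pos hw y
    refine hle.trans ?_
    have ht : Tendsto (fun N : ℕ => (∑ n ∈ Finset.range (N + 1),
        LSeries.term ((sInd y).pmul (bfun G)) w n).re) atTop (𝓝 P.re) :=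
      (Complex.continuous_re.tendsto P).comp
        ((tendsto_add_atTop_iff_nat 1).mpr (HasSum.tendsto_sum_nat hP))
    refine le_of_tendsto' ht fun N => ?_
    have h1 : ∑ n ∈ Finset.range (N + 1), LSeries.term ((sInd y).pmul (bfun G)) w n =
        ∑ n ∈ Finset.Icc 1 N, LSeries.term ((sInd y).pmul (bfun G)) w n := by
      rw [Finset.range_eq_Ico, Finset.sum_eq_sum_Ico_succ_bot (by omega)]
      simp only [LSeries.term_zero, zero_add]
      rfl
    rw [h1]
    have h2 : ∑ n ∈ Finset.Icc 1 N, LSeries.term ((sInd y).pmul (bfun G)) w n ≤ Phi f G w :=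
      (Finset.sum_le_sum fun n _ => hsm y n).trans (hN N)
    exact (Complex.le_def.mp h2).1.trans (Complex.re_le_norm _)
  have hzeta := riemannZeta_eulerProduct (s := 2 + 2 * (w:ℂ)) (by simp; linarith)
  have hz2 : Tendsto (fun y : ℕ => ‖∏ p ∈ Nat.primesBelow y,
      (1 - (p : ℂ) ^ (-(2 + 2 * (w:ℂ))))⁻¹‖ ^ 2) atTop (𝓝 (‖riemannZeta (2 + 2 * (w:ℂ))‖ ^ 2)) :=
    (hzeta.norm).pow 2
  refine le_of_tendsto' hz2 fun y => ?_
  refine le_trans (le_of_eq ?_) (hy y)
  rw [norm_prod, ← Finset.prod_pow]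
  refine Finset.prod_congr rfl fun p hp => ?_
  have hp' := Nat.prime_of_mem_primesBelow hp
  have h2 : (1:ℝ) < p := by exact_mod_cast hp'.one_lt
  have h3 : (p : ℂ) ^ (-(2 + 2 * (w:ℂ))) = (((p:ℝ) ^ (-(2 + 2 * w)) : ℝ) : ℂ) := by
    rw [Complex.ofReal_cpow (by positivity)]
    push_cast
    rfl
  have h4 : (p:ℝ) ^ (-(2 + 2 * w)) < 1 := Real.rpow_lt_one_of_one_lt_of_neg h2 (by linarith)
  rw [h3, norm_inv, ← Complex.ofReal_one, ← Complex.ofReal_sub, Complex.norm_real,
    Real.norm_of_nonneg (by linarith)]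

theorem Pair.false {f G : ArithmeticFunction ℂ} (h : Pair f G) : False := by
  have hup : Tendsto (fun w : ℝ => (w + 1/2) ^ 2 * ‖Phi f G w‖) (𝓝[>] (-(1/2))) (𝓝 0) := by
    have h1 : Tendsto (fun w : ℝ => ‖Zt (w:ℂ)‖ ^ 2) (𝓝[>] (-(1/2)))
        (𝓝 (‖Zt ((-(1/2) : ℝ) : ℂ)‖ ^ 2)) := by
      have : Continuous fun w : ℝ => ‖Zt (w:ℂ)‖ ^ 2 :=
        ((differentiable_Zt.continuous.comp Complex.continuous_ofReal).norm).pow 2
      exact (this.tendsto _).mono_left nhdsWithin_le_nhds
    have h2 := (h1.mul h.Q_lim).mul h.conj.Q_lim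
    rw [mul_zero] at h2
    refine h2.congr fun w => ?_
    rw [Phi, norm_mul, norm_mul, norm_pow]
    ring
  have hlow : Tendsto (fun w : ℝ => (w + 1/2) ^ 2 * ‖riemannZeta (2 + 2 * w)‖ ^ 2)
      (𝓝[>] (-(1/2))) (𝓝 (1/4)) := by
    have h1 : Tendsto (fun w : ℝ => (2 + 2 * (w:ℂ))) (𝓝[>] (-(1/2))) (𝓝[≠] 1) := by
      rw [tendsto_nhdsWithin_iff]
      constructor
      · have : Continuous fun w : ℝ => (2 + 2 * (w:ℂ)) := by fun_prop
        have h2 := (this.tendsto (-(1/2))).mono_left (nhdsWithin_le_nhds (s := Set.Ioi (-(1/2))))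
        convert! h2 using 2
        push_cast
        norm_num
      · filter_upwards [self_mem_nhdsWithin] with w hw
        have hw' : -(1/2) < w := hw
        intro h0
        have h3 : (2 + 2 * (w:ℂ)) = 1 := h0
        have h4 := congrArg Complex.re h3
        simp at h4
        linarith
    have h2 := ((riemannZeta_residue_one.comp h1).norm.pow 2).const_mul (1/4 : ℝ)
    rw [norm_one, one_pow, mul_one] at h2
    refine h2.congr' ?_
    filter_upwards [self_mem_nhdsWithin] with w hw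
    have hw' : -(1/2) < w := hw
    simp only [Function.comp_apply]
    have h3 : (2 + 2 * (w:ℂ) - 1) = ((2 * (w + 1/2) : ℝ) : ℂ) := by push_cast; ring
    rw [h3, norm_mul, Complex.norm_real, Real.norm_of_nonneg (by linarith)]
    ring
  have hle : (1/4 : ℝ) ≤ 0 := by
    refine le_of_tendsto_of_tendsto hlow hup ?_
    filter_upwards [Ioo_mem_nhdsGT (show (-(1/2) : ℝ) < 2 by norm_num)] with w hw
    exact mul_le_mul_of_nonneg_left (h.lower hw.1 hw.2.le) (by positivity)
  norm_num at hle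

end Pool.Agent.Helper29
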