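import Pool.Agent.Helper29.Corr
import Pool.Agent.Helper29.Core

set_option autoImplicit false
open Filter Topology ArithmeticFunction Complex
open scoped ComplexOrder

namespace Pool.Agent.Helper29

/-- `n ↦ χ(n)/n` -/
noncomputable def uX {N : ℕ} (χ : DirichletCharacter ℂ N) : ArithmeticFunction ℂ :=
  ⟨fun n => χ n * (n : ℂ)⁻¹, by simp⟩

lemma uX_apply {N : ℕ} (χ : DirichletCharacter ℂ N) (n : ℕ) : uX χ n = χ n * (n : ℂ)⁻¹ := rfl

lemma uX_CM {N : ℕ} (χ : DirichletCharacter ℂ N) : CM (uX χ) := by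
  constructor
  · simp [uX_apply]
  · intro m n
    simp only [uX_apply]
    push_cast
    rw [map_mul, mul_inv]
    ring

lemma uX_norm_le {N : ℕ} (χ : DirichletCharacter ℂ N) (n : ℕ) : ‖uX χ n‖ ≤ ‖uA n‖ := by
  rw [uX_apply, uA_apply, norm_mul]
  exact mul_le_of_le_one_left (norm_nonneg _) (χ.norm_le_one _)

lemma uX_norm_le' {N : ℕ} (χ : DirichletCharacter ℂ N) (n : ℕ) : ‖uX χ n‖ ≤ (n:ℝ)⁻¹ := by
  refine (uX_norm_le χ n).trans (le_of_eq ?_)
  rw [uA_apply, norm_inv]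
  simp

lemma LSeriesSummable_uX {N : ℕ} (χ : DirichletCharacter ℂ N) {s : ℂ} (hs : 1 < s.re) :
    LSeriesSummable (uX χ) s := by
  refine LSeriesSummable_of_bounded_of_one_lt_re (m := 1) (fun n hn => ?_) hs
  refine (uX_norm_le' χ n).trans ?_
  have h1 : (1:ℝ) ≤ n := by exact_mod_cast Nat.one_le_iff_ne_zero.mpr hn
  exact inv_le_one_of_one_le₀ h1

lemma LSeries_uX {N : ℕ} [NeZero N] (χ : DirichletCharacter ℂ N) {s : ℂ} (hs : 1 < s.re) :
    LSeries (uX χ) s = χ.LFunction (s + 1) := by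
  rw [DirichletCharacter.LFunction_eq_LSeries _ (by simp; linarith), LSeries, LSeries]
  refine tsum_congr fun n => ?_
  rcases Nat.eq_zero_or_pos n with rfl | hn
  · simp
  · have hn' : (n : ℂ) ≠ 0 := by exact_mod_cast hn.ne'
    rw [LSeries.term_of_ne_zero hn.ne', LSeries.term_of_ne_zero hn.ne', uX_apply,
      Complex.cpow_add _ _ hn', Complex.cpow_one]
    field_simp

open Classical in
/-- entire function attached to a character -/
noncomputable def LE {N : ℕ} [NeZero N] (χ : DirichletCharacter ℂ N) (s : ℂ) : ℂ :=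
  if χ = 1 then DirichletCharacter.LFunctionTrivChar₁ N (s + 1) else χ.LFunction (s + 1)

lemma differentiable_LE {N : ℕ} [NeZero N] (χ : DirichletCharacter ℂ N) :
    Differentiable ℂ (LE χ) := by
  unfold LE
  by_cases h : χ = 1
  · simp only [h, if_true]
    exact (DirichletCharacter.differentiable_LFunctionTrivChar₁ N).comp
      (differentiable_id.add_const 1)
  · simp only [h, if_false]
    exact (DirichletCharacter.differentiable_LFunction h).comp (differentiable_id.add_const 1)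

lemma LE_of_ne {N : ℕ} [NeZero N] {χ : DirichletCharacter ℂ N} (h : χ ≠ 1) {s : ℂ}
    (hs : 1 < s.re) : LE χ s = LSeries (uX χ) s := by
  rw [LE, if_neg h, LSeries_uX χ hs]

lemma LE_one {N : ℕ} [NeZero N] {s : ℂ}
    (hs : 1 < s.re) : LE (1 : DirichletCharacter ℂ N) s =
      s * LSeries (uX (1 : DirichletCharacter ℂ N)) s := by
  have hs0 : s + 1 ≠ 1 := by
    intro h
    have h1 : s = 0 := by linear_combination h
    rw [h1] at hs
    simp at hs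
    linarith
  rw [LE, if_pos rfl, LSeries_uX _ hs, DirichletCharacter.LFunctionTrivChar₁,
    Function.update_of_ne hs0]
  ring

/-- the sum over primes of `ψ(p) p^{-σ}` -/
noncomputable def Pσ {N : ℕ} (ψ : DirichletCharacter ℂ N) (σ : ℝ) : ℝ :=
  ∑' p : Nat.Primes, (ψ (p : ℕ)).re * ((p : ℕ) : ℝ) ^ (-σ)

lemma summable_Pσ {N : ℕ} (ψ : DirichletCharacter ℂ N) {σ : ℝ} (hσ : 1 < σ) :
    Summable (fun p : Nat.Primes => (ψ (p : ℕ)).re * ((p : ℕ) : ℝ) ^ (-σ)) := by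
  refine Summable.of_norm_bounded (Nat.Primes.summable_rpow.mpr (show -σ < -1 by linarith))
    fun p => ?_
  rw [norm_mul, Real.norm_of_nonneg (Real.rpow_nonneg (by positivity) _)]
  refine mul_le_of_le_one_left (Real.rpow_nonneg (by positivity) _) ?_
  exact (Complex.abs_re_le_norm _).trans (ψ.norm_le_one _)

lemma prime_cpow_ofReal (p : ℕ) (x : ℝ) : (p : ℂ) ^ (x : ℂ) = (((p:ℝ) ^ x : ℝ) : ℂ) := by
  rw [Complex.ofReal_cpow (by positivity)]
  push_cast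
  rfl

lemma log_bound {z : ℂ} (hz : ‖z‖ ≤ 1/2) : ‖-log (1 - z) - z‖ ≤ ‖z‖ ^ 2 := by
  have h1 := Complex.norm_log_one_add_sub_self_le (z := -z) (by rw [norm_neg]; linarith)
  rw [norm_neg] at h1
  have h2 : ‖-log (1 - z) - z‖ = ‖log (1 + -z) - -z‖ := by
    rw [← norm_neg]
    congr 1
    rw [sub_eq_add_neg 1 z]
    ring
  rw [h2]
  refine h1.trans ?_
  have h3 : (1 - ‖z‖)⁻¹ ≤ 2 := by
    rw [inv_le_comm₀ (by linarith) (by norm_num)]
    linarith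
  have h4 : 0 ≤ ‖z‖ ^ 2 := by positivity
  nlinarith

lemma exists_Pσ_ge_log {N : ℕ} [NeZero N] (ψ : DirichletCharacter ℂ N) : ∃ C : ℝ, ∀ σ : ℝ, 1 < σ →
    Real.log ‖LSeries (fun n => ψ n) σ‖ - C ≤ Pσ ψ σ := by
  have hsum2 : Summable (fun p : Nat.Primes => ((p : ℕ) : ℝ) ^ (-(2:ℝ))) :=
    Nat.Primes.summable_rpow.mpr (by norm_num)
  refine ⟨∑' p : Nat.Primes, ((p : ℕ) : ℝ) ^ (-(2:ℝ)), fun σ hσ => ?_⟩
  have hs : 1 < (σ : ℂ).re := by simpa using hσ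
  have key := DirichletCharacter.LSeries_eulerProduct_exp_log ψ hs
  have hzn : ∀ p : Nat.Primes, ‖ψ (p : ℕ) * ((p : ℕ) : ℂ) ^ (-(σ:ℂ))‖ ≤ ((p : ℕ) : ℝ) ^ (-σ) := by
    intro p
    rw [← Complex.ofReal_neg, prime_cpow_ofReal, norm_mul, Complex.norm_real,
      Real.norm_of_nonneg (Real.rpow_nonneg (by positivity) _)]
    exact mul_le_of_le_one_left (Real.rpow_nonneg (by positivity) _) (ψ.norm_le_one _)
  have hp2 : ∀ p : Nat.Primes, ((p : ℕ) : ℝ) ^ (-σ) ≤ ((p : ℕ) : ℝ)⁻¹ := by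
    intro p
    have h1 : (1:ℝ) ≤ (p : ℕ) := by exact_mod_cast p.2.one_le
    rw [← Real.rpow_neg_one]
    exact Real.rpow_le_rpow_of_exponent_le h1 (by linarith)
  have hp3 : ∀ p : Nat.Primes, ((p : ℕ) : ℝ)⁻¹ ≤ 1/2 := by
    intro p
    have h1 : (2:ℝ) ≤ (p : ℕ) := by exact_mod_cast p.2.two_le
    rw [one_div]
    exact inv_anti₀ (by norm_num) h1
  have hb : ∀ p : Nat.Primes, ‖-log (1 - ψ (p : ℕ) * ((p : ℕ) : ℂ) ^ (-(σ:ℂ))) -
      ψ (p : ℕ) * ((p : ℕ) : ℂ) ^ (-(σ:ℂ))‖ ≤ ((p : ℕ) : ℝ) ^ (-(2:ℝ)) := by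
    intro p
    refine (log_bound ((hzn p).trans ((hp2 p).trans (hp3 p)))).trans ?_
    have h1 : ‖ψ (p : ℕ) * ((p : ℕ) : ℂ) ^ (-(σ:ℂ))‖ ≤ ((p : ℕ) : ℝ)⁻¹ := (hzn p).trans (hp2 p)
    refine (pow_le_pow_left₀ (norm_nonneg _) h1 2).trans (le_of_eq ?_)
    rw [← Real.rpow_natCast, ← Real.rpow_neg_one, ← Real.rpow_mul (by positivity)]
    norm_num
  have hsumz : Summable (fun p : Nat.Primes => ψ (p : ℕ) * ((p : ℕ) : ℂ) ^ (-(σ:ℂ))) :=
    Summable.of_norm_bounded (Nat.Primes.summable_rpow.mpr (show -σ < -1 by linarith)) hzn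
  have hsumd : Summable (fun p : Nat.Primes => -log (1 - ψ (p : ℕ) * ((p : ℕ) : ℂ) ^ (-(σ:ℂ))) -
      ψ (p : ℕ) * ((p : ℕ) : ℂ) ^ (-(σ:ℂ))) := Summable.of_norm_bounded hsum2 hb
  have hsuml : Summable (fun p : Nat.Primes => -log (1 - ψ (p : ℕ) * ((p : ℕ) : ℂ) ^ (-(σ:ℂ)))) := by
    refine (hsumd.add hsumz).congr fun p => ?_
    ring
  rw [← key, Complex.norm_exp, Real.log_exp]
  have h1 : ∑' p : Nat.Primes, -log (1 - ψ (p : ℕ) * ((p : ℕ) : ℂ) ^ (-(σ:ℂ))) =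
      (∑' p : Nat.Primes, (-log (1 - ψ (p : ℕ) * ((p : ℕ) : ℂ) ^ (-(σ:ℂ))) -
      ψ (p : ℕ) * ((p : ℕ) : ℂ) ^ (-(σ:ℂ)))) +
      ∑' p : Nat.Primes, ψ (p : ℕ) * ((p : ℕ) : ℂ) ^ (-(σ:ℂ)) := by
    rw [← hsumd.tsum_add hsumz]
    refine tsum_congr fun p => ?_
    ring
  have h2 : ‖∑' p : Nat.Primes, (-log (1 - ψ (p : ℕ) * ((p : ℕ) : ℂ) ^ (-(σ:ℂ))) -
      ψ (p : ℕ) * ((p : ℕ) : ℂ) ^ (-(σ:ℂ)))‖ ≤ ∑' p : Nat.Primes, ((p : ℕ) : ℝ) ^ (-(2:ℝ)) :=
    tsum_of_norm_bounded hsum2.hasSum hb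
  have h3 : (∑' p : Nat.Primes, ψ (p : ℕ) * ((p : ℕ) : ℂ) ^ (-(σ:ℂ))).re = Pσ ψ σ := by
    rw [Complex.re_tsum hsumz, Pσ]
    refine tsum_congr fun p => ?_
    rw [← Complex.ofReal_neg, prime_cpow_ofReal, Complex.re_mul_ofReal]
  rw [h1, Complex.add_re, h3]
  have h4 := (Complex.abs_re_le_norm _).trans h2
  have h5 := (abs_le.mp h4).2
  linarith

/-- lower bound for the prime sums -/
lemma exists_Pσ_ge {N : ℕ} [NeZero N] (ψ : DirichletCharacter ℂ N) : ∃ C : ℝ, ∀ σ : ℝ, 1 < σ →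
    σ ≤ 2 → -C ≤ Pσ ψ σ := by
  obtain ⟨C, hC⟩ := exists_Pσ_ge_log ψ
  have hcont : Continuous (fun σ : ℝ => ‖LE ψ ((σ : ℂ) - 1)‖) := by
    have := (differentiable_LE ψ).continuous
    fun_prop
  have hne : ∀ σ ∈ Set.Icc (1:ℝ) 2, ‖LE ψ ((σ : ℂ) - 1)‖ ≠ 0 := by
    intro σ hσ
    rw [norm_ne_zero_iff]
    by_cases h : ψ = 1
    · subst h
      rw [LE, if_pos rfl, sub_add_cancel]
      by_cases h1 : σ = 1
      · rw [h1]
        exact_mod_cast DirichletCharacter.LFunctionTrivChar₁_apply_one_ne_zero N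
      · have h2 : (σ : ℂ) ≠ 1 := by exact_mod_cast h1
        rw [DirichletCharacter.LFunctionTrivChar₁, Function.update_of_ne h2]
        refine mul_ne_zero (sub_ne_zero.mpr h2) ?_
        exact DirichletCharacter.LFunction_ne_zero_of_one_le_re _ (Or.inr h2) (by simpa using hσ.1)
    · rw [LE, if_neg h, sub_add_cancel]
      exact DirichletCharacter.LFunction_ne_zero_of_one_le_re _ (Or.inl h) (by simpa using hσ.1)
  obtain ⟨x, hx, hmin⟩ := isCompact_Icc.exists_isMinOn (Set.nonempty_Icc.mpr one_le_two)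
    hcont.continuousOn
  have hm0 : 0 < ‖LE ψ ((x : ℂ) - 1)‖ := lt_of_le_of_ne (norm_nonneg _) (hne x hx).symm
  refine ⟨C - Real.log ‖LE ψ ((x : ℂ) - 1)‖, fun σ h1 h2 => ?_⟩
  have h3 := hC σ h1
  have h4 : ‖LE ψ ((x : ℂ) - 1)‖ ≤ ‖LE ψ ((σ : ℂ) - 1)‖ := hmin ⟨h1.le, h2⟩
  have h5 : ‖LE ψ ((σ : ℂ) - 1)‖ ≤ ‖LSeries (fun n => ψ n) σ‖ := by
    have hre : 1 < (σ : ℂ).re := by simpa using h1
    by_cases h : ψ = 1
    · subst h
      have hσ1 : (σ : ℂ) ≠ 1 := by exact_mod_cast h1.ne'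
      rw [LE, if_pos rfl, sub_add_cancel, DirichletCharacter.LFunctionTrivChar₁,
        Function.update_of_ne hσ1, norm_mul, DirichletCharacter.LFunctionTrivChar,
        DirichletCharacter.LFunction_eq_LSeries _ hre]
      refine mul_le_of_le_one_left (norm_nonneg _) ?_
      rw [← Complex.ofReal_one, ← Complex.ofReal_sub, Complex.norm_real,
        Real.norm_of_nonneg (by linarith)]
      linarith
    · rw [LE, if_neg h, sub_add_cancel, DirichletCharacter.LFunction_eq_LSeries _ hre]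
  have h6 := Real.log_le_log hm0 (h4.trans h5)
  linarith

lemma exists_Pσ_one_ge (N : ℕ) [NeZero N] : ∃ C : ℝ, ∀ σ : ℝ, 1 < σ →
    σ ≤ 2 → -Real.log (σ - 1) - C ≤ Pσ (1 : DirichletCharacter ℂ N) σ := by
  obtain ⟨C, hC⟩ := exists_Pσ_ge_log (1 : DirichletCharacter ℂ N)
  have hcont : Continuous (fun σ : ℝ => ‖LE (1 : DirichletCharacter ℂ N) ((σ : ℂ) - 1)‖) := by
    have := (differentiable_LE (1 : DirichletCharacter ℂ N)).continuous
    fun_prop
  have hne : ∀ σ ∈ Set.Icc (1:ℝ) 2, ‖LE (1 : DirichletCharacter ℂ N) ((σ : ℂ) - 1)‖ ≠ 0 := by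
    intro σ hσ
    rw [norm_ne_zero_iff]
    rw [LE, if_pos rfl, sub_add_cancel]
    by_cases h1 : σ = 1
    · rw [h1]
      exact_mod_cast DirichletCharacter.LFunctionTrivChar₁_apply_one_ne_zero N
    · have h2 : (σ : ℂ) ≠ 1 := by exact_mod_cast h1
      rw [DirichletCharacter.LFunctionTrivChar₁, Function.update_of_ne h2]
      refine mul_ne_zero (sub_ne_zero.mpr h2) ?_
      exact DirichletCharacter.LFunction_ne_zero_of_one_le_re _ (Or.inr h2) (by simpa using hσ.1)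
  obtain ⟨x, hx, hmin⟩ := isCompact_Icc.exists_isMinOn (Set.nonempty_Icc.mpr one_le_two)
    hcont.continuousOn
  have hm0 : 0 < ‖LE (1 : DirichletCharacter ℂ N) ((x : ℂ) - 1)‖ :=
    lt_of_le_of_ne (norm_nonneg _) (hne x hx).symm
  refine ⟨C - Real.log ‖LE (1 : DirichletCharacter ℂ N) ((x : ℂ) - 1)‖, fun σ h1 h2 => ?_⟩
  have h3 := hC σ h1
  have h4 : ‖LE (1 : DirichletCharacter ℂ N) ((x : ℂ) - 1)‖ ≤
    ‖LE (1 : DirichletCharacter ℂ N) ((σ : ℂ) - 1)‖ := hmin ⟨h1.le, h2⟩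
  have hre : 1 < (σ : ℂ).re := by simpa using h1
  have hσ1 : (σ : ℂ) ≠ 1 := by exact_mod_cast h1.ne'
  have h5 : ‖LE (1 : DirichletCharacter ℂ N) ((σ : ℂ) - 1)‖ =
      (σ - 1) * ‖LSeries (fun n => (1 : DirichletCharacter ℂ N) n) σ‖ := by
    rw [LE, if_pos rfl, sub_add_cancel, DirichletCharacter.LFunctionTrivChar₁,
      Function.update_of_ne hσ1, norm_mul, DirichletCharacter.LFunctionTrivChar,
      DirichletCharacter.LFunction_eq_LSeries _ hre]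
    rw [← Complex.ofReal_one, ← Complex.ofReal_sub, Complex.norm_real,
      Real.norm_of_nonneg (by linarith)]
  have hL0 : 0 < ‖LSeries (fun n => (1 : DirichletCharacter ℂ N) n) σ‖ := by
    rw [h5] at h4
    by_contra hcon
    have : ‖LSeries (fun n => (1 : DirichletCharacter ℂ N) n) σ‖ = 0 :=
      le_antisymm (not_lt.mp hcon) (norm_nonneg _)
    rw [this, mul_zero] at h4
    linarith
  have h6 := Real.log_le_log hm0 h4
  rw [h5, Real.log_mul (by linarith) hL0.ne'] at h6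
  linarith

end Pool.Agent.Helper29
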