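import Pool.Agent.Helper82.Circ.Data
import Pool.Agent.Helper82.Circ.Sd

/-!
From a simplicial complex with a cocompact action, free modulo a central subgroup, to the
coloured complex `CovD`: take the second barycentric subdivision, coloured by the orbits of its
vertices.
-/

open Topology Set Function
open scoped Pointwise

namespace Pool.Agent.Helper82.Circ

namespace CircC

/-- A family of finite sets which is invariant under the action. -/
def Inv {E V : Type} [Group E] [MulAction E V] [DecidableEq V] (K : SC V) : Prop :=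
  ∀ s ∈ K.faces, ∀ e : E, e • s ∈ K.faces

lemma eq_of_card {V : Type} {s t : Finset V} (h : s ⊆ t ∨ t ⊆ s) (hc : s.card = t.card) :
    s = t := by
  rcases h with h | h
  · exact Finset.eq_of_subset_of_card_le h hc.ge
  · exact (Finset.eq_of_subset_of_card_le h hc.le).symm

section

variable {E V : Type} [Group E] [MulAction E V] [DecidableEq V] {K : SC V}

lemma sd_inv (hK : Inv (E := E) K) : Inv (E := E) K.sd := by
  intro c hc e
  refine ⟨fun s hs => ?_, fun s hs t ht => ?_⟩
  · obtain ⟨s', hs', rfl⟩ := Finset.mem_smul_finset.1 hs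
    exact ⟨(hc.1 s' hs').1.smul_finset, hK s' (hc.1 s' hs').2 e⟩
  · obtain ⟨s', hs', rfl⟩ := Finset.mem_smul_finset.1 hs
    obtain ⟨t', ht', rfl⟩ := Finset.mem_smul_finset.1 ht
    rcases hc.2 s' hs' t' ht' with h | h
    · exact Or.inl (Finset.smul_finset_subset_smul_finset h)
    · exact Or.inr (Finset.smul_finset_subset_smul_finset h)

/-- In a chain, an element is fixed as soon as its image lies in the chain. -/
lemma fix_of_mem {c : Finset (Finset V)} (hc : c ∈ K.sd.faces) {e f : E} {τ : Finset V}
    (h1 : e • τ ∈ c) (h2 : f • τ ∈ c) : e • τ = f • τ :=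
  eq_of_card (hc.2 _ h1 _ h2) (by simp [Finset.card_smul_finset])

end

section

variable {E V : Type} [Group E] [MulAction E V] [DecidableEq V] (K : SC V)

/-- Valid vertices of the second subdivision. -/
def Val (c : Finset (Finset V)) : Prop := c ∈ K.sd.faces ∧ c.Nonempty

/-- The colours: orbits of valid vertices. -/
def Col (E : Type) {V : Type} [Group E] [MulAction E V] [DecidableEq V] (K : SC V) : Type :=
  {q : Quotient (MulAction.orbitRel E (Finset (Finset V))) // ∃ c, Val K c ∧ Quotient.mk _ c = q}

open Classical in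
/-- The colouring by orbits. -/
noncomputable def col (E : Type) {V : Type} [Group E] [MulAction E V] [DecidableEq V] (K : SC V)
    (c : Finset (Finset V)) : Option (Col E K) :=
  if h : Val K c then some ⟨Quotient.mk _ c, c, h, rfl⟩ else none

variable {K}

lemma val_smul (hK : Inv (E := E) K) {c : Finset (Finset V)} (hc : Val K c) (e : E) :
    Val K (e • c) := ⟨sd_inv hK c hc.1 e, hc.2.smul_finset⟩

lemma val_smul_iff (hK : Inv (E := E) K) {c : Finset (Finset V)} (e : E) :
    Val K (e • c) ↔ Val K c := by
  refine ⟨fun h => ?_, fun h => val_smul hK h e⟩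
  have := val_smul hK h e⁻¹
  rwa [inv_smul_smul] at this

lemma col_smul (hK : Inv (E := E) K) (c : Finset (Finset V)) (e : E) :
    col E K (e • c) = col E K c := by
  unfold col
  by_cases h : Val K c
  · have h' := val_smul hK h e
    rw [dif_pos h, dif_pos h']
    congr 1
    apply Subtype.ext
    exact Quotient.sound ⟨e, rfl⟩
  · have h' : ¬ Val K (e • c) := fun h' => h ((val_smul_iff hK e).1 h')
    rw [dif_neg h, dif_neg h']

lemma col_ne {c : Finset (Finset V)} (h : Val K c) : col E K c ≠ none := by
  unfold col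
  rw [dif_pos h]
  simp

lemma col_eq {c d : Finset (Finset V)} (hc : Val K c) (h : col E K c = col E K d) :
    ∃ e : E, e • c = d := by
  by_cases hd : Val K d
  · unfold col at h
    rw [dif_pos hc, dif_pos hd] at h
    have h1 := congrArg Subtype.val (Option.some.inj h)
    obtain ⟨e, he⟩ := Quotient.exact h1.symm
    exact ⟨e, he⟩
  · exfalso
    refine col_ne (E := E) hc ?_
    rw [h]
    unfold col
    rw [dif_neg hd]

lemma finite_col (v₀ : V) (htrans : ∀ v w : V, ∃ e : E, e • v = w) (hK : Inv (E := E) K)
    (hloc : K.LocFin) : Finite (Col E K) := by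
  classical
  have hfin : {c : Finset (Finset V) | c ∈ K.sd.faces ∧ ∃ s ∈ c, v₀ ∈ s}.Finite := by
    refine ((hloc v₀).biUnion (t := fun s => {c ∈ K.sd.faces | s ∈ c})
      fun s _ => SC.sd_locFin hloc s).subset ?_
    rintro c ⟨hc, s, hs, hv⟩
    exact Set.mem_biUnion (x := s) ⟨(hc.1 s hs).2, hv⟩ ⟨hc, hs⟩
  have h2 : (Set.univ : Set (Col E K)) ⊆
      ((fun q : Col E K => q.1) ⁻¹'
        ((fun c => Quotient.mk (MulAction.orbitRel E (Finset (Finset V))) c) ''
          {c : Finset (Finset V) | c ∈ K.sd.faces ∧ ∃ s ∈ c, v₀ ∈ s})) := by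
    rintro ⟨q, c, hc, rfl⟩ -
    obtain ⟨s, hs⟩ := hc.2
    obtain ⟨v, hv⟩ := (hc.1.1 s hs).1
    obtain ⟨e, he⟩ := htrans v v₀
    refine ⟨e • c, ⟨sd_inv hK c hc.1 e, e • s, Finset.smul_mem_smul_finset hs, ?_⟩, ?_⟩
    · rw [← he]
      exact Finset.smul_mem_smul_finset hv
    · exact Quotient.sound ⟨e, rfl⟩
  refine Set.finite_univ_iff.1 (Set.Finite.subset ?_ h2)
  exact (hfin.image _).preimage (fun a _ b _ h => Subtype.ext h)

end

end CircC

open CircC in
theorem exists_covD {E V : Type} [Group E] [MulAction E V] [DecidableEq V] (K : SC V) (z : E)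
    (v₀ : V) (hz : z ∈ Subgroup.center E) (htrans : ∀ v w : V, ∃ e : E, e • v = w)
    (hstab : ∀ (e : E) (v : V), e • v = v ↔ e ∈ Subgroup.zpowers z)
    (hinv : ∀ s ∈ K.faces, ∀ e : E, s.image (e • ·) ∈ K.faces)
    (hst : ∀ s ∈ K.faces, s.Nonempty → ∀ e : E, s.image (e • ·) = s → e ∈ Subgroup.zpowers z)
    (hv₀ : {v₀} ∈ K.faces) (hloc : K.LocFin) (hcontr : ContractibleSpace K.cone) :
    ∃ (W B : Type) (_ : MulAction E W) (_ : DecidableEq W) (_ : Fintype B) (_ : DecidableEq B)
      (L : SC W) (κ : W → Option B), CovD E W B L κ z := by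
  classical
  have hK : Inv (E := E) K := fun s hs e => hinv s hs e
  have := finite_col v₀ htrans hK hloc
  have hval : ∀ s ∈ K.sd.sd.faces, ∀ c ∈ s, Val K c := fun s hs c hc =>
    ⟨(hs.1 c hc).2, (hs.1 c hc).1⟩
  have hinj : ∀ s ∈ K.sd.sd.faces, Set.InjOn (col E K) s := by
    intro s hs c hc d hd h
    obtain ⟨e, he⟩ := col_eq (hval s hs c hc) h
    refine eq_of_card (hs.2 c hc d hd) ?_
    rw [← he, Finset.card_smul_finset]
  refine ⟨Finset (Finset V), Col E K, inferInstance, inferInstance, Fintype.ofFinite _,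
    Classical.decEq _, K.sd.sd, col E K, ?_⟩
  refine ⟨SC.sd_locFin (SC.sd_locFin hloc), ?_, ?_, ?_, ?_, ?_, hinj, ?_, ?_⟩
  · have h1 : ContractibleSpace K.sd.cone := (K.sdHomeo hloc).contractibleSpace
    exact (K.sd.sdHomeo (SC.sd_locFin hloc)).contractibleSpace
  · intro e s hs
    have := sd_inv (sd_inv hK) s hs e
    rw [Finset.smul_finset_def] at this
    convert this
  · have h0 : ∀ v : V, z • v = v := fun v => (hstab z v).2 (Subgroup.mem_zpowers z)
    have h1 : ∀ s : Finset V, z • s = s := fun s => by
      rw [Finset.smul_finset_def]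
      simp [h0]
    intro c
    rw [Finset.smul_finset_def]
    simp [h1]
  · intro e c
    exact col_smul hK c e
  · intro s hs c hc
    exact col_ne (hval s hs c hc)
  · intro s hs s' hs' h
    rcases s.eq_empty_or_nonempty with rfl | hne
    · refine ⟨1, ?_⟩
      rw [Finset.image_empty] at h ⊢
      exact (Finset.image_eq_empty.1 h.symm).symm
    · obtain ⟨c, hc, hmax⟩ := Finset.exists_max_image s (fun c => c.card) hne
      have hc1 : ∀ b ∈ s, b ⊆ c := by
        intro b hb
        rcases hs.2 b hb c hc with h | h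
        · exact h
        · exact (Finset.eq_of_subset_of_card_le h (hmax b hb)).ge
      have hcol : ∀ b ∈ s, ∃ b' ∈ s', ∃ e : E, e • b = b' := by
        intro b hb
        have : col E K b ∈ s'.image (col E K) := h ▸ Finset.mem_image_of_mem _ hb
        obtain ⟨b', hb', h'⟩ := Finset.mem_image.1 this
        obtain ⟨e, he⟩ := col_eq (hval s hs b hb) h'.symm
        exact ⟨b', hb', e, he⟩
      have hcol' : ∀ b' ∈ s', ∃ b ∈ s, ∃ e : E, e • b = b' := by
        intro b' hb'
        have : col E K b' ∈ s.image (col E K) := h ▸ Finset.mem_image_of_mem _ hb'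
        obtain ⟨b, hb, h'⟩ := Finset.mem_image.1 this
        obtain ⟨e, he⟩ := col_eq (hval s hs b hb) h'
        exact ⟨b, hb, e, he⟩
      obtain ⟨c', hc', e, he⟩ := hcol c hc
      have hc1' : ∀ b' ∈ s', b' ⊆ c' := by
        intro b' hb'
        obtain ⟨b, hb, f, hf⟩ := hcol' b' hb'
        have hcard : b'.card ≤ c'.card := by
          rw [← hf, ← he, Finset.card_smul_finset, Finset.card_smul_finset]
          exact hmax b hb
        rcases hs'.2 b' hb' c' hc' with h | h
        · exact h
        · exact (Finset.eq_of_subset_of_card_le h hcard).ge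
      have hmaps : ∀ b ∈ s, e • b ∈ s' := by
        intro b hb
        obtain ⟨b', hb', f, hf⟩ := hcol b hb
        have hch : c' ∈ K.sd.faces := (hs'.1 c' hc').2
        have hsub : e • b ⊆ c' := by
          rw [← he]
          exact Finset.smul_finset_subset_smul_finset (hc1 b hb)
        have hsub' : f • b ⊆ c' := by
          rw [hf]
          exact hc1' b' hb'
        have heq : e • b = f • b := by
          have key : ∀ τ ∈ b, e • τ = f • τ := fun τ hτ =>
            fix_of_mem hch (hsub (Finset.smul_mem_smul_finset hτ))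
              (hsub' (Finset.smul_mem_smul_finset hτ))
          rw [Finset.smul_finset_def, Finset.smul_finset_def]
          exact Finset.image_congr fun τ hτ => key τ hτ
        rw [heq, hf]
        exact hb'
      refine ⟨e, ?_⟩
      have hsub : s.image (e • ·) ⊆ s' := by
        intro x hx
        obtain ⟨b, hb, rfl⟩ := Finset.mem_image.1 hx
        exact hmaps b hb
      refine Finset.eq_of_subset_of_card_le hsub ?_
      rw [Finset.card_image_of_injective _ (MulAction.injective e)]
      have h1 : (s.image (col E K)).card = s.card :=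
        Finset.card_image_of_injOn (hinj s hs)
      have h2 : (s'.image (col E K)).card = s'.card :=
        Finset.card_image_of_injOn (hinj s' hs')
      rw [← h1, ← h2, h]
  · intro s hs hne e he
    obtain ⟨c, hc⟩ := hne
    have h1 : e • c ∈ s := by
      have : e • c ∈ s.image (e • ·) := Finset.mem_image_of_mem _ hc
      rwa [he] at this
    have h2 : e • c = c :=
      eq_of_card (hs.2 _ h1 _ hc) (by simp [Finset.card_smul_finset])
    obtain ⟨τ, hτ⟩ := (hs.1 c hc).1
    have h3 : e • τ ∈ c := by
      have : e • τ ∈ e • c := Finset.smul_mem_smul_finset hτ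
      rwa [h2] at this
    have hch : c ∈ K.sd.faces := (hs.1 c hc).2
    have h4 : e • τ = τ :=
      eq_of_card (hch.2 _ h3 _ hτ) (by simp [Finset.card_smul_finset])
    exact hst τ (hch.1 τ hτ).2 (hch.1 τ hτ).1 e h4

end Pool.Agent.Helper82.Circ
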