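import Pool.Agent.Helper29.Core

set_option autoImplicit false
open Filter Topology ArithmeticFunction Complex Asymptotics
open scoped ComplexOrder

namespace Pool.Agent.Helper29

lemma tendsto_primes_atTop : Tendsto (fun p : Nat.Primes => (p : ℕ)) cofinite atTop := by
  rw [← Nat.cofinite_eq_atTop]
  exact Subtype.val_injective.tendsto_cofinite

/-- jump of the summatory function -/
lemma jump_le {f : ℕ → ℂ} {κ ε : ℝ} (hκ : 0 ≤ κ) {M : ℕ}
    (hM : ∀ N : ℕ, M ≤ N → 0 < N →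
      ‖∑ n ∈ Finset.Icc 1 N, f n‖ < ε / (N : ℝ) ^ (1/2 + κ))
    {n : ℕ} (hn : M + 2 ≤ n) : ‖f n‖ * (n : ℝ) ^ (1/2 + κ) ≤ ε * (1 + 2 ^ (1/2 + κ)) := by
  obtain ⟨m, rfl⟩ : ∃ m, n = m + 1 := ⟨n - 1, by omega⟩
  have hm : M ≤ m := by omega
  have hm0 : 0 < m := by omega
  have h1 : f (m + 1) = ∑ k ∈ Finset.Icc 1 (m + 1), f k - ∑ k ∈ Finset.Icc 1 m, f k := by
    rw [Finset.sum_Icc_succ_top (by omega)]
    ring
  have h2 := hM (m + 1) (by omega) (by omega)
  have h3 := hM m hm hm0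
  have hε : 0 < ε := by
    have : 0 < ε / (m : ℝ) ^ (1/2 + κ) := lt_of_le_of_lt (norm_nonneg _) h3
    by_contra hε
    have hm0' : (0:ℝ) < (m : ℝ) ^ (1/2 + κ) := Real.rpow_pos_of_pos (by exact_mod_cast hm0) _
    exact absurd this (not_lt.mpr (div_nonpos_of_nonpos_of_nonneg (not_lt.mp hε) hm0'.le))
  have h4 : ‖f (m + 1)‖ ≤ ε / ((m + 1 : ℕ) : ℝ) ^ (1/2 + κ) + ε / (m : ℝ) ^ (1/2 + κ) := by
    rw [h1]
    exact (norm_sub_le _ _).trans (add_le_add h2.le h3.le)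
  have hpos1 : (0:ℝ) < ((m + 1 : ℕ) : ℝ) ^ (1/2 + κ) :=
    Real.rpow_pos_of_pos (by positivity) _
  have hpos2 : (0:ℝ) < (m : ℝ) ^ (1/2 + κ) := Real.rpow_pos_of_pos (by exact_mod_cast hm0) _
  have h5 : ((m + 1 : ℕ) : ℝ) ^ (1/2 + κ) ≤ 2 ^ (1/2 + κ) * (m : ℝ) ^ (1/2 + κ) := by
    rw [← Real.mul_rpow (by norm_num) (by positivity)]
    refine Real.rpow_le_rpow (by positivity) ?_ (by linarith)
    have : (1:ℝ) ≤ m := by exact_mod_cast hm0
    push_cast
    linarith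
  calc ‖f (m + 1)‖ * ((m + 1 : ℕ) : ℝ) ^ (1/2 + κ)
      ≤ (ε / ((m + 1 : ℕ) : ℝ) ^ (1/2 + κ) + ε / (m : ℝ) ^ (1/2 + κ)) *
        ((m + 1 : ℕ) : ℝ) ^ (1/2 + κ) := mul_le_mul_of_nonneg_right h4 hpos1.le
    _ = ε + ε * (((m + 1 : ℕ) : ℝ) ^ (1/2 + κ) / (m : ℝ) ^ (1/2 + κ)) := by
        field_simp
    _ ≤ ε + ε * 2 ^ (1/2 + κ) := by
        have : ((m + 1 : ℕ) : ℝ) ^ (1/2 + κ) / (m : ℝ) ^ (1/2 + κ) ≤ 2 ^ (1/2 + κ) := by
          rw [div_le_iff₀ hpos2]
          exact h5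
        have := mul_le_mul_of_nonneg_left this hε.le
        linarith
    _ = ε * (1 + 2 ^ (1/2 + κ)) := by ring

/-- the general theorem -/
theorem omega_of_class (f : ℕ → ℂ) (h1 : f 1 = 1)
    (hmul : ∀ m n : ℕ, 0 < m → 0 < n → f (m * n) = f m * f n)
    (κ : ℝ) (hκ : 0 ≤ κ) (g : ℕ → ℂ)
    (hg : ∀ p : ℕ, p.Prime → ‖g p‖ ≤ 1 / p ∨ ((g p).im = 0 ∧ 0 ≤ (g p).re))
    (hfg : Summable (fun p : Nat.Primes =>
      min (Real.sqrt (p : ℕ) * ‖f p - g p‖) (((p : ℕ) : ℝ) ^ (-κ)))) :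
    ∃ c : ℝ, 0 < c ∧ ∀ M : ℕ, ∃ N : ℕ, M ≤ N ∧ 0 < N ∧
      c / (N : ℝ) ^ (1/2 + κ) ≤ ‖∑ n ∈ Finset.Icc 1 N, f n‖ := by
  by_contra hcon
  push Not at hcon
  set fA : ArithmeticFunction ℂ := ⟨fun n => if n = 0 then 0 else f n, by simp⟩ with hfA
  have hfA_apply : ∀ n, n ≠ 0 → fA n = f n := fun n hn => by simp [hfA, hn]
  have hCM : CM fA := by
    constructor
    · rw [hfA_apply 1 one_ne_zero, h1]
    · intro m n
      rcases Nat.eq_zero_or_pos m with rfl | hm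
      · simp
      rcases Nat.eq_zero_or_pos n with rfl | hn
      · simp
      rw [hfA_apply _ (Nat.mul_pos hm hn).ne', hfA_apply _ hm.ne', hfA_apply _ hn.ne',
        hmul m n hm hn]
  have hsumA : ∀ N : ℕ, ∑ k ∈ Finset.Icc 1 N, fA k = ∑ k ∈ Finset.Icc 1 N, f k := by
    intro N
    refine Finset.sum_congr rfl fun k hk => hfA_apply k ?_
    have := (Finset.mem_Icc.mp hk).1
    omega
  -- the values at primes are small
  have hjump : ∀ ε : ℝ, 0 < ε → ∀ᶠ n : ℕ in atTop, ‖f n‖ * (n : ℝ) ^ (1/2 + κ) ≤ ε := by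
    intro ε hε
    have hC : (0:ℝ) < 1 + 2 ^ (1/2 + κ) := by positivity
    obtain ⟨M, hM⟩ := hcon (ε / (1 + 2 ^ (1/2 + κ))) (by positivity)
    filter_upwards [eventually_ge_atTop (M + 2)] with n hn
    have := jump_le hκ hM hn
    rwa [div_mul_cancel₀ _ hC.ne'] at this
  have hlim : Tendsto (fun N : ℕ => ‖∑ k ∈ Finset.Icc 1 N, f k‖ * Real.sqrt N) atTop (𝓝 0) := by
    rw [Metric.tendsto_atTop]
    intro ε hε
    obtain ⟨M, hM⟩ := hcon ε hε
    refine ⟨M + 1, fun N hN => ?_⟩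
    have hN0 : 0 < N := by omega
    have h2 := hM N (by omega) hN0
    rw [Real.dist_eq, sub_zero, abs_of_nonneg (by positivity)]
    have hN1 : (1:ℝ) ≤ N := by exact_mod_cast hN0
    have h3 : Real.sqrt N ≤ (N : ℝ) ^ (1/2 + κ) := by
      rw [Real.sqrt_eq_rpow]
      exact Real.rpow_le_rpow_of_exponent_le hN1 (by linarith)
    have h4 : (0:ℝ) < (N : ℝ) ^ (1/2 + κ) := by positivity
    calc ‖∑ k ∈ Finset.Icc 1 N, f k‖ * Real.sqrt N
        ≤ ‖∑ k ∈ Finset.Icc 1 N, f k‖ * (N : ℝ) ^ (1/2 + κ) :=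
          mul_le_mul_of_nonneg_left h3 (norm_nonneg _)
      _ < ε := by rwa [lt_div_iff₀ h4] at h2
  classical
  set h : ℕ → ℂ := fun p => if Real.sqrt p * ‖g p‖ ≤ 1/2 ∧
    Real.sqrt p * ‖f p - g p‖ ≤ (p : ℝ) ^ (-κ) then g p else 0 with hh
  have hPair : Pair fA (cmOf h) :=
    { cmf := hCM
      cmG := cmOf_CM h
      small := by
        intro p hp
        rw [cmOf_prime h hp]
        simp only [hh]
        split_ifs with hc
        · rw [mul_comm]; exact hc.1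
        · simp
      pos := by
        intro p hp
        rw [cmOf_prime h hp]
        simp only [hh]
        split_ifs with hc
        · rcases hg p hp with h2 | h2
          · exact Or.inl h2
          · right
            rw [Complex.nonneg_iff]
            exact ⟨h2.2, h2.1.symm⟩
        · right; exact le_rfl
      sum := by
        refine Summable.of_norm_bounded_eventually hfg ?_
        have e1 : ∀ᶠ p : Nat.Primes in cofinite, ‖f p‖ * ((p : ℕ) : ℝ) ^ (1/2 + κ) ≤ 1/4 :=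
          tendsto_primes_atTop.eventually (hjump (1/4) (by norm_num))
        have e2 : ∀ᶠ p : Nat.Primes in cofinite,
            min (Real.sqrt (p : ℕ) * ‖f p - g p‖) (((p : ℕ) : ℝ) ^ (-κ)) ≤ 1/4 :=
          hfg.tendsto_cofinite_zero.eventually_le_const (by norm_num)
        filter_upwards [e1, e2] with p hp1 hp2
        have hp : (p : ℕ).Prime := p.2
        have hp0 : (0:ℝ) < (p : ℕ) := by exact_mod_cast hp.pos
        have hp1' : (1:ℝ) ≤ (p : ℕ) := by exact_mod_cast hp.one_le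
        rw [hfA_apply _ hp.ne_zero, cmOf_prime h hp, Real.norm_of_nonneg (by positivity)]
        have hfp : Real.sqrt (p : ℕ) * ‖f p‖ ≤ 1/4 * ((p : ℕ) : ℝ) ^ (-κ) := by
          rw [Real.sqrt_eq_rpow]
          have h5 : ((p : ℕ) : ℝ) ^ (1/2 + κ) * ((p : ℕ) : ℝ) ^ (-κ) =
              ((p : ℕ) : ℝ) ^ (1/2 : ℝ) := by
            rw [← Real.rpow_add hp0]
            congr 1
            ring
          rw [← h5]
          have := mul_le_mul_of_nonneg_right hp1 (Real.rpow_nonneg hp0.le (-κ))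
          linarith
        have hκ1 : ((p : ℕ) : ℝ) ^ (-κ) ≤ 1 := Real.rpow_le_one_of_one_le_of_nonpos hp1' (by linarith)
        have hκ0 : 0 ≤ ((p : ℕ) : ℝ) ^ (-κ) := by positivity
        simp only [hh]
        split_ifs with hc
        · rw [min_eq_left hc.2]
        · rw [sub_zero]
          by_cases hc2 : Real.sqrt (p : ℕ) * ‖f p - g p‖ ≤ ((p : ℕ) : ℝ) ^ (-κ)
          · exfalso
            apply hc
            refine ⟨?_, hc2⟩
            rw [min_eq_left hc2] at hp2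
            have h6 : ‖g p‖ ≤ ‖f p‖ + ‖f p - g p‖ := by
              have : g p = f p - (f p - g p) := by ring
              calc ‖g p‖ = ‖f p - (f p - g p)‖ := by rw [← this]
                _ ≤ ‖f p‖ + ‖f p - g p‖ := norm_sub_le _ _
            have h7 := mul_le_mul_of_nonneg_left h6 (Real.sqrt_nonneg ((p : ℕ) : ℝ))
            rw [mul_add] at h7
            linarith
          · rw [min_eq_right (not_le.mp hc2).le]
            linarith
      lim := by
        refine hlim.congr fun N => ?_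
        rw [hsumA] }
  exact hPair.false

end Pool.Agent.Helper29
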