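import Pool.Agent.Helper29.Star

set_option autoImplicit false
set_option linter.unusedSectionVars false
open Filter Topology ArithmeticFunction Complex
open scoped ComplexOrder

namespace Pool.Agent.Helper29

variable {N : ℕ} [NeZero N]
variable {τ : DirichletCharacter ℂ N → ℕ} {m : ℕ} {K M : ℝ} {p₀ : ℕ}
  {G : ArithmeticFunction ℂ} {Q Q' : ℂ → ℂ}

/-- analytic part without the correction -/
noncomputable def Φ₀ (τ : DirichletCharacter ℂ N → ℕ) (Q Q' : ℂ → ℂ) (s : ℂ) : ℂ :=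
  (∏ χ, LE χ s ^ τ χ) * Q s * Q' s

/-- the continuation -/
noncomputable def ΦS (τ : DirichletCharacter ℂ N → ℕ) (M : ℝ) (p₀ : ℕ) (Q Q' : ℂ → ℂ) (s : ℂ) : ℂ :=
  Φ₀ τ Q Q' s * LSeries (eS τ M p₀) s

lemma Star.diff_e (h : Star τ m K M p₀ G Q Q') :
    DifferentiableOn ℂ (LSeries (eS τ M p₀)) {s | -(1/2) < s.re} := by
  intro s hs
  have hs' : -(1/2) < s.re := hs
  refine DifferentiableAt.differentiableWithinAt ?_
  obtain ⟨w, hw1, hw2⟩ := exists_between hs'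
  have habs : LSeries.abscissaOfAbsConv (eS τ M p₀) < s.re := by
    have := (h.corr.summable w hw1).abscissaOfAbsConv_le
    refine this.trans_lt ?_
    rw [Complex.ofReal_re]
    exact_mod_cast hw2
  exact (LSeries_hasDerivAt habs).differentiableAt

lemma Star.diff_Φ (h : Star τ m K M p₀ G Q Q') :
    DifferentiableOn ℂ (ΦS τ M p₀ Q Q') {s | -(1/2) < s.re} := by
  have h1 : Differentiable ℂ (fun s => ∏ χ : DirichletCharacter ℂ N, LE χ s ^ τ χ) :=
    Differentiable.fun_finsetProd fun χ _ => (differentiable_LE χ).pow _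
  exact ((h1.differentiableOn.mul h.diff).mul h.diff').mul h.diff_e

lemma Star.G_norm_le (h : Star τ m K M p₀ G Q Q') (n : ℕ) : ‖G n‖ ≤ 1 := by
  refine norm_le_of_prime h.cmG (fun p hp => ?_) n
  have h1 := h.small p hp
  have h2 : 1 ≤ Real.sqrt p := by
    rw [Real.one_le_sqrt]
    exact_mod_cast hp.one_le
  have h3 := norm_nonneg (G p)
  nlinarith

lemma Star.summable_G (h : Star τ m K M p₀ G Q Q') {s : ℂ} (hs : 1 < s.re) :
    LSeriesSummable G s :=
  LSeriesSummable_of_bounded_of_one_lt_re (fun n _ => h.G_norm_le n) hs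

lemma Star.summable_G' (h : Star τ m K M p₀ G Q Q') {s : ℂ} (hs : 1 < s.re) :
    LSeriesSummable (conjA G) s :=
  LSeriesSummable_of_bounded_of_one_lt_re (m := 1) (fun n _ => by
    rw [conjA_apply, Complex.norm_conj]
    exact h.G_norm_le n) hs

lemma Star.summable_e (h : Star τ m K M p₀ G Q Q') {s : ℂ} (hs : -(1/2) < s.re) :
    LSeriesSummable (eS τ M p₀) s := by
  have := h.corr.summable s.re hs
  exact this.of_re_le_re (by simp)

lemma Star.hasSum_b (h : Star τ m K M p₀ G Q Q') {s : ℂ} (hs : 1 < s.re) :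
    LSeriesHasSum (bS τ M p₀ G) s (ΦS τ M p₀ Q Q' s) := by
  have h1 : LSeriesHasSum (prodX τ) s (∏ χ : DirichletCharacter ℂ N, LSeries (uX χ) s ^ τ χ) :=
    hasSum_prod _ fun χ _ => hasSum_pow (LSeriesSummable_uX χ hs).LSeriesHasSum _
  have h2 := LSeriesHasSum_mul (LSeriesHasSum_mul (LSeriesHasSum_mul h1
    (h.summable_G hs).LSeriesHasSum) (h.summable_G' hs).LSeriesHasSum)
    (h.summable_e (s := s) (by linarith)).LSeriesHasSum
  rw [h.eq s hs, h.eq' s hs] at h2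
  have h3 : ∏ χ : DirichletCharacter ℂ N, LE χ s ^ τ χ =
      s ^ (2 * m) * ∏ χ : DirichletCharacter ℂ N, LSeries (uX χ) s ^ τ χ := by
    rw [← Finset.mul_prod_erase Finset.univ (fun χ => LE χ s ^ τ χ)
      (Finset.mem_univ (1 : DirichletCharacter ℂ N)),
      ← Finset.mul_prod_erase Finset.univ (fun χ => LSeries (uX χ) s ^ τ χ)
      (Finset.mem_univ (1 : DirichletCharacter ℂ N)), LE_one hs, mul_pow, h.one, mul_assoc]
    congr 2
    refine Finset.prod_congr rfl fun χ hχ => ?_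
    rw [LE_of_ne (Finset.ne_of_mem_erase hχ) hs]
  have h4 : ΦS τ M p₀ Q Q' s = (∏ χ : DirichletCharacter ℂ N, LSeries (uX χ) s ^ τ χ) *
      (s ^ m * Q s) * (s ^ m * Q' s) * LSeries (eS τ M p₀) s := by
    unfold ΦS Φ₀
    rw [h3]
    ring
  rw [h4]
  exact h2

lemma Star.term_nonneg {b : ArithmeticFunction ℂ} (hb : ∀ n, 0 ≤ b n) (w : ℝ) (n : ℕ) :
    0 ≤ LSeries.term b w n := by
  rcases Nat.eq_zero_or_pos n with rfl | hn
  · simp
  · rw [LSeries.term_of_ne_zero hn.ne']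
    have h1 : (0:ℂ) ≤ ((n : ℂ) ^ (w : ℂ))⁻¹ := by
      have : ((n : ℂ) ^ (w : ℂ))⁻¹ = ((((n:ℝ) ^ w)⁻¹ : ℝ) : ℂ) := by
        rw [Complex.ofReal_inv, Complex.ofReal_cpow (by positivity)]
        push_cast
        rfl
      rw [this]
      exact_mod_cast (by positivity : (0:ℝ) ≤ ((n:ℝ) ^ w)⁻¹)
    rw [div_eq_mul_inv]
    exact mul_nonneg (hb n) h1

/-- the smooth part is dominated by the continuation -/
lemma Star.smooth_le (h : Star τ m K M p₀ G Q Q') {w : ℝ} (hw : -(1/2) < w) (hw2 : w ≤ 2) (y : ℕ)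
    {P : ℂ} (hP : LSeriesHasSum ((sInd y).pmul (bS τ M p₀ G)) w P) :
    ‖P‖ ≤ ‖ΦS τ M p₀ Q Q' w‖ := by
  have hb0 : ∀ n, 0 ≤ bS τ M p₀ G n := h.bS_nonneg
  have hN : ∀ n : ℕ, (∑ k ∈ Finset.Icc 1 n, LSeries.term (bS τ M p₀ G) w k) ≤
      ΦS τ M p₀ Q Q' w := fun n =>
    landau_partial (b := bS τ M p₀ G) (fun n => hb0 n) (fun s hs => (h.hasSum_b hs).LSeriesSummable)
      h.diff_Φ (fun s hs => ((h.hasSum_b hs).LSeries_eq).symm) n hw hw2
  have hterm0 : ∀ n, 0 ≤ LSeries.term (bS τ M p₀ G) w n := fun n => Star.term_nonneg hb0 w n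
  have hsterm0 : ∀ n, 0 ≤ LSeries.term ((sInd y).pmul (bS τ M p₀ G)) w n := fun n =>
    Star.term_nonneg (fun n => by
      rw [pmul_apply]
      by_cases hn : n ∈ Nat.smoothNumbers y
      · rw [sInd_mem hn, one_mul]; exact hb0 n
      · rw [sInd_notMem hn, zero_mul]) w n
  have hsm : ∀ n : ℕ, LSeries.term ((sInd y).pmul (bS τ M p₀ G)) w n ≤
      LSeries.term (bS τ M p₀ G) w n := by
    intro n
    by_cases hn : n ∈ Nat.smoothNumbers y
    · have : LSeries.term ((sInd y).pmul (bS τ M p₀ G)) w n = LSeries.term (bS τ M p₀ G) w n := by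
        rw [LSeries.term_of_ne_zero hn.1, LSeries.term_of_ne_zero hn.1, pmul_apply, sInd_mem hn,
          one_mul]
      rw [this]
    · have : LSeries.term ((sInd y).pmul (bS τ M p₀ G)) w n = 0 := by
        rcases Nat.eq_zero_or_pos n with rfl | hpos
        · simp
        · rw [LSeries.term_of_ne_zero hpos.ne', pmul_apply, sInd_notMem hn]
          simp
      rw [this]
      exact hterm0 n
  have hP0 : 0 ≤ P := by
    have : HasSum (LSeries.term ((sInd y).pmul (bS τ M p₀ G)) w) P := hP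
    exact this.nonneg hsterm0
  have hPn : ‖P‖ = P.re := by
    have h1 := Complex.nonneg_iff.mp hP0
    have h2 : P = (P.re : ℂ) := Complex.ext rfl (by simpa using h1.2.symm)
    rw [h2, Complex.norm_real, Real.norm_of_nonneg h1.1, Complex.ofReal_re]
  rw [hPn]
  have ht : Tendsto (fun n : ℕ => (∑ k ∈ Finset.range (n + 1),
      LSeries.term ((sInd y).pmul (bS τ M p₀ G)) w k).re) atTop (𝓝 P.re) :=
    (Complex.continuous_re.tendsto P).comp
      ((tendsto_add_atTop_iff_nat 1).mpr (HasSum.tendsto_sum_nat hP))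
  refine le_of_tendsto' ht fun n => ?_
  have h1 : ∑ k ∈ Finset.range (n + 1), LSeries.term ((sInd y).pmul (bS τ M p₀ G)) w k =
      ∑ k ∈ Finset.Icc 1 n, LSeries.term ((sInd y).pmul (bS τ M p₀ G)) w k := by
    rw [Finset.range_eq_Ico, Finset.sum_eq_sum_Ico_succ_bot (by omega)]
    simp only [LSeries.term_zero, zero_add]
    rfl
  rw [h1]
  have h2 : ∑ k ∈ Finset.Icc 1 n, LSeries.term ((sInd y).pmul (bS τ M p₀ G)) w k ≤
      ΦS τ M p₀ Q Q' w := (Finset.sum_le_sum fun k _ => hsm k).trans (hN n)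
  exact (Complex.le_def.mp h2).1.trans (Complex.re_le_norm _)

/-- local factor -/
noncomputable def locF (τ : DirichletCharacter ℂ N → ℕ) (G : ArithmeticFunction ℂ) (w : ℝ)
    (p : ℕ) : ℝ :=
  (∏ χ, (‖1 - uX χ p * (p : ℂ) ^ (-(w : ℂ))‖⁻¹) ^ τ χ) * (‖1 - G p * (p : ℂ) ^ (-(w : ℂ))‖⁻¹) ^ 2

lemma cpow_neg_real (p : ℕ) (w : ℝ) : (p : ℂ) ^ (-(w : ℂ)) = (((p:ℝ) ^ (-w) : ℝ) : ℂ) := by
  rw [← Complex.ofReal_neg, prime_cpow_ofReal]

lemma norm_mul_cpow (c : ℂ) (p : ℕ) (w : ℝ) :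
    ‖c * (p : ℂ) ^ (-(w : ℂ))‖ = ‖c‖ * (p:ℝ) ^ (-w) := by
  rw [cpow_neg_real, norm_mul, Complex.norm_real, Real.norm_of_nonneg (by positivity)]

lemma Star.sqrt_bound {w : ℝ} (hw : -(1/2) < w) (p : ℕ) (hp : p.Prime) :
    (p : ℝ) ^ (-w) ≤ Real.sqrt p := by
  rw [Real.sqrt_eq_rpow]
  exact Real.rpow_le_rpow_of_exponent_le (by exact_mod_cast hp.one_le) (by linarith)

lemma Star.G_lt (h : Star τ m K M p₀ G Q Q') {w : ℝ} (hw : -(1/2) < w) (p : ℕ) (hp : p.Prime) :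
    ‖G p‖ * (p : ℝ) ^ (-w) ≤ 1/2 :=
  (mul_le_mul_of_nonneg_left (Star.sqrt_bound hw p hp) (norm_nonneg _)).trans (h.small p hp)

lemma Star.smooth_prod (h : Star τ m K M p₀ G Q Q') {w : ℝ} (hw : -(1/2) < w) (y : ℕ) :
    ∃ P : ℂ, LSeriesHasSum ((sInd y).pmul (bS τ M p₀ G)) w P ∧
      ‖P‖ = (∏ p ∈ y.primesBelow, locF τ G w p) *
        ‖LSeries ((sInd y).pmul (eS τ M p₀)) w‖ := by
  have hG1 : ∀ p : ℕ, p.Prime → ‖G p‖ * (p : ℝ) ^ (-w) < 1 := fun p hp =>
    lt_of_le_of_lt (h.G_lt hw p hp) (by norm_num)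
  have hu1 : ∀ χ : DirichletCharacter ℂ N, ∀ p : ℕ, p.Prime → ‖uX χ p‖ * (p : ℝ) ^ (-w) < 1 := by
    intro χ p hp
    exact lt_of_le_of_lt (mul_le_mul_of_nonneg_right (uX_norm_le χ p) (by positivity))
      (uA_prime_lt hw p hp)
  have hGb : ∀ p : ℕ, p.Prime → ‖conjA G p‖ * (p : ℝ) ^ (-w) < 1 := by
    intro p hp
    rw [conjA_apply, Complex.norm_conj]
    exact hG1 p hp
  have s1 : LSeriesHasSum ((∏ χ : DirichletCharacter ℂ N, ((sInd y).pmul (uX χ)) ^ τ χ :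
      ArithmeticFunction ℂ) : ℕ → ℂ) w (∏ χ : DirichletCharacter ℂ N,
        (∏ p ∈ y.primesBelow, (1 - uX χ p * (p : ℂ) ^ (-(w : ℂ)))⁻¹) ^ τ χ) :=
    hasSum_prod _ fun χ _ => hasSum_pow (hasSum_smooth (uX_CM χ) (hu1 χ) y) _
  have s2 := hasSum_smooth h.cmG hG1 y
  have s3 := hasSum_smooth (conjA_CM h.cmG) hGb y
  have s4 : LSeriesSummable ((sInd y).pmul (eS τ M p₀)) w := by
    refine Summable.of_norm_bounded (h.corr.summable w hw).norm fun n => ?_
    rw [LSeries.norm_term_eq, LSeries.norm_term_eq]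
    split_ifs with hn
    · exact le_rfl
    · refine div_le_div_of_nonneg_right ?_ (by positivity)
      rw [pmul_apply]
      by_cases hn : n ∈ Nat.smoothNumbers y
      · rw [sInd_mem hn, one_mul]
      · rw [sInd_notMem hn, zero_mul, norm_zero]
        exact norm_nonneg _
  have hall := LSeriesHasSum_mul (LSeriesHasSum_mul (LSeriesHasSum_mul s1 s2) s3) s4.LSeriesHasSum
  have hpp : (∏ χ : DirichletCharacter ℂ N, ((sInd y).pmul (uX χ)) ^ τ χ : ArithmeticFunction ℂ) =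
      (sInd y).pmul (prodX τ) := by
    rw [prodX, (sInd_CM y).pmul_prod]
    exact Finset.prod_congr rfl fun χ _ => ((sInd_CM y).pmul_pow _ _).symm
  rw [hpp, ← (sInd_CM y).pmul_mul, ← (sInd_CM y).pmul_mul, ← (sInd_CM y).pmul_mul] at hall
  refine ⟨_, hall, ?_⟩
  rw [norm_mul, norm_mul, norm_mul]
  congr 1
  rw [Complex.norm_prod, norm_prod, norm_prod]
  simp_rw [norm_pow, norm_prod]
  simp_rw [← Finset.prod_pow]
  rw [Finset.prod_comm, ← Finset.prod_mul_distrib, ← Finset.prod_mul_distrib]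
  refine Finset.prod_congr rfl fun p _ => ?_
  rw [locF, mul_assoc]
  have hconj : ‖(1 - conjA G p * (p : ℂ) ^ (-(w : ℂ)))⁻¹‖ = ‖1 - G p * (p : ℂ) ^ (-(w : ℂ))‖⁻¹ := by
    rw [norm_inv, conjA_apply, cpow_neg_real, ← Complex.norm_conj]
    simp
  rw [hconj, norm_inv]
  simp_rw [norm_inv]
  ring

end Pool.Agent.Helper29
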