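import Pool.Agent.Helper29.CoreStar

set_option autoImplicit false
set_option linter.unusedSectionVars false
open Filter Topology ArithmeticFunction Complex
open scoped ComplexOrder

namespace Pool.Agent.Helper29

variable {N : ℕ} [NeZero N]
variable {τ : DirichletCharacter ℂ N → ℕ} {m : ℕ} {K M : ℝ} {p₀ : ℕ}
  {G : ArithmeticFunction ℂ} {Q Q' : ℂ → ℂ}

/-- coefficient at `p^{-σ}` in the lower bound -/
noncomputable def cC (τ : DirichletCharacter ℂ N → ℕ) (m : ℕ) (p : ℕ) : ℝ :=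
  aC2 τ p + 2 * m * aC τ p - m ^ 2 * ((1 : DirichletCharacter ℂ N) p).re

lemma abs_aC_le (τ : DirichletCharacter ℂ N → ℕ) (n : ℕ) :
    |aC τ n| ≤ ((∑ χ, τ χ : ℕ) : ℝ) / 2 := by
  have := abs_sum_le τ n 1
  simp only [pow_one] at this
  rw [aC, abs_div, abs_of_pos (by norm_num : (0:ℝ) < 2)]
  linarith

lemma abs_aC2_le (τ : DirichletCharacter ℂ N → ℕ) (n : ℕ) :
    |aC2 τ n| ≤ ((∑ χ, τ χ : ℕ) : ℝ) / 2 := by
  have := abs_sum_le τ n 2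
  rw [aC2, abs_div, abs_of_pos (by norm_num : (0:ℝ) < 2)]
  linarith

lemma one_re_le (n : ℕ) : |((1 : DirichletCharacter ℂ N) n).re| ≤ 1 :=
  (Complex.abs_re_le_norm _).trans ((1 : DirichletCharacter ℂ N).norm_le_one _)

lemma cC_le (τ : DirichletCharacter ℂ N → ℕ) (m : ℕ) (p : ℕ) :
    |cC τ m p| ≤ ((∑ χ, τ χ : ℕ) : ℝ) * (1/2 + m) + m ^ 2 := by
  have h1 := abs_le.mp (abs_aC_le τ p)
  have h2 := abs_le.mp (abs_aC2_le τ p)
  have h3 := abs_le.mp (one_re_le (N := N) p)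
  have hm : (0:ℝ) ≤ m := by positivity
  unfold cC
  rw [abs_le]
  constructor <;> nlinarith

lemma x_le {w : ℝ} (hw : -(1/2) < w) {p : ℕ} (hp : p.Prime) :
    (p:ℝ)⁻¹ * (p:ℝ) ^ (-w) ≤ (Real.sqrt p)⁻¹ := by
  have hp0 : (0:ℝ) < p := by exact_mod_cast hp.pos
  have h3 : 0 < Real.sqrt p := Real.sqrt_pos.mpr hp0
  calc (p:ℝ)⁻¹ * (p:ℝ) ^ (-w) ≤ (p:ℝ)⁻¹ * Real.sqrt p :=
        mul_le_mul_of_nonneg_left (Star.sqrt_bound hw p hp) (by positivity)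
    _ = (Real.sqrt p)⁻¹ := by
        rw [inv_mul_eq_iff_eq_mul₀ hp0.ne', eq_comm, mul_inv_eq_iff_eq_mul₀ h3.ne',
          Real.mul_self_sqrt hp0.le]

lemma x_le' {w : ℝ} (hw : -(1/2) < w) {p : ℕ} (hp : p.Prime) :
    (p:ℝ)⁻¹ * (p:ℝ) ^ (-w) ≤ 3/4 := by
  refine (x_le hw hp).trans ?_
  have h2 : (4/3 : ℝ) ≤ Real.sqrt p := by
    apply Real.le_sqrt_of_sq_le
    have : (2:ℝ) ≤ p := by exact_mod_cast hp.two_le
    linarith
  calc (Real.sqrt p)⁻¹ ≤ (4/3 : ℝ)⁻¹ := inv_anti₀ (by norm_num) h2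
    _ = 3/4 := by norm_num

lemma x_cube {w : ℝ} (hw : -(1/2) < w) {p : ℕ} (hp : p.Prime) :
    ((p:ℝ)⁻¹ * (p:ℝ) ^ (-w)) ^ 3 ≤ (p:ℝ) ^ (-(3/2) : ℝ) := by
  have hp0 : (0:ℝ) < p := by exact_mod_cast hp.pos
  refine (pow_le_pow_left₀ (by positivity) (x_le hw hp) 3).trans (le_of_eq ?_)
  rw [Real.sqrt_eq_rpow, ← Real.rpow_neg hp0.le, ← Real.rpow_natCast, ← Real.rpow_mul hp0.le]
  congr 1
  norm_num

lemma x_sq {w : ℝ} {p : ℕ} (hp : p.Prime) :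
    ((p:ℝ)⁻¹ * (p:ℝ) ^ (-w)) ^ 2 = (p:ℝ) ^ (-(2 + 2 * w)) := by
  have hp0 : (0:ℝ) < p := by exact_mod_cast hp.pos
  rw [← Real.rpow_neg_one, ← Real.rpow_add hp0, ← Real.rpow_natCast, ← Real.rpow_mul hp0.le]
  congr 1
  push_cast
  ring

lemma norm_one_sub_pos {z : ℂ} (hz : ‖z‖ < 1) : 0 < ‖1 - z‖ := by
  rw [norm_pos_iff, sub_ne_zero]
  intro h3
  rw [← h3] at hz
  simp at hz

lemma locF_eq_exp {w : ℝ} {p : ℕ}
    (hu : ∀ χ : DirichletCharacter ℂ N, ‖uX χ p * (p : ℂ) ^ (-(w : ℂ))‖ < 1)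
    (hG : ‖G p * (p : ℂ) ^ (-(w : ℂ))‖ < 1) :
    locF τ G w p = Real.exp (∑ χ, (τ χ : ℝ) * Real.log ‖1 - uX χ p * (p : ℂ) ^ (-(w : ℂ))‖⁻¹ +
      2 * Real.log ‖1 - G p * (p : ℂ) ^ (-(w : ℂ))‖⁻¹) := by
  rw [Real.exp_add, Real.exp_sum, locF]
  congr 1
  · refine Finset.prod_congr rfl fun χ _ => ?_
    rw [Real.exp_nat_mul, Real.exp_log (inv_pos.mpr (norm_one_sub_pos (hu χ)))]
  · rw [show (2:ℝ) = ((2:ℕ):ℝ) by norm_num, Real.exp_nat_mul,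
      Real.exp_log (inv_pos.mpr (norm_one_sub_pos hG))]

lemma one_apply_prime {p : ℕ} (hp : p.Prime) (hN : N < p) :
    ((1 : DirichletCharacter ℂ N) p).re = 1 := by
  have : IsUnit (p : ZMod N) := by
    rw [ZMod.isUnit_iff_coprime]
    exact (Nat.Prime.coprime_iff_not_dvd hp).mpr fun hd =>
      absurd (Nat.le_of_dvd (Nat.pos_of_ne_zero (NeZero.ne N)) hd) (by omega)
  rw [MulChar.one_apply this]
  simp

lemma Star.loc_big (h : Star τ m K M p₀ G Q Q') {w : ℝ} (hw : -(1/2) < w) {p : ℕ} (hp : p.Prime)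
    (hpp : p₀ ≤ p) :
    Real.exp (cC τ m p * (p:ℝ) ^ (-(2 + 2 * w)) -
      (2 * ((∑ χ, τ χ : ℕ) : ℝ) + 4 * K ^ 3) * (p:ℝ) ^ (-(3/2) : ℝ)) ≤ locF τ G w p := by
  have hp0 : (0:ℝ) < p := by exact_mod_cast hp.pos
  set x : ℝ := (p:ℝ)⁻¹ * (p:ℝ) ^ (-w) with hx
  have hx0 : 0 ≤ x := by positivity
  have hx34 : x ≤ 3/4 := x_le' hw hp
  have hx3 : x ^ 3 ≤ (p:ℝ) ^ (-(3/2) : ℝ) := x_cube hw hp
  have hx2 : x ^ 2 = (p:ℝ) ^ (-(2 + 2 * w)) := x_sq hp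
  set T : ℝ := ((∑ χ, τ χ : ℕ) : ℝ) with hT
  have hT1 : 1 ≤ T := by
    rw [hT]
    exact_mod_cast h.T1
  have hK := h.K0
  have hKM := h.KM
  have hTM : T ≤ M := h.TM
  have hM1 : 1 ≤ M := hT1.trans hTM
  -- x is small compared with M
  have hxM : x * (4 * M) ≤ 1 := by
    have h1 : 4 * M ≤ Real.sqrt p := by
      apply Real.le_sqrt_of_sq_le
      have : (p₀:ℝ) ≤ p := by exact_mod_cast hpp
      exact h.Mp.trans this
    have h3 : 0 < Real.sqrt p := Real.sqrt_pos.mpr hp0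
    calc x * (4 * M) ≤ (Real.sqrt p)⁻¹ * (4 * M) :=
          mul_le_mul_of_nonneg_right (x_le hw hp) (by positivity)
      _ ≤ (Real.sqrt p)⁻¹ * Real.sqrt p := mul_le_mul_of_nonneg_left h1 (by positivity)
      _ = 1 := inv_mul_cancel₀ h3.ne'
  have ha := abs_aC_le τ p
  rw [← hT] at ha
  have hpne : (p:ℂ) ≠ 0 := by exact_mod_cast hp.ne_zero
  have hzχ : ∀ χ : DirichletCharacter ℂ N, uX χ p * (p : ℂ) ^ (-(w : ℂ)) = χ p * (x : ℂ) := by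
    intro χ
    rw [uX_apply, cpow_neg_real, hx]
    push_cast
    ring
  have hzχn : ∀ χ : DirichletCharacter ℂ N, ‖uX χ p * (p : ℂ) ^ (-(w : ℂ))‖ ≤ x := by
    intro χ
    rw [hzχ, norm_mul, Complex.norm_real, Real.norm_of_nonneg hx0]
    exact mul_le_of_le_one_left hx0 (χ.norm_le_one _)
  set Z : ℂ := (p:ℂ) * G p with hZ
  have hzG : G p * (p : ℂ) ^ (-(w : ℂ)) = Z * (x : ℂ) := by
    rw [cpow_neg_real, hx, hZ]
    push_cast
    field_simp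
  have hGn : ‖G p * (p : ℂ) ^ (-(w : ℂ))‖ ≤ 1/2 := by
    rw [norm_mul_cpow]
    exact h.G_lt hw p hp
  rw [locF_eq_exp (fun χ => lt_of_le_of_lt ((hzχn χ).trans hx34) (by norm_num))
    (lt_of_le_of_lt hGn (by norm_num))]
  refine Real.exp_le_exp.mpr ?_
  -- the character part
  have hchar : 2 * aC τ p * x + aC2 τ p * x ^ 2 - 2 * T * x ^ 3 ≤
      ∑ χ, (τ χ : ℝ) * Real.log ‖1 - uX χ p * (p : ℂ) ^ (-(w : ℂ))‖⁻¹ := by
    have h1 : 2 * aC τ p * x + aC2 τ p * x ^ 2 - 2 * T * x ^ 3 =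
        ∑ χ, (τ χ : ℝ) * ((χ p).re * x + ((χ p) ^ 2).re * x ^ 2 / 2 - 2 * x ^ 3) := by
      rw [aC, aC2, hT]
      push_cast
      rw [Finset.sum_div, Finset.sum_div, Finset.mul_sum, Finset.sum_mul, Finset.sum_mul,
        Finset.mul_sum, Finset.sum_mul, ← Finset.sum_add_distrib, ← Finset.sum_sub_distrib]
      refine Finset.sum_congr rfl fun χ _ => ?_
      ring
    rw [h1]
    refine Finset.sum_le_sum fun χ _ => mul_le_mul_of_nonneg_left ?_ (by positivity)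
    have h2 := log3 ((hzχn χ).trans hx34)
    have h3 : (uX χ p * (p : ℂ) ^ (-(w : ℂ))).re = (χ p).re * x := by
      rw [hzχ, Complex.re_mul_ofReal]
    have h4 : ((uX χ p * (p : ℂ) ^ (-(w : ℂ))) ^ 2).re = ((χ p) ^ 2).re * x ^ 2 := by
      rw [hzχ, mul_pow, ← Complex.ofReal_pow, Complex.re_mul_ofReal]
    have h5 : ‖uX χ p * (p : ℂ) ^ (-(w : ℂ))‖ ^ 3 ≤ x ^ 3 :=
      pow_le_pow_left₀ (norm_nonneg _) (hzχn χ) 3
    rw [h3, h4] at h2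
    linarith
  have hone : ((1 : DirichletCharacter ℂ N) p).re = 1 :=
    one_apply_prime hp (lt_of_lt_of_le h.Np hpp)
  have hcC : cC τ m p = aC2 τ p + 2 * m * aC τ p - m ^ 2 := by
    rw [cC, hone]
    ring
  rw [hcC, ← hx2]
  have hx30 : 0 ≤ x ^ 3 := by positivity
  rcases h.reg p hp hpp with h2 | h2
  · obtain ⟨h3, h4, h5⟩ := h2
    have hGn' : ‖G p * (p : ℂ) ^ (-(w : ℂ))‖ ≤ K * x := by
      rw [hzG, norm_mul, Complex.norm_real, Real.norm_of_nonneg hx0]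
      exact mul_le_mul_of_nonneg_right h3 hx0
    have h6 := log3 (hGn.trans (by norm_num))
    have h7 : (G p * (p : ℂ) ^ (-(w : ℂ))).re = Z.re * x := by
      rw [hzG, Complex.re_mul_ofReal]
    have h8 : ((G p * (p : ℂ) ^ (-(w : ℂ))) ^ 2).re = (Z.re ^ 2 - Z.im ^ 2) * x ^ 2 := by
      rw [hzG, mul_pow, ← Complex.ofReal_pow, Complex.re_mul_ofReal, sq Z, Complex.mul_re]
      ring
    have h9 : ‖G p * (p : ℂ) ^ (-(w : ℂ))‖ ^ 3 ≤ K ^ 3 * x ^ 3 := by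
      rw [← mul_pow]
      exact pow_le_pow_left₀ (norm_nonneg _) hGn' 3
    rw [h7, h8] at h6
    have h10 := real_ineq (a := aC τ p) (a₂ := aC2 τ p) (K := K) (Zr := Z.re) (Zi := Z.im) (x := x)
      (m := m) hx0 h4 h5 (by nlinarith)
    have h11 : (2 * T + 4 * K ^ 3) * x ^ 3 ≤ (2 * T + 4 * K ^ 3) * (p:ℝ) ^ (-(3/2) : ℝ) :=
      mul_le_mul_of_nonneg_left hx3 (by positivity)
    linarith
  · obtain ⟨h3, h4⟩ := h2
    have h5 : 0 ≤ Real.log ‖1 - G p * (p : ℂ) ^ (-(w : ℂ))‖⁻¹ := by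
      apply Real.log_nonneg
      rw [one_le_inv₀ (norm_one_sub_pos (lt_of_le_of_lt hGn (by norm_num)))]
      obtain ⟨r, hr0, hr⟩ : ∃ r : ℝ, 0 ≤ r ∧ G p * (p : ℂ) ^ (-(w : ℂ)) = r := by
        have hnn : 0 ≤ G p * (p : ℂ) ^ (-(w : ℂ)) := by
          rw [cpow_neg_real]
          exact mul_nonneg h4 (by exact_mod_cast (by positivity : (0:ℝ) ≤ (p:ℝ) ^ (-w)))
        refine ⟨(G p * (p : ℂ) ^ (-(w : ℂ))).re, (Complex.nonneg_iff.mp hnn).1, ?_⟩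
        exact Complex.ext rfl (by simpa using (Complex.nonneg_iff.mp hnn).2.symm)
      rw [hr] at hGn ⊢
      rw [Complex.norm_real, Real.norm_of_nonneg hr0] at hGn
      rw [← Complex.ofReal_one, ← Complex.ofReal_sub, Complex.norm_real,
        Real.norm_of_nonneg (by linarith)]
      linarith
    have h6 : aC τ p * x ≤ 2 := by
      have := (abs_le.mp ha).2
      nlinarith
    have h7 : 0 ≤ (aC τ p * x) * (2 - aC τ p * x) := mul_nonneg (mul_nonneg h3 hx0) (by linarith)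
    have h8 : 0 ≤ (aC τ p - m) ^ 2 * x ^ 2 := by positivity
    have h11 : (2 * T + 4 * K ^ 3) * x ^ 3 ≤ (2 * T + 4 * K ^ 3) * (p:ℝ) ^ (-(3/2) : ℝ) :=
      mul_le_mul_of_nonneg_left hx3 (by positivity)
    have h12 : 0 ≤ 4 * K ^ 3 * x ^ 3 := by positivity
    linarith

/-- the constant in the local bounds -/
noncomputable def DD (τ : DirichletCharacter ℂ N → ℕ) (m : ℕ) (K : ℝ) (p₀ : ℕ) : ℝ :=
  (2 * ((∑ χ, τ χ : ℕ) : ℝ) + 4 * K ^ 3) +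
    (((∑ χ, τ χ : ℕ) : ℝ) * (1/2 + m) + m ^ 2 + ((∑ χ, τ χ : ℕ) : ℝ)) * (p₀:ℝ) ^ (3/2 : ℝ)

lemma Star.loc_all (h : Star τ m K M p₀ G Q Q') {w : ℝ} (hw : -(1/2) < w) {p : ℕ} (hp : p.Prime) :
    Real.exp (cC τ m p * (p:ℝ) ^ (-(2 + 2 * w)) - DD τ m K p₀ * (p:ℝ) ^ (-(3/2) : ℝ)) ≤
      locF τ G w p := by
  have hp0 : (0:ℝ) < p := by exact_mod_cast hp.pos
  have hK := h.K0
  set T : ℝ := ((∑ χ, τ χ : ℕ) : ℝ) with hT
  have hT0 : 0 ≤ T := by positivity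
  have hq : 0 ≤ (p:ℝ) ^ (-(3/2) : ℝ) := by positivity
  by_cases hpp : p₀ ≤ p
  · refine le_trans (Real.exp_le_exp.mpr ?_) (h.loc_big hw hp hpp)
    rw [DD, ← hT]
    have : 0 ≤ (T * (1/2 + m) + m ^ 2 + T) * (p₀:ℝ) ^ (3/2 : ℝ) * (p:ℝ) ^ (-(3/2) : ℝ) := by
      positivity
    linarith
  · have hplt : p < p₀ := not_le.mp hpp
    have hplt' : (p:ℝ) ≤ p₀ := by exact_mod_cast hplt.le
    set x : ℝ := (p:ℝ)⁻¹ * (p:ℝ) ^ (-w) with hx
    have hx0 : 0 ≤ x := by positivity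
    have hx34 : x ≤ 3/4 := x_le' hw hp
    have hzχn : ∀ χ : DirichletCharacter ℂ N, ‖uX χ p * (p : ℂ) ^ (-(w : ℂ))‖ ≤ x := by
      intro χ
      rw [norm_mul_cpow, hx]
      exact mul_le_mul_of_nonneg_right (uX_norm_le' χ p) (by positivity)
    have hG0 : G p = 0 := h.zero p hp hplt
    rw [locF_eq_exp (fun χ => lt_of_le_of_lt ((hzχn χ).trans hx34) (by norm_num))
      (by rw [hG0]; simp)]
    refine Real.exp_le_exp.mpr ?_
    rw [hG0, zero_mul, sub_zero, norm_one, inv_one, Real.log_one, mul_zero, add_zero]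
    have h1 : -T ≤ ∑ χ, (τ χ : ℝ) * Real.log ‖1 - uX χ p * (p : ℂ) ^ (-(w : ℂ))‖⁻¹ := by
      rw [hT]
      push_cast
      rw [← Finset.sum_neg_distrib]
      refine Finset.sum_le_sum fun χ _ => ?_
      have h2 : ‖1 - uX χ p * (p : ℂ) ^ (-(w : ℂ))‖ ≤ 2 := by
        calc ‖1 - uX χ p * (p : ℂ) ^ (-(w : ℂ))‖ ≤ ‖(1:ℂ)‖ + ‖uX χ p * (p : ℂ) ^ (-(w : ℂ))‖ :=
              norm_sub_le _ _
          _ ≤ 2 := by rw [norm_one]; linarith [hzχn χ]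
      have h3 : 0 < ‖1 - uX χ p * (p : ℂ) ^ (-(w : ℂ))‖ :=
        norm_one_sub_pos (lt_of_le_of_lt ((hzχn χ).trans hx34) (by norm_num))
      have h4 : -1 ≤ Real.log ‖1 - uX χ p * (p : ℂ) ^ (-(w : ℂ))‖⁻¹ := by
        rw [Real.log_inv]
        have := Real.log_le_sub_one_of_pos h3
        linarith
      have h5 : (0:ℝ) ≤ τ χ := by positivity
      nlinarith
    refine le_trans ?_ h1
    have hx2 : x ^ 2 = (p:ℝ) ^ (-(2 + 2 * w)) := x_sq hp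
    have hx21 : x ^ 2 ≤ 1 := by nlinarith
    have h2 : cC τ m p * (p:ℝ) ^ (-(2 + 2 * w)) ≤ T * (1/2 + m) + m ^ 2 := by
      rw [← hx2]
      have h3 := cC_le τ m p
      rw [← hT] at h3
      calc cC τ m p * x ^ 2 ≤ |cC τ m p| * x ^ 2 :=
            mul_le_mul_of_nonneg_right (le_abs_self _) (by positivity)
        _ ≤ |cC τ m p| * 1 := mul_le_mul_of_nonneg_left hx21 (abs_nonneg _)
        _ ≤ _ := by rw [mul_one]; exact h3
    have h4 : 1 ≤ (p₀:ℝ) ^ (3/2 : ℝ) * (p:ℝ) ^ (-(3/2) : ℝ) := by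
      have h5 : (p:ℝ) ^ (3/2 : ℝ) ≤ (p₀:ℝ) ^ (3/2 : ℝ) :=
        Real.rpow_le_rpow hp0.le hplt' (by norm_num)
      calc (1:ℝ) = (p:ℝ) ^ (3/2 : ℝ) * (p:ℝ) ^ (-(3/2) : ℝ) := by
            rw [← Real.rpow_add hp0]
            norm_num
        _ ≤ _ := mul_le_mul_of_nonneg_right h5 hq
    have h6 : T * (1/2 + m) + m ^ 2 + T ≤
        (T * (1/2 + m) + m ^ 2 + T) * ((p₀:ℝ) ^ (3/2 : ℝ) * (p:ℝ) ^ (-(3/2) : ℝ)) :=
      le_mul_of_one_le_right (by positivity) h4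
    have h7 : 0 ≤ (2 * T + 4 * K ^ 3) * (p:ℝ) ^ (-(3/2) : ℝ) := by positivity
    rw [DD, ← hT]
    linarith

end Pool.Agent.Helper29
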