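import Pool.Agent.Helper29.CoreStar2

set_option autoImplicit false
set_option linter.unusedSectionVars false
open Filter Topology ArithmeticFunction Complex
open scoped ComplexOrder

namespace Pool.Agent.Helper29

variable {N : ℕ} [NeZero N]
variable {τ : DirichletCharacter ℂ N → ℕ} {m : ℕ} {K M : ℝ} {p₀ : ℕ}
  {G : ArithmeticFunction ℂ} {Q Q' : ℂ → ℂ}

lemma tendsto_primesBelow {F : ℕ → ℝ} (hF : Summable (fun p : Nat.Primes => F p)) :
    Tendsto (fun y : ℕ => ∑ p ∈ y.primesBelow, F p) atTop (𝓝 (∑' p : Nat.Primes, F p)) := by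
  have h1 : HasSum (fun p : Nat.Primes => F p) (∑' p : Nat.Primes, F p) := hF.hasSum
  have h2 : HasSum ({p : ℕ | p.Prime}.indicator F) (∑' p : Nat.Primes, F p) :=
    hasSum_subtype_iff_indicator.mp h1
  refine h2.tendsto_sum_nat.congr fun y => ?_
  rw [Nat.primesBelow, Finset.sum_filter]
  refine Finset.sum_congr rfl fun p _ => ?_
  simp [Set.indicator_apply]

lemma Star.tendsto_E (h : Star τ m K M p₀ G Q Q') {w : ℝ} (hw : -(1/2) < w) :
    Tendsto (fun y : ℕ => LSeries ((sInd y).pmul (eS τ M p₀)) w) atTop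
      (𝓝 (LSeries (eS τ M p₀) w)) := by
  unfold LSeries
  refine tendsto_tsum_of_dominated_convergence (h.corr.summable w hw).norm ?_ ?_
  · intro n
    refine tendsto_const_nhds.congr' ?_
    filter_upwards [eventually_gt_atTop n] with y hy
    rcases Nat.eq_zero_or_pos n with rfl | hn
    · simp
    · rw [LSeries.term_of_ne_zero hn.ne', LSeries.term_of_ne_zero hn.ne', pmul_apply,
        sInd_mem (Nat.mem_smoothNumbers_of_lt hn hy), one_mul]
  · refine Eventually.of_forall fun y n => ?_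
    rw [LSeries.norm_term_eq, LSeries.norm_term_eq]
    split_ifs with hn
    · exact le_rfl
    · refine div_le_div_of_nonneg_right ?_ (by positivity)
      rw [pmul_apply]
      by_cases hn : n ∈ Nat.smoothNumbers y
      · rw [sInd_mem hn, one_mul]
      · rw [sInd_notMem hn, zero_mul, norm_zero]
        exact norm_nonneg _

lemma Star.E_pos (h : Star τ m K M p₀ G Q Q') {w : ℝ} (hw : -(1/2) < w) :
    0 < ‖LSeries (eS τ M p₀) w‖ := by
  have h1 : ∀ n, 0 ≤ LSeries.term (eS τ M p₀) w n := fun n => Star.term_nonneg h.corr.nonneg w n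
  have h2 : LSeries.term (eS τ M p₀) w 1 ≤ LSeries (eS τ M p₀) w := by
    have hs : HasSum (LSeries.term (eS τ M p₀) w) (LSeries (eS τ M p₀) w) :=
      (h.corr.summable w hw).LSeriesHasSum
    exact le_hasSum hs 1 fun n _ => h1 n
  rw [LSeries.term_of_ne_zero one_ne_zero, h.corr.one] at h2
  have h3 : (1:ℂ) ≤ LSeries (eS τ M p₀) w := by simpa using h2
  have h4 := (Complex.le_def.mp h3).1
  rw [Complex.one_re] at h4
  have := h4.trans (Complex.re_le_norm _)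
  linarith

/-- sum over primes in the lower bound -/
noncomputable def SS (τ : DirichletCharacter ℂ N → ℕ) (m : ℕ) (σ : ℝ) : ℝ :=
  ∑' p : Nat.Primes, cC τ m p * ((p : ℕ) : ℝ) ^ (-σ)

/-- a convergent sum over primes -/
noncomputable def BB : ℝ := ∑' p : Nat.Primes, ((p : ℕ) : ℝ) ^ (-(3/2) : ℝ)

lemma summable_SS (τ : DirichletCharacter ℂ N → ℕ) (m : ℕ) {σ : ℝ} (hσ : 1 < σ) :
    Summable (fun p : Nat.Primes => cC τ m p * ((p : ℕ) : ℝ) ^ (-σ)) := by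
  refine Summable.of_norm_bounded ((Nat.Primes.summable_rpow.mpr
    (show -σ < -1 by linarith)).mul_left (((∑ χ, τ χ : ℕ) : ℝ) * (1/2 + m) + m ^ 2)) fun p => ?_
  rw [norm_mul, Real.norm_of_nonneg (Real.rpow_nonneg (by positivity) _)]
  exact mul_le_mul_of_nonneg_right (cC_le τ m p) (Real.rpow_nonneg (by positivity) _)

lemma Star.lower (h : Star τ m K M p₀ G Q Q') {w : ℝ} (hw : -(1/2) < w) (hw2 : w ≤ 2) :
    Real.exp (SS τ m (2 + 2 * w) - DD τ m K p₀ * BB) ≤ ‖Φ₀ τ Q Q' w‖ := by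
  have hE := h.E_pos hw
  have hB : Summable (fun p : Nat.Primes => ((p : ℕ) : ℝ) ^ (-(3/2) : ℝ)) :=
    Nat.Primes.summable_rpow.mpr (by norm_num)
  have h1 : ∀ y : ℕ, Real.exp ((∑ p ∈ y.primesBelow, cC τ m p * (p : ℝ) ^ (-(2 + 2 * w))) -
      DD τ m K p₀ * ∑ p ∈ y.primesBelow, (p : ℝ) ^ (-(3/2) : ℝ)) *
      ‖LSeries ((sInd y).pmul (eS τ M p₀)) w‖ ≤ ‖Φ₀ τ Q Q' w‖ * ‖LSeries (eS τ M p₀) w‖ := by
    intro y
    obtain ⟨P, hP, hPn⟩ := h.smooth_prod hw y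
    have h2 := h.smooth_le hw hw2 y hP
    rw [hPn, ΦS, norm_mul] at h2
    refine le_trans (mul_le_mul_of_nonneg_right ?_ (norm_nonneg _)) h2
    rw [Finset.mul_sum, ← Finset.sum_sub_distrib, Real.exp_sum]
    refine Finset.prod_le_prod (fun p _ => (Real.exp_pos _).le) fun p hp => ?_
    exact h.loc_all hw (Nat.prime_of_mem_primesBelow hp)
  have h2 : Tendsto (fun y : ℕ => Real.exp ((∑ p ∈ y.primesBelow,
      cC τ m p * (p : ℝ) ^ (-(2 + 2 * w))) -
      DD τ m K p₀ * ∑ p ∈ y.primesBelow, (p : ℝ) ^ (-(3/2) : ℝ)) *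
      ‖LSeries ((sInd y).pmul (eS τ M p₀)) w‖) atTop
      (𝓝 (Real.exp (SS τ m (2 + 2 * w) - DD τ m K p₀ * BB) * ‖LSeries (eS τ M p₀) w‖)) := by
    refine Tendsto.mul ?_ (h.tendsto_E hw).norm
    refine (Real.continuous_exp.tendsto _).comp ?_
    exact (tendsto_primesBelow (F := fun p => cC τ m p * (p : ℝ) ^ (-(2 + 2 * w)))
      (summable_SS τ m (by linarith))).sub
      ((tendsto_primesBelow (F := fun p => (p : ℝ) ^ (-(3/2) : ℝ)) hB).const_mul _)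
  have h3 := le_of_tendsto' h2 h1
  exact le_of_mul_le_mul_right h3 hE

lemma SS_eq (τ : DirichletCharacter ℂ N → ℕ) (m : ℕ) {σ : ℝ} (hσ : 1 < σ) :
    SS τ m σ = (∑ χ : DirichletCharacter ℂ N, ((τ χ : ℝ) / 2 * Pσ (χ ^ 2) σ + m * τ χ * Pσ χ σ)) -
      m ^ 2 * Pσ (1 : DirichletCharacter ℂ N) σ := by
  have h1 : ∀ χ : DirichletCharacter ℂ N, HasSum (fun p : Nat.Primes =>
      (τ χ : ℝ) / 2 * (((χ ^ 2) (p : ℕ)).re * ((p : ℕ) : ℝ) ^ (-σ)) +
        m * τ χ * ((χ (p : ℕ)).re * ((p : ℕ) : ℝ) ^ (-σ)))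
      ((τ χ : ℝ) / 2 * Pσ (χ ^ 2) σ + m * τ χ * Pσ χ σ) := fun χ =>
    ((summable_Pσ (χ ^ 2) hσ).hasSum.mul_left _).add ((summable_Pσ χ hσ).hasSum.mul_left _)
  have h2 := (hasSum_sum (s := Finset.univ) fun χ (_ : χ ∈ Finset.univ) => h1 χ).sub
    ((summable_Pσ (1 : DirichletCharacter ℂ N) hσ).hasSum.mul_left ((m:ℝ) ^ 2))
  rw [SS]
  refine (HasSum.tsum_eq ?_)
  convert! h2 using 1
  ext p
  rw [cC, aC, aC2]
  rw [Finset.sum_div, Finset.sum_div, Finset.mul_sum, ← Finset.sum_add_distrib, sub_mul,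
    Finset.sum_mul]
  congr 1
  · refine Finset.sum_congr rfl fun χ _ => ?_
    rw [MulChar.pow_apply' χ two_ne_zero]
    ring
  · ring

lemma Pσ_one_nonneg (σ : ℝ) : 0 ≤ Pσ (1 : DirichletCharacter ℂ N) σ := by
  refine tsum_nonneg fun p => mul_nonneg ?_ (Real.rpow_nonneg (by positivity) _)
  by_cases h : IsUnit ((p : ℕ) : ZMod N)
  · rw [MulChar.one_apply h]
    simp
  · rw [MulChar.map_nonunit _ h]
    simp

lemma exists_SS_ge (τ : DirichletCharacter ℂ N → ℕ) {m : ℕ} (hm : 1 ≤ m) (h1 : τ 1 = 2 * m) :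
    ∃ C : ℝ, ∀ σ : ℝ, 1 < σ → σ ≤ 2 → -2 * Real.log (σ - 1) - C ≤ SS τ m σ := by
  choose C hC using fun ψ : DirichletCharacter ℂ N => exists_Pσ_ge ψ
  obtain ⟨C₁, hC₁⟩ := exists_Pσ_one_ge N
  refine ⟨(∑ χ ∈ Finset.univ.erase (1 : DirichletCharacter ℂ N),
    ((τ χ : ℝ) / 2 * C (χ ^ 2) + m * τ χ * C χ)) + 2 * C₁, fun σ hσ hσ2 => ?_⟩
  rw [SS_eq τ m hσ, ← Finset.add_sum_erase Finset.univ _
    (Finset.mem_univ (1 : DirichletCharacter ℂ N)), one_pow, h1]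
  have h2 : -(∑ χ ∈ Finset.univ.erase (1 : DirichletCharacter ℂ N),
      ((τ χ : ℝ) / 2 * C (χ ^ 2) + m * τ χ * C χ)) ≤
      ∑ χ ∈ Finset.univ.erase (1 : DirichletCharacter ℂ N),
        ((τ χ : ℝ) / 2 * Pσ (χ ^ 2) σ + m * τ χ * Pσ χ σ) := by
    rw [← Finset.sum_neg_distrib]
    refine Finset.sum_le_sum fun χ _ => ?_
    have h3 := mul_le_mul_of_nonneg_left (hC (χ ^ 2) σ hσ hσ2)
      (by positivity : (0:ℝ) ≤ (τ χ : ℝ) / 2)
    have h4 := mul_le_mul_of_nonneg_left (hC χ σ hσ hσ2) (by positivity : (0:ℝ) ≤ (m:ℝ) * τ χ)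
    linarith
  have h5 := hC₁ σ hσ hσ2
  have h6 := Pσ_one_nonneg (N := N) σ
  have hm1 : (1:ℝ) ≤ m := by exact_mod_cast hm
  have h7 : 2 * Pσ (1 : DirichletCharacter ℂ N) σ ≤
      (m + m ^ 2) * Pσ (1 : DirichletCharacter ℂ N) σ :=
    mul_le_mul_of_nonneg_right (by nlinarith) h6
  push_cast
  nlinarith

theorem Star.false (h : Star τ m K M p₀ G Q Q') : False := by
  obtain ⟨C, hC⟩ := exists_SS_ge τ h.hm h.one
  have hup : Tendsto (fun w : ℝ => (w + 1/2) ^ 2 * ‖Φ₀ τ Q Q' w‖) (𝓝[>] (-(1/2))) (𝓝 0) := by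
    have h1 : Tendsto (fun w : ℝ => ‖∏ χ : DirichletCharacter ℂ N, LE χ (w:ℂ) ^ τ χ‖)
        (𝓝[>] (-(1/2))) (𝓝 (‖∏ χ : DirichletCharacter ℂ N, LE χ ((-(1/2) : ℝ) : ℂ) ^ τ χ‖)) := by
      have h2 : Differentiable ℂ (fun s => ∏ χ : DirichletCharacter ℂ N, LE χ s ^ τ χ) :=
        Differentiable.fun_finsetProd fun χ _ => (differentiable_LE χ).pow _
      have : Continuous fun w : ℝ => ‖∏ χ : DirichletCharacter ℂ N, LE χ (w:ℂ) ^ τ χ‖ :=
        (h2.continuous.comp Complex.continuous_ofReal).norm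
      exact (this.tendsto _).mono_left nhdsWithin_le_nhds
    have h2 := (h1.mul h.lim).mul h.lim'
    rw [mul_zero] at h2
    refine h2.congr fun w => ?_
    rw [Φ₀, norm_mul, norm_mul]
    ring
  have hlow : ∀ᶠ w : ℝ in 𝓝[>] (-(1/2)), Real.exp (-C - DD τ m K p₀ * BB) / 4 ≤
      (w + 1/2) ^ 2 * ‖Φ₀ τ Q Q' w‖ := by
    filter_upwards [Ioo_mem_nhdsGT (show (-(1/2) : ℝ) < 0 by norm_num)] with w hw
    have hw0 : 0 < w + 1/2 := by linarith [hw.1]
    have h1 := h.lower hw.1 (by linarith [hw.2])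
    have h2 := hC (2 + 2 * w) (by linarith [hw.1]) (by linarith [hw.2])
    have h3 : Real.exp (-C - DD τ m K p₀ * BB) * ((w + 1/2) ^ 2)⁻¹ / 4 ≤ ‖Φ₀ τ Q Q' w‖ := by
      refine le_trans ?_ h1
      have h4 : Real.exp (-C - DD τ m K p₀ * BB) * ((w + 1/2) ^ 2)⁻¹ / 4 =
          Real.exp (-2 * Real.log (2 + 2 * w - 1) - C - DD τ m K p₀ * BB) := by
        have h5 : -2 * Real.log (2 + 2 * w - 1) - C - DD τ m K p₀ * BB =
            (-C - DD τ m K p₀ * BB) + -(2 * Real.log (2 + 2 * w - 1)) := by ring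
        have h6 : Real.exp (2 * Real.log (2 + 2 * w - 1)) = (2 * (w + 1/2)) ^ 2 := by
          rw [show (2:ℝ) * Real.log (2 + 2 * w - 1) = ((2:ℕ):ℝ) * Real.log (2 + 2 * w - 1) by
            norm_num, Real.exp_nat_mul, Real.exp_log (by linarith)]
          ring
        rw [h5, Real.exp_add, Real.exp_neg, h6, mul_pow, mul_inv]
        norm_num
        ring
      rw [h4]
      exact Real.exp_le_exp.mpr (by linarith)
    calc Real.exp (-C - DD τ m K p₀ * BB) / 4 =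
        (w + 1/2) ^ 2 * (Real.exp (-C - DD τ m K p₀ * BB) * ((w + 1/2) ^ 2)⁻¹ / 4) := by
          have h8 : (w + 1/2) ^ 2 * ((w + 1/2) ^ 2)⁻¹ = 1 := mul_inv_cancel₀ (by positivity)
          linear_combination (-Real.exp (-C - DD τ m K p₀ * BB) / 4) * h8
      _ ≤ _ := mul_le_mul_of_nonneg_left h3 (by positivity)
  have hfin := ge_of_tendsto hup hlow
  have := Real.exp_pos (-C - DD τ m K p₀ * BB)
  linarith

end Pool.Agent.Helper29
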