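import Pool.Agent.Helper29.LogDer

set_option autoImplicit false
open Filter Topology ArithmeticFunction Complex
open scoped ComplexOrder ArithmeticFunction.zeta ArithmeticFunction.Moebius

namespace Pool.Agent.Helper29

lemma inv_mul_prime_pow {f ψ : ArithmeticFunction ℂ} (hf : CM f) {p : ℕ}
    (hp : p.Prime) (k : ℕ) :
    ((f.pmul (μ : ArithmeticFunction ℂ)) * ψ) (p ^ (k + 1)) = ψ (p ^ (k + 1)) - f p * ψ (p ^ k) := by
  rw [mul_apply, Nat.sum_divisorsAntidiagonal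
    (f := fun a b => (f.pmul (μ : ArithmeticFunction ℂ)) a * ψ b), Nat.sum_divisors_prime_pow hp,
    Finset.sum_range_succ', Finset.sum_eq_single_of_mem 0 (by simp)]
  · simp only [pow_zero, zero_add, pow_one, pmul_apply, intCoe_apply, moebius_apply_one,
      moebius_apply_prime hp, hf.1, Nat.div_one]
    rw [pow_succ p k, Nat.mul_div_cancel _ hp.pos]
    push_cast
    ring
  · intro b _ hb
    have : (μ (p ^ (b + 1)) : ℤ) = 0 := by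
      rw [moebius_apply_prime_pow hp (by omega), if_neg (by omega)]
    simp [pmul_apply, this]

/-- completely multiplicative function with value `c / p` at primes `p ≥ p₀`, `0` at smaller
primes -/
noncomputable def gQ (p₀ : ℕ) (c : ℝ) : ArithmeticFunction ℂ :=
  cmOf (fun p => if p₀ ≤ p then ((c / p : ℝ) : ℂ) else 0)

lemma gQ_CM (p₀ : ℕ) (c : ℝ) : CM (gQ p₀ c) := cmOf_CM _

lemma gQ_prime {p₀ p : ℕ} (hp : p.Prime) (h : p₀ ≤ p) (c : ℝ) :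
    gQ p₀ c p = ((c / p : ℝ) : ℂ) := by
  simp [gQ, cmOf_prime _ hp, h]

lemma gQ_prime' {p₀ p : ℕ} (hp : p.Prime) (h : ¬ p₀ ≤ p) (c : ℝ) :
    gQ p₀ c p = 0 := by
  simp [gQ, cmOf_prime _ hp, h]

/-- the correction for large primes -/
noncomputable def eQ (p₀ : ℕ) (M : ℝ) : ArithmeticFunction ℂ :=
  ((gQ p₀ M).pmul (μ : ArithmeticFunction ℂ)) *
    (((gQ p₀ M).pmul (μ : ArithmeticFunction ℂ)) * gQ p₀ (2 * M))

/-- its logarithmic derivative -/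
noncomputable def lQ (p₀ : ℕ) (M : ℝ) : ArithmeticFunction ℂ :=
  -((gQ p₀ M).pmul vonC) + (-((gQ p₀ M).pmul vonC) + (gQ p₀ (2 * M)).pmul vonC)

lemma eQ_logDer (p₀ : ℕ) (M : ℝ) : LogDer (eQ p₀ M) (lQ p₀ M) := by
  have h1 : LogDer ((gQ p₀ M).pmul (μ : ArithmeticFunction ℂ)) (-((gQ p₀ M).pmul vonC)) :=
    (gQ_CM p₀ M).logDer.inv (gQ_CM p₀ M).inv
  exact h1.mul (h1.mul (gQ_CM p₀ (2 * M)).logDer)

lemma eQ_isMult (p₀ : ℕ) (M : ℝ) : (eQ p₀ M).IsMultiplicative := by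
  have h1 : ((gQ p₀ M).pmul (μ : ArithmeticFunction ℂ)).IsMultiplicative :=
    (gQ_CM p₀ M).isMult.pmul (isMultiplicative_moebius.intCast)
  exact h1.mul (h1.mul (gQ_CM p₀ (2 * M)).isMult)

lemma lQ_prime_pow {p₀ p : ℕ} (hp : p.Prime) (h : p₀ ≤ p) (M : ℝ) (k : ℕ) :
    lQ p₀ M (p ^ k) = ((vonMangoldt (p ^ k) * ((2 ^ k - 2) * (M / p) ^ k) : ℝ) : ℂ) := by
  simp only [lQ, ArithmeticFunction.add_apply, ArithmeticFunction.neg_apply, pmul_apply,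
    (gQ_CM p₀ M).pow, (gQ_CM p₀ (2 * M)).pow, gQ_prime hp h, vonC_apply]
  push_cast
  rw [show (2 * (M:ℂ) / (p:ℂ)) = 2 * (M / p) by ring, mul_pow]
  ring

lemma lQ_prime_pow' {p₀ p : ℕ} (hp : p.Prime) (h : ¬ p₀ ≤ p) (M : ℝ) {k : ℕ} (hk : k ≠ 0) :
    lQ p₀ M (p ^ k) = 0 := by
  simp [lQ, pmul_apply,
    (gQ_CM p₀ M).pow, (gQ_CM p₀ (2 * M)).pow, gQ_prime' hp h, hk]

lemma lQ_of_not_primePow (p₀ : ℕ) (M : ℝ) {n : ℕ} (hn : ¬ IsPrimePow n) : lQ p₀ M n = 0 := by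
  have h0 : vonC n = 0 := by
    rw [vonC_apply, vonMangoldt_apply, if_neg hn]
    simp
  simp [lQ, pmul_apply, h0]

lemma lQ_nonneg (p₀ : ℕ) {M : ℝ} (hM : 0 ≤ M) (n : ℕ) : 0 ≤ lQ p₀ M n := by
  by_cases hn : IsPrimePow n
  · obtain ⟨p, k, hp, hk, rfl⟩ := (isPrimePow_nat_iff n).mp hn
    by_cases h : p₀ ≤ p
    · rw [lQ_prime_pow hp h]
      have h2 : (2:ℝ) ≤ 2 ^ k := by
        calc (2:ℝ) = 2 ^ 1 := by norm_num
          _ ≤ 2 ^ k := pow_le_pow_right₀ (by norm_num) hk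
      have h3 : 0 ≤ vonMangoldt (p ^ k) * ((2 ^ k - 2) * (M / p) ^ k) := by
        refine mul_nonneg vonMangoldt_nonneg (mul_nonneg (by linarith) (by positivity))
      exact_mod_cast h3
    · rw [lQ_prime_pow' hp h M hk.ne']
  · rw [lQ_of_not_primePow p₀ M hn]

lemma eQ_nonneg (p₀ : ℕ) {M : ℝ} (hM : 0 ≤ M) : ∀ n, 0 ≤ eQ p₀ M n := by
  refine nonneg_of_log (eQ_isMult p₀ M).1 (lQ_nonneg p₀ hM) ?_ (eQ_logDer p₀ M)
  simp [lQ, pmul_apply, vonC_apply]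

lemma eQ_prime {p₀ p : ℕ} (hp : p.Prime) (M : ℝ) : eQ p₀ M p = 0 := by
  have h1 := inv_mul_prime_pow (ψ := ((gQ p₀ M).pmul (μ : ArithmeticFunction ℂ)) * gQ p₀ (2 * M))
    (gQ_CM p₀ M) hp 0
  have h2 := inv_mul_prime_pow (ψ := gQ p₀ (2 * M)) (gQ_CM p₀ M) hp 0
  have h3 : (((gQ p₀ M).pmul (μ : ArithmeticFunction ℂ)) * gQ p₀ (2 * M)) 1 = 1 := by
    rw [mul_apply_one]
    simp [pmul_apply, (gQ_CM p₀ M).1, (gQ_CM p₀ (2 * M)).1]
  simp only [zero_add, pow_one, pow_zero] at h1 h2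
  rw [eQ, h1, h2, h3, (gQ_CM p₀ (2 * M)).1]
  by_cases h : p₀ ≤ p
  · rw [gQ_prime hp h, gQ_prime hp h]
    push_cast
    ring
  · rw [gQ_prime' hp h, gQ_prime' hp h]
    ring

lemma eQ_prime_pow {p₀ p : ℕ} (hp : p.Prime) (M : ℝ) (k : ℕ) :
    eQ p₀ M (p ^ (k + 2)) = gQ p₀ (2 * M) p ^ k * gQ p₀ M p ^ 2 := by
  have h1 := inv_mul_prime_pow (ψ := ((gQ p₀ M).pmul (μ : ArithmeticFunction ℂ)) * gQ p₀ (2 * M))
    (gQ_CM p₀ M) hp (k + 1)
  have h2 := inv_mul_prime_pow (ψ := gQ p₀ (2 * M)) (gQ_CM p₀ M) hp (k + 1)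
  have h3 := inv_mul_prime_pow (ψ := gQ p₀ (2 * M)) (gQ_CM p₀ M) hp k
  simp only [(gQ_CM p₀ (2 * M)).pow] at h1 h2 h3
  rw [show k + 1 + 1 = k + 2 by ring] at h1 h2
  rw [eQ, h1, h2, h3]
  by_cases h : p₀ ≤ p
  · rw [gQ_prime hp h, gQ_prime hp h]
    push_cast
    ring
  · rw [gQ_prime' hp h, gQ_prime' hp h]
    ring

lemma eQ_summable {p₀ : ℕ} {M : ℝ} (hM : 0 ≤ M) (hp₀ : (4 * M) ^ 2 ≤ p₀) {w : ℝ}
    (hw : -(1/2) < w) : LSeriesSummable (eQ p₀ M) w := by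
  have hx : ∀ p : ℕ, p.Prime → p₀ ≤ p → 2 * M / p * (p:ℝ) ^ (-w) ≤ 1/2 := by
    intro p hp h
    have hp1 : (1:ℝ) ≤ p := by exact_mod_cast hp.one_le
    have hp0 : (0:ℝ) < p := by linarith
    have h1 : (p:ℝ) ^ (-w) ≤ Real.sqrt p := by
      rw [Real.sqrt_eq_rpow]
      exact Real.rpow_le_rpow_of_exponent_le hp1 (by linarith)
    have h2 : 4 * M ≤ Real.sqrt p := by
      apply Real.le_sqrt_of_sq_le
      have : (p₀:ℝ) ≤ p := by exact_mod_cast h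
      linarith
    have h3 : 0 < Real.sqrt p := Real.sqrt_pos.mpr hp0
    calc 2 * M / p * (p:ℝ) ^ (-w) ≤ 2 * M / p * Real.sqrt p :=
          mul_le_mul_of_nonneg_left h1 (by positivity)
      _ = 2 * M / Real.sqrt p := by
          rw [div_mul_eq_mul_div, div_eq_div_iff hp0.ne' h3.ne']
          rw [mul_assoc, Real.mul_self_sqrt hp0.le]
      _ ≤ 1/2 := by
          rw [div_le_iff₀ h3]
          linarith
  have hval : ∀ p : ℕ, p.Prime → p₀ ≤ p → ∀ k : ℕ,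
      ‖eQ p₀ M (p ^ (k + 2))‖ * ((p ^ (k + 2) : ℕ) : ℝ) ^ (-w) =
        (M / p * (p:ℝ) ^ (-w)) ^ 2 * (2 * M / p * (p:ℝ) ^ (-w)) ^ k := by
    intro p hp h k
    rw [eQ_prime_pow hp, gQ_prime hp h, gQ_prime hp h, norm_mul, norm_pow, norm_pow,
      Complex.norm_real, Complex.norm_real, Real.norm_of_nonneg (by positivity),
      Real.norm_of_nonneg (by positivity)]
    have : ((p ^ (k + 2) : ℕ) : ℝ) ^ (-w) = ((p:ℝ) ^ (-w)) ^ (k + 2) := by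
      push_cast
      rw [← Real.rpow_natCast, ← Real.rpow_natCast, ← Real.rpow_mul (by positivity),
        ← Real.rpow_mul (by positivity), mul_comm]
    rw [this]
    ring
  have hval' : ∀ p : ℕ, p.Prime → ¬ p₀ ≤ p → ∀ k : ℕ,
      ‖eQ p₀ M (p ^ (k + 2))‖ * ((p ^ (k + 2) : ℕ) : ℝ) ^ (-w) = 0 := by
    intro p hp h k
    rw [eQ_prime_pow hp, gQ_prime' hp h, gQ_prime' hp h]
    simp
  have hsum2 : ∀ p : ℕ, p.Prime → ∃ S : ℝ, S ≤ 2 * (M / p * (p:ℝ) ^ (-w)) ^ 2 ∧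
      HasSum (fun k : ℕ => ‖eQ p₀ M (p ^ (k + 2))‖ * ((p ^ (k + 2) : ℕ) : ℝ) ^ (-w)) S := by
    intro p hp
    by_cases h : p₀ ≤ p
    · have hx1 := hx p hp h
      have hx0 : 0 ≤ 2 * M / p * (p:ℝ) ^ (-w) := by positivity
      refine ⟨(M / p * (p:ℝ) ^ (-w)) ^ 2 * (1 - 2 * M / p * (p:ℝ) ^ (-w))⁻¹, ?_, ?_⟩
      · have h5 : (1 - 2 * M / p * (p:ℝ) ^ (-w))⁻¹ ≤ 2 := by
          rw [inv_le_comm₀ (by linarith) (by norm_num)]
          linarith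
        calc (M / p * (p:ℝ) ^ (-w)) ^ 2 * (1 - 2 * M / p * (p:ℝ) ^ (-w))⁻¹ ≤
            (M / p * (p:ℝ) ^ (-w)) ^ 2 * 2 := mul_le_mul_of_nonneg_left h5 (by positivity)
          _ = _ := by ring
      · simp_rw [hval p hp h]
        exact HasSum.mul_left _ (hasSum_geometric_of_lt_one hx0 (by linarith))
    · refine ⟨0, by positivity, ?_⟩
      simp_rw [hval' p hp h]
      exact hasSum_zero
  have hsum0 : ∀ p : ℕ, p.Prime → ∃ S : ℝ, S ≤ 1 + 2 * (M / p * (p:ℝ) ^ (-w)) ^ 2 ∧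
      HasSum (fun k : ℕ => ‖eQ p₀ M (p ^ k)‖ * ((p ^ k : ℕ) : ℝ) ^ (-w)) S := by
    intro p hp
    obtain ⟨S, hS1, hS2⟩ := hsum2 p hp
    have h2 := (hasSum_nat_add_iff (f := fun k : ℕ =>
      ‖eQ p₀ M (p ^ k)‖ * ((p ^ k : ℕ) : ℝ) ^ (-w)) 2).mp hS2
    have h3 : ∑ i ∈ Finset.range 2, ‖eQ p₀ M (p ^ i)‖ * ((p ^ i : ℕ) : ℝ) ^ (-w) = 1 := by
      rw [Finset.sum_range_succ, Finset.sum_range_one, pow_zero, pow_one, eQ_prime hp,
        (eQ_isMult p₀ M).1]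
      simp
    rw [h3] at h2
    exact ⟨S + 1, by linarith, h2⟩
  have hmain : Summable (fun n : ℕ => ‖eQ p₀ M n‖ * (n:ℝ) ^ (-w)) := by
    refine sum_le_of_prod (e := fun p => 2 * (M / p * (p:ℝ) ^ (-w)) ^ 2)
      (fun n => by positivity) (by simp) (by simp [(eQ_isMult p₀ M).1]) ?_
      (fun {p} hp => (hsum0 p hp).choose_spec.2.summable) ?_ (fun p => by positivity) ?_
    · intro m n hmn
      rw [(eQ_isMult p₀ M).2 hmn, norm_mul, Nat.cast_mul, Real.mul_rpow (by positivity)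
        (by positivity)]
      ring
    · intro p hp
      rw [(hsum0 p hp).choose_spec.2.tsum_eq]
      exact (hsum0 p hp).choose_spec.1
    · have h1 : Summable (fun p : Nat.Primes => ((p : ℕ) : ℝ) ^ (-(2 + 2 * w))) :=
        Nat.Primes.summable_rpow.mpr (by linarith)
      refine (h1.mul_left (2 * M ^ 2)).congr fun p => ?_
      have hp0 : (0:ℝ) < (p : ℕ) := by exact_mod_cast p.2.pos
      have h2 : ((p : ℕ) : ℝ) ^ (-(2 + 2 * w)) = (((p : ℕ) : ℝ)⁻¹ * ((p : ℕ) : ℝ) ^ (-w)) ^ 2 := by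
        rw [← Real.rpow_neg_one, ← Real.rpow_add hp0, ← Real.rpow_natCast, ← Real.rpow_mul hp0.le]
        congr 1
        push_cast
        ring
      rw [h2]
      ring
  refine Summable.of_norm_bounded hmain fun n => ?_
  rw [LSeries.norm_term_eq]
  split_ifs with hn
  · positivity
  · rw [Complex.ofReal_re, Real.rpow_neg (by positivity), div_eq_mul_inv]

/-- the correction for small primes -/
noncomputable def vQ (p₀ : ℕ) (T : ℕ) : ArithmeticFunction ℂ := ((sInd p₀).pmul uA) ^ T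

lemma sInd_pmul_CM (p₀ : ℕ) {φ : ArithmeticFunction ℂ} (h : CM φ) : CM ((sInd p₀).pmul φ) := by
  constructor
  · simp [pmul_apply, (sInd_CM p₀).1, h.1]
  · intro m n
    simp only [pmul_apply]
    rw [(sInd_CM p₀).2, h.2]
    ring

lemma mul_nonneg_fun {φ ψ : ArithmeticFunction ℂ} (h₁ : ∀ n, 0 ≤ φ n) (h₂ : ∀ n, 0 ≤ ψ n) (n : ℕ) :
    0 ≤ (φ * ψ) n := by
  rw [mul_apply]
  exact Finset.sum_nonneg fun x _ => mul_nonneg (h₁ _) (h₂ _)

lemma pow_nonneg_fun {φ : ArithmeticFunction ℂ} (h₁ : ∀ n, 0 ≤ φ n) (k : ℕ) (n : ℕ) :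
    0 ≤ (φ ^ k) n := by
  induction k generalizing n with
  | zero =>
    rw [pow_zero, one_apply]
    split_ifs
    · exact zero_le_one
    · exact le_rfl
  | succ k ih =>
    rw [pow_succ]
    exact mul_nonneg_fun ih h₁ n

lemma sInd_uA_nonneg (p₀ : ℕ) (n : ℕ) : 0 ≤ ((sInd p₀).pmul uA) n := by
  rw [pmul_apply, uA_apply]
  by_cases h : n ∈ Nat.smoothNumbers p₀
  · rw [sInd_mem h, one_mul]
    have h1 : (0:ℝ) ≤ (n:ℝ)⁻¹ := by positivity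
    have h2 : ((n:ℂ)⁻¹) = (((n:ℝ)⁻¹ : ℝ):ℂ) := by push_cast; rfl
    rw [h2]
    exact_mod_cast h1
  · rw [sInd_notMem h, zero_mul]

lemma uA_prime_lt {w : ℝ} (hw : -(1/2) < w) (p : ℕ) (hp : p.Prime) :
    ‖uA p‖ * (p : ℝ) ^ (-w) < 1 := by
  have h2 : (1:ℝ) < p := by exact_mod_cast hp.one_lt
  rw [uA_apply, norm_inv]
  simp only [Complex.norm_natCast]
  have : (p:ℝ)⁻¹ * (p : ℝ) ^ (-w) = (p:ℝ) ^ (-1 - w) := by
    rw [← Real.rpow_neg_one, ← Real.rpow_add (by linarith)]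
    ring_nf
  rw [this]
  exact Real.rpow_lt_one_of_one_lt_of_neg h2 (by linarith)

/-- abstract correction functions -/
structure Corr (e L : ArithmeticFunction ℂ) : Prop where
  one : e 1 = 1
  nonneg : ∀ n, 0 ≤ e n
  summable : ∀ w : ℝ, -(1/2) < w → LSeriesSummable e w
  logDer : LogDer e L

lemma corr_exists {p₀ : ℕ} {M : ℝ} (hM : 0 ≤ M) (hp₀ : (4 * M) ^ 2 ≤ p₀) (T : ℕ) :
    Corr (eQ p₀ M * vQ p₀ T) (lQ p₀ M + T • (((sInd p₀).pmul uA).pmul vonC)) where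
  one := by
    rw [mul_apply_one, (eQ_isMult p₀ M).1, vQ, pow_apply_one, one_mul]
    exact (sInd_pmul_CM p₀ uA_CM).1
  nonneg := mul_nonneg_fun (eQ_nonneg p₀ hM) (pow_nonneg_fun (sInd_uA_nonneg p₀) T)
  summable := by
    intro w hw
    refine LSeriesSummable_mul (eQ_summable hM hp₀ hw) ?_
    exact (hasSum_pow (hasSum_smooth uA_CM (uA_prime_lt hw) p₀) T).LSeriesSummable
  logDer := (eQ_logDer p₀ M).mul ((sInd_pmul_CM p₀ uA_CM).logDer.pow T)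

end Pool.Agent.Helper29
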