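import Pool.Agent.Helper29.Arith

set_option autoImplicit false
open Filter Topology ArithmeticFunction
open scoped ComplexOrder ArithmeticFunction.zeta ArithmeticFunction.Moebius

namespace Pool.Agent.Helper29

/-- completely multiplicative function with prescribed values at primes -/
noncomputable def cmOf (h : ℕ → ℂ) : ArithmeticFunction ℂ :=
  ⟨fun n => if n = 0 then 0 else (n.primeFactorsList.map h).prod, by simp⟩

lemma cmOf_CM (h : ℕ → ℂ) : CM (cmOf h) := by
  constructor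
  · simp [cmOf]
  · intro m n
    rcases Nat.eq_zero_or_pos m with rfl | hm
    · simp [cmOf]
    rcases Nat.eq_zero_or_pos n with rfl | hn
    · simp [cmOf]
    have := (Nat.perm_primeFactorsList_mul hm.ne' hn.ne').map h
    simp only [cmOf, coe_mk, mul_eq_zero, hm.ne', hn.ne', or_self, if_false]
    rw [this.prod_eq, List.map_append, List.prod_append]

lemma cmOf_prime (h : ℕ → ℂ) {p : ℕ} (hp : p.Prime) : cmOf h p = h p := by
  simp [cmOf, hp.ne_zero, Nat.primeFactorsList_prime hp]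

/-- quotient of two completely multiplicative functions -/
noncomputable def rfun (f G : ArithmeticFunction ℂ) : ArithmeticFunction ℂ :=
  (f.pmul (μ : ArithmeticFunction ℂ)) * G

lemma CM.pmul_zeta {f : ArithmeticFunction ℂ} : f.pmul (ζ : ArithmeticFunction ℂ) = f := by
  ext n
  simp only [pmul_apply, natCoe_apply, zeta_apply]
  split_ifs with hn
  · simp [hn]
  · simp

lemma CM.inv {f : ArithmeticFunction ℂ} (hf : CM f) :
    (f.pmul (μ : ArithmeticFunction ℂ)) * f = 1 := by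
  have h1 : f.pmul ((μ : ArithmeticFunction ℂ) * (ζ : ArithmeticFunction ℂ)) =
      f.pmul (μ : ArithmeticFunction ℂ) * f.pmul (ζ : ArithmeticFunction ℂ) := hf.pmul_mul _ _
  rw [CM.pmul_zeta, coe_moebius_mul_coe_zeta] at h1
  rw [← h1]
  ext n
  by_cases hn : n = 1
  · simp [hn, hf.1]
  · simp [hn]

lemma rfun_mul {f G : ArithmeticFunction ℂ} (hf : CM f) : rfun f G * f = G := by
  have : rfun f G * f = ((f.pmul (μ : ArithmeticFunction ℂ)) * f) * G := by
    unfold rfun; ring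
  rw [this, hf.inv, one_mul]

lemma rfun_isMult {f G : ArithmeticFunction ℂ} (hf : CM f) (hG : CM G) :
    (rfun f G).IsMultiplicative := by
  refine IsMultiplicative.mul ?_ hG.isMult
  exact hf.isMult.pmul (isMultiplicative_moebius.intCast)

lemma rfun_prime_pow {f G : ArithmeticFunction ℂ} (hf : CM f) (hG : CM G) {p : ℕ}
    (hp : p.Prime) (k : ℕ) : rfun f G (p ^ (k + 1)) = G p ^ k * (G p - f p) := by
  unfold rfun
  rw [mul_apply, Nat.sum_divisorsAntidiagonal
    (f := fun a b => (f.pmul (μ : ArithmeticFunction ℂ)) a * G b), Nat.sum_divisors_prime_pow hp,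
    Finset.sum_range_succ', Finset.sum_eq_single_of_mem 0 (by simp)]
  · simp only [pow_zero, zero_add, pow_one, pmul_apply, intCoe_apply, moebius_apply_one,
      moebius_apply_prime hp, hf.1, Nat.div_one, hG.pow]
    rw [pow_succ p k, Nat.mul_div_cancel _ hp.pos, hG.pow, pow_succ]
    push_cast
    ring
  · intro b _ hb
    have : (μ (p ^ (b + 1)) : ℤ) = 0 := by
      rw [moebius_apply_prime_pow hp (by omega), if_neg (by omega)]
    simp [pmul_apply, this]

lemma sum_le_of_prod {F : ℕ → ℝ} (hF0 : ∀ n, 0 ≤ F n) (hF00 : F 0 = 0) (hF1 : F 1 = 1)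
    (hmul : ∀ {m n : ℕ}, Nat.Coprime m n → F (m * n) = F m * F n)
    (hs : ∀ {p : ℕ}, p.Prime → Summable fun k : ℕ => F (p ^ k))
    {e : ℕ → ℝ} (he : ∀ p : ℕ, p.Prime → ∑' k : ℕ, F (p ^ k) ≤ 1 + e p)
    (he0 : ∀ p : ℕ, 0 ≤ e p)
    (hesum : Summable fun p : Nat.Primes => e p) : Summable F := by
  have hesum' : Summable ({p : ℕ | p.Prime}.indicator e) :=
    summable_subtype_iff_indicator.mp hesum
  set B := ∑' n, ({p : ℕ | p.Prime}.indicator e) n
  refine summable_of_sum_le (c := Real.exp B) hF0 fun u => ?_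
  obtain ⟨N, hN⟩ : ∃ N : ℕ, ∀ n ∈ u, n < N := by
    refine ⟨u.sup id + 1, fun n hn => ?_⟩
    exact Nat.lt_succ_of_le (Finset.le_sup (f := id) hn)
  have key := EulerProduct.summable_and_hasSum_smoothNumbers_prod_primesBelow_tsum (f := F)
    hF1 hmul (fun hp => by simpa using (hs hp).norm) N
  have h1 : ∑ n ∈ u, F n ≤ ∑ n ∈ u.filter (· ≠ 0), F n := by
    refine le_of_eq ?_
    rw [Finset.sum_filter]
    refine Finset.sum_congr rfl fun n _ => ?_
    by_cases hn : n = 0
    · simp [hn, hF00]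
    · simp [hn]
  have h2 : ∑ n ∈ u.filter (· ≠ 0), F n ≤ ∏ p ∈ N.primesBelow, ∑' k : ℕ, F (p ^ k) := by
    have hsub : ∀ n ∈ u.filter (· ≠ 0), n ∈ N.smoothNumbers := by
      intro n hn
      obtain ⟨hn1, hn2⟩ := Finset.mem_filter.mp hn
      refine ⟨hn2, fun p hp => ?_⟩
      exact (Nat.le_of_mem_primeFactorsList hp).trans_lt (hN n hn1)
    have h3 : HasSum ((N.smoothNumbers : Set ℕ).indicator F)
        (∏ p ∈ N.primesBelow, ∑' k : ℕ, F (p ^ k)) := hasSum_subtype_iff_indicator.mp key.2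
    have h4 : ∑ n ∈ u.filter (· ≠ 0), F n =
        ∑ n ∈ u.filter (· ≠ 0), (N.smoothNumbers : Set ℕ).indicator F n := by
      refine Finset.sum_congr rfl fun n hn => ?_
      rw [Set.indicator_of_mem (hsub n hn)]
    rw [h4]
    exact sum_le_hasSum _ (fun n _ => Set.indicator_nonneg (fun n _ => hF0 n) n) h3
  have h5 : ∏ p ∈ N.primesBelow, ∑' k : ℕ, F (p ^ k) ≤ ∏ p ∈ N.primesBelow, Real.exp (e p) := by
    refine Finset.prod_le_prod (fun p _ => tsum_nonneg fun k => hF0 _) fun p hp => ?_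
    have hp' := Nat.prime_of_mem_primesBelow hp
    refine (he p hp').trans ?_
    rw [add_comm]
    exact Real.add_one_le_exp _
  have h6 : ∏ p ∈ N.primesBelow, Real.exp (e p) ≤ Real.exp B := by
    rw [← Real.exp_sum, Real.exp_le_exp]
    have : ∑ p ∈ N.primesBelow, e p = ∑ p ∈ N.primesBelow, ({p : ℕ | p.Prime}.indicator e) p := by
      refine Finset.sum_congr rfl fun p hp => ?_
      rw [Set.indicator_of_mem]
      exact Nat.prime_of_mem_primesBelow hp
    rw [this]
    exact hesum'.sum_le_tsum _ (fun n _ => Set.indicator_nonneg (fun n _ => he0 n) n)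
  exact h1.trans (h2.trans (h5.trans h6))

lemma summable_rfun {f G : ArithmeticFunction ℂ} (hf : CM f) (hG : CM G)
    (hsmall : ∀ p : ℕ, p.Prime → ‖G p‖ * Real.sqrt p ≤ 1/2)
    (hsum : Summable (fun p : Nat.Primes => Real.sqrt p * ‖f p - G p‖)) :
    Summable (fun n : ℕ => ‖rfun f G n‖ * Real.sqrt n) := by
  have hmult := rfun_isMult hf hG
  have hpow : ∀ p : ℕ, p.Prime → ∀ k : ℕ,
      ‖rfun f G (p ^ (k+1))‖ * Real.sqrt ((p ^ (k+1) : ℕ) : ℝ) =
        (Real.sqrt p * ‖f p - G p‖) * (‖G p‖ * Real.sqrt p) ^ k := by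
    intro p hp k
    rw [rfun_prime_pow hf hG hp, norm_mul, norm_pow, norm_sub_rev, pow_succ, Nat.cast_mul,
      Real.sqrt_mul (by positivity), Nat.cast_pow, mul_pow]
    have : Real.sqrt ((p:ℝ) ^ k) = Real.sqrt p ^ k := by
      rw [Real.sqrt_eq_rpow, Real.sqrt_eq_rpow, ← Real.rpow_natCast, ← Real.rpow_natCast,
        ← Real.rpow_mul (by positivity), ← Real.rpow_mul (by positivity), mul_comm]
    rw [this]
    ring
  have hgeom : ∀ p : ℕ, p.Prime → HasSum (fun k : ℕ =>
      (Real.sqrt p * ‖f p - G p‖) * (‖G p‖ * Real.sqrt p) ^ k)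
      ((Real.sqrt p * ‖f p - G p‖) * (1 - ‖G p‖ * Real.sqrt p)⁻¹) := by
    intro p hp
    refine HasSum.mul_left _ (hasSum_geometric_of_lt_one (by positivity) ?_)
    have := hsmall p hp
    linarith
  have hsucc : ∀ p : ℕ, p.Prime → HasSum (fun k : ℕ =>
      ‖rfun f G (p ^ k)‖ * Real.sqrt ((p ^ k : ℕ) : ℝ))
      ((Real.sqrt p * ‖f p - G p‖) * (1 - ‖G p‖ * Real.sqrt p)⁻¹ + 1) := by
    intro p hp
    have h1 : HasSum (fun k : ℕ => ‖rfun f G (p ^ (k+1))‖ * Real.sqrt ((p ^ (k+1) : ℕ) : ℝ))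
      ((Real.sqrt p * ‖f p - G p‖) * (1 - ‖G p‖ * Real.sqrt p)⁻¹) := by
      simp_rw [hpow p hp]
      exact hgeom p hp
    have h2 := (hasSum_nat_add_iff (f := fun k : ℕ =>
      ‖rfun f G (p ^ k)‖ * Real.sqrt ((p ^ k : ℕ) : ℝ)) 1).mp h1
    simpa [hmult.1] using h2
  refine sum_le_of_prod (e := fun p => 2 * (Real.sqrt p * ‖f p - G p‖)) (fun n => by positivity)
    (by simp) (by simp [hmult.1]) ?_ (fun {p} hp => (hsucc p hp).summable) ?_
    (fun p => by positivity) (hsum.mul_left 2)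
  · intro m n hmn
    rw [hmult.2 hmn, norm_mul, Nat.cast_mul, Real.sqrt_mul (by positivity)]
    ring
  · intro p hp
    rw [(hsucc p hp).tsum_eq, add_comm, add_le_add_iff_left]
    have h1 := hsmall p hp
    have h2 : (1 - ‖G p‖ * Real.sqrt p)⁻¹ ≤ 2 := by
      rw [inv_le_comm₀ (by linarith) (by norm_num)]
      linarith
    calc (Real.sqrt p * ‖f p - G p‖) * (1 - ‖G p‖ * Real.sqrt p)⁻¹ ≤
        (Real.sqrt p * ‖f p - G p‖) * 2 := mul_le_mul_of_nonneg_left h2 (by positivity)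
      _ = _ := by ring

end Pool.Agent.Helper29
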