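import Pool.Agent.Helper29.CharFun

set_option autoImplicit false
open Filter Topology ArithmeticFunction Complex
open scoped ComplexOrder

namespace Pool.Agent.Helper29

/-- Taylor bound for the logarithm, to third order -/
lemma log3 {z : ℂ} (hz : ‖z‖ ≤ 3/4) :
    z.re + (z ^ 2).re / 2 - 2 * ‖z‖ ^ 3 ≤ Real.log ‖1 - z‖⁻¹ := by
  have hz1 : ‖-z‖ < 1 := by rw [norm_neg]; linarith
  have h1 := Complex.norm_log_sub_logTaylor_le 2 hz1
  have hT : Complex.logTaylor (2 + 1) (-z) = -z - z ^ 2 / 2 := by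
    simp [Complex.logTaylor, Finset.sum_range_succ]
    ring
  rw [hT, norm_neg] at h1
  have h3 : (1 - ‖z‖)⁻¹ ≤ 4 := by
    rw [inv_le_comm₀ (by linarith) (by norm_num)]
    linarith
  have h4 : ‖log (1 + -z) - (-z - z ^ 2 / 2)‖ ≤ 2 * ‖z‖ ^ 3 := by
    refine h1.trans ?_
    have h5 : 0 ≤ ‖z‖ ^ 3 := by positivity
    have h6 : ‖z‖ ^ 3 * (1 - ‖z‖)⁻¹ ≤ ‖z‖ ^ 3 * 4 := mul_le_mul_of_nonneg_left h3 h5
    norm_num
    linarith
  have h5 := (abs_le.mp ((Complex.abs_re_le_norm _).trans h4)).2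
  rw [Real.log_inv, ← Complex.log_re, show (1 - z) = 1 + -z by ring]
  have h6 : (-z - z ^ 2 / 2).re = -z.re - (z ^ 2).re / 2 := by
    rw [Complex.sub_re, Complex.neg_re, show z ^ 2 / 2 = ((1/2 : ℝ) : ℂ) * z ^ 2 by push_cast; ring,
      Complex.re_ofReal_mul]
    ring
  rw [Complex.sub_re, h6] at h5
  linarith

lemma real_ineq {a a₂ K Zr Zi x m : ℝ} (hx : 0 ≤ x) (hu : 0 ≤ Zr + a)
    (hpar : Zi ^ 2 ≤ K * (Zr + a)) (hxs : x * (K + 2 * |a|) ≤ 2) :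
    (a₂ + 2 * m * a - m ^ 2) * x ^ 2 ≤ 2 * (a + Zr) * x + (a₂ + (Zr ^ 2 - Zi ^ 2)) * x ^ 2 := by
  have h1 : 0 ≤ (Zr + a) * (2 - x * (K + 2 * |a|)) := mul_nonneg hu (by linarith)
  have h2 : 0 ≤ (Zr + a) * x := mul_nonneg hu hx
  have h3 : 0 ≤ (|a| - a) * ((Zr + a) * x ^ 2) := by
    refine mul_nonneg (sub_nonneg.mpr (le_abs_self a)) (by positivity)
  have h4 : 0 ≤ (K * (Zr + a) - Zi ^ 2) * x ^ 2 := mul_nonneg (by linarith) (by positivity)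
  have h5 : 0 ≤ (a - m) ^ 2 * x ^ 2 := by positivity
  have h6 : 0 ≤ (Zr + a) ^ 2 * x ^ 2 := by positivity
  have h7 : 0 ≤ x * ((Zr + a) * (2 - x * (K + 2 * |a|))) := mul_nonneg hx h1
  nlinarith

end Pool.Agent.Helper29
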