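import Pool.Agent.Helper29.Smooth

set_option autoImplicit false
open Filter Topology ArithmeticFunction Complex
open scoped ComplexOrder ArithmeticFunction.zeta ArithmeticFunction.Moebius

namespace Pool.Agent.Helper29

/-- `L` is the logarithmic derivative of `φ` in the Dirichlet ring -/
def LogDer (φ L : ArithmeticFunction ℂ) : Prop := logC.pmul φ = φ * L

lemma LogDer.mul {φ ψ L M : ArithmeticFunction ℂ} (h₁ : LogDer φ L) (h₂ : LogDer ψ M) :
    LogDer (φ * ψ) (L + M) := by
  unfold LogDer at *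
  rw [logC_pmul_mul, h₁, h₂]
  ring

lemma LogDer.one : LogDer 1 0 := by
  unfold LogDer
  ext n
  by_cases hn : n = 1
  · simp [hn, logC_apply]
  · simp [hn]

lemma LogDer.pow {φ L : ArithmeticFunction ℂ} (h : LogDer φ L) (k : ℕ) :
    LogDer (φ ^ k) (k • L) := by
  induction k with
  | zero => simpa using LogDer.one
  | succ k ih =>
    rw [pow_succ, succ_nsmul]
    exact ih.mul h

lemma LogDer.prod {ι : Type*} (s : Finset ι) {φ L : ι → ArithmeticFunction ℂ}
    (h : ∀ i ∈ s, LogDer (φ i) (L i)) : LogDer (∏ i ∈ s, φ i) (∑ i ∈ s, L i) := by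
  classical
  induction s using Finset.induction_on with
  | empty => simpa using LogDer.one
  | insert i s hi ih =>
    rw [Finset.prod_insert hi, Finset.sum_insert hi]
    exact (h i (Finset.mem_insert_self _ _)).mul
      (ih fun j hj => h j (Finset.mem_insert_of_mem hj))

lemma LogDer.inv {φ ψ L : ArithmeticFunction ℂ} (h : LogDer φ L) (hinv : ψ * φ = 1) :
    LogDer ψ (-L) := by
  unfold LogDer at *
  have h1 : logC.pmul (ψ * φ) = 0 := by
    rw [hinv]
    have h0 := LogDer.one
    unfold LogDer at h0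
    simpa using h0
  rw [logC_pmul_mul, h] at h1
  have h2 : (logC.pmul ψ * φ + ψ * (φ * L)) * ψ = 0 := by rw [h1, zero_mul]
  have h3 : (logC.pmul ψ * φ + ψ * (φ * L)) * ψ =
      logC.pmul ψ * (ψ * φ) + (ψ * φ) * (ψ * L) := by ring
  rw [h3, hinv, mul_one, one_mul] at h2
  linear_combination h2

lemma CM.logDer {φ : ArithmeticFunction ℂ} (h : CM φ) : LogDer φ (φ.pmul vonC) := h.log_pmul

/-- values at `1` are multiplicative -/
lemma mul_apply_one (φ ψ : ArithmeticFunction ℂ) : (φ * ψ) 1 = φ 1 * ψ 1 := by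
  simp [mul_apply]

lemma pow_apply_one {φ : ArithmeticFunction ℂ} (h : φ 1 = 1) (k : ℕ) : (φ ^ k) 1 = 1 := by
  induction k with
  | zero => simp
  | succ k ih => rw [pow_succ, mul_apply_one, ih, h, one_mul]

lemma prod_apply_one {ι : Type*} (s : Finset ι) {φ : ι → ArithmeticFunction ℂ}
    (h : ∀ i ∈ s, φ i 1 = 1) : (∏ i ∈ s, φ i) 1 = 1 := by
  classical
  induction s using Finset.induction_on with
  | empty => simp
  | insert i s hi ih =>
    rw [Finset.prod_insert hi, mul_apply_one, h i (Finset.mem_insert_self _ _),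
      ih fun j hj => h j (Finset.mem_insert_of_mem hj), one_mul]

lemma hasSum_one (s : ℂ) : LSeriesHasSum ((1 : ArithmeticFunction ℂ) : ℕ → ℂ) s 1 := by
  unfold LSeriesHasSum
  have : LSeries.term ((1 : ArithmeticFunction ℂ) : ℕ → ℂ) s = fun n => if n = 1 then 1 else 0 := by
    ext n
    rcases Nat.eq_zero_or_pos n with rfl | hn
    · simp
    · rw [LSeries.term_of_ne_zero hn.ne']
      by_cases h1 : n = 1
      · simp [h1]
      · simp [h1]
  rw [this]
  exact hasSum_ite_eq 1 1

lemma hasSum_pow {φ : ArithmeticFunction ℂ} {s c : ℂ} (h : LSeriesHasSum φ s c) (k : ℕ) :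
    LSeriesHasSum ((φ ^ k : ArithmeticFunction ℂ) : ℕ → ℂ) s (c ^ k) := by
  induction k with
  | zero => simpa using hasSum_one s
  | succ k ih =>
    rw [pow_succ, pow_succ]
    exact LSeriesHasSum_mul ih h

lemma hasSum_prod {ι : Type*} (t : Finset ι) {φ : ι → ArithmeticFunction ℂ} {s : ℂ} {c : ι → ℂ}
    (h : ∀ i ∈ t, LSeriesHasSum (φ i) s (c i)) :
    LSeriesHasSum ((∏ i ∈ t, φ i : ArithmeticFunction ℂ) : ℕ → ℂ) s (∏ i ∈ t, c i) := by
  classical
  induction t using Finset.induction_on with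
  | empty => simpa using hasSum_one s
  | insert i t hi ih =>
    rw [Finset.prod_insert hi, Finset.prod_insert hi]
    exact LSeriesHasSum_mul (h i (Finset.mem_insert_self _ _))
      (ih fun j hj => h j (Finset.mem_insert_of_mem hj))

lemma CM.pmul_one {s : ArithmeticFunction ℂ} (h : CM s) : s.pmul 1 = 1 := by
  ext n
  by_cases hn : n = 1
  · simp [hn, h.1]
  · simp [hn]

lemma CM.pmul_pow {s : ArithmeticFunction ℂ} (h : CM s) (φ : ArithmeticFunction ℂ) (k : ℕ) :
    s.pmul (φ ^ k) = (s.pmul φ) ^ k := by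
  induction k with
  | zero => simpa using h.pmul_one
  | succ k ih => rw [pow_succ, pow_succ, h.pmul_mul, ih]

lemma CM.pmul_prod {s : ArithmeticFunction ℂ} (h : CM s) {ι : Type*} (t : Finset ι)
    (φ : ι → ArithmeticFunction ℂ) : s.pmul (∏ i ∈ t, φ i) = ∏ i ∈ t, s.pmul (φ i) := by
  classical
  induction t using Finset.induction_on with
  | empty => simpa using h.pmul_one
  | insert i t hi ih => rw [Finset.prod_insert hi, Finset.prod_insert hi, h.pmul_mul, ih]

end Pool.Agent.Helper29
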