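import Pool.Agent.Helper29.Core

set_option autoImplicit false
open Filter Topology ArithmeticFunction Complex Asymptotics MeasureTheory
open scoped ComplexOrder

namespace Pool.Agent.Helper29

/-- Abel summation for a conditionally convergent Dirichlet series -/
lemma tendsto_partial {f : ArithmeticFunction ℂ} {σ : ℝ} (hσ : 0 < σ)
    (hO : (fun n : ℕ => ∑ k ∈ Finset.Icc 1 n, f k) =O[atTop] fun n : ℕ => (n : ℝ) ^ (0:ℝ)) :
    Tendsto (fun n : ℕ => ∑ k ∈ Finset.Icc 1 n, f k * (k : ℂ) ^ (-(σ:ℂ))) atTop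
      (𝓝 (σ * MT f σ)) := by
  set s : ℂ := (σ : ℂ) with hs_def
  have hsre : s.re = σ := by simp [hs_def]
  have h₁ : (-s - 1).re + 0 < -1 := by
    rw [sub_re, neg_re, hsre, one_re]
    linarith
  have h₂ : s ≠ 0 := by
    intro h
    rw [h] at hsre
    simp at hsre
    linarith
  have h₃ (t : ℝ) (ht : t ∈ Set.Ici (1:ℝ)) : DifferentiableAt ℝ (fun x : ℝ ↦ (x : ℂ) ^ (-s)) t :=
    differentiableAt_id.ofReal_cpow_const (zero_lt_one.trans_le ht).ne' (neg_ne_zero.mpr h₂)
  have hf : f 0 = 0 := by simp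
  have h₄ : ∀ n, ∑ k ∈ Finset.Icc 0 n, f k = ∑ k ∈ Finset.Icc 1 n, f k := fun n ↦ by
    rw [← Finset.insert_Icc_add_one_left_eq_Icc n.zero_le, Finset.sum_insert (by simp), hf,
      zero_add, zero_add]
  have h₅ : ∀ n : ℕ, ∑ k ∈ Finset.Icc 0 n, (((k : ℕ) : ℝ) : ℂ) ^ (-s) * f k =
      ∑ k ∈ Finset.Icc 1 n, f k * (k : ℂ) ^ (-s) := fun n ↦ by
    rw [← Finset.insert_Icc_add_one_left_eq_Icc n.zero_le, Finset.sum_insert (by simp), hf,
      mul_zero, zero_add, zero_add]
    refine Finset.sum_congr rfl fun k _ => ?_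
    rw [mul_comm]
    simp
  simp_rw [← h₄] at hO
  simp_rw [← h₅]
  have key := tendsto_sum_mul_atTop_nhds_one_sub_integral₀ (𝕜 := ℂ) (f := fun x : ℝ ↦ (x : ℂ) ^ (-s))
    (c := f) (l := 0) hf h₃ ?_ ?_ ?_ (integrableAtFilter_rpow_atTop_iff.mpr h₁)
  · convert! key using 2
    rw [zero_sub, ← integral_neg, MT_eq_integral, ← integral_const_mul]
    refine setIntegral_congr_fun measurableSet_Ioi fun t ht ↦ ?_
    rw [deriv_ofReal_cpow_const (zero_lt_one.trans ht).ne' (neg_ne_zero.mpr h₂), h₄, psum]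
    rw [smul_eq_mul]
    ring
  · refine (Iff.mpr integrableOn_Ici_iff_integrableOn_Ioi <|
      integrableOn_Ioi_deriv_ofReal_cpow zero_lt_one
        (by simp [hsre, hσ])).locallyIntegrableOn
  · have hlim : Tendsto (fun n : ℕ ↦ (n : ℝ) ^ (-(s.re - 0))) atTop (𝓝 0) :=
      (tendsto_rpow_neg_atTop (by rw [sub_zero, hsre]; exact hσ)).comp tendsto_natCast_atTop_atTop
    refine (IsBigO.mul_atTop_rpow_natCast_of_isBigO_rpow (-s.re) _ _ ?_ hO ?_).trans_tendsto hlim
    · exact isBigO_norm_left.mp <| (norm_ofReal_cpow_eventually_eq_atTop _).isBigO.natCast_atTop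
    · linarith
  · refine .mul_atTop_rpow_of_isBigO_rpow (-(s + 1).re) 0 _ ?_ ?_ (by rw [← neg_re, neg_add'])
    · simpa [-neg_add_rev, neg_add'] using! isBigO_deriv_ofReal_cpow_const_atTop _
    · exact (hO.comp_tendsto tendsto_nat_floor_atTop).trans <|
        isEquivalent_nat_floor.isBigO.rpow le_rfl (eventually_ge_atTop 0)

/-- division of an analytic function by a power of `s` -/
lemma exists_div {h : ℂ → ℂ} (hd : DifferentiableOn ℂ h {s | -(1/2) < s.re}) (k : ℕ)
    (hz : k = 0 ∨ Tendsto (fun σ : ℝ => h σ / (σ:ℂ) ^ (k - 1)) (𝓝[>] 0) (𝓝 0)) :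
    ∃ R : ℂ → ℂ, DifferentiableOn ℂ R {s | -(1/2) < s.re} ∧ ∀ s, h s = s ^ k * R s := by
  induction k with
  | zero => exact ⟨h, hd, fun s => by simp⟩
  | succ k ih =>
    have hz' : Tendsto (fun σ : ℝ => h σ / (σ:ℂ) ^ k) (𝓝[>] 0) (𝓝 0) := by
      rcases hz with hz | hz
      · omega
      · simpa using hz
    obtain ⟨R, hR, hRe⟩ := ih (by
      rcases Nat.eq_zero_or_pos k with hk | hk
      · exact Or.inl hk
      · right
        have h1 : Tendsto (fun σ : ℝ => (σ : ℂ)) (𝓝[>] 0) (𝓝 0) := by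
          have : Tendsto (fun σ : ℝ => (σ : ℂ)) (𝓝 0) (𝓝 ((0:ℝ):ℂ)) :=
            Complex.continuous_ofReal.tendsto 0
          rw [Complex.ofReal_zero] at this
          exact this.mono_left nhdsWithin_le_nhds
        have h2 := hz'.mul h1
        rw [mul_zero] at h2
        refine h2.congr' ?_
        filter_upwards [self_mem_nhdsWithin] with σ hσ
        have hσ0 : (σ:ℂ) ≠ 0 := by
          have : (0:ℝ) < σ := hσ
          exact_mod_cast this.ne'
        obtain ⟨j, rfl⟩ : ∃ j, k = j + 1 := ⟨k - 1, by omega⟩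
        rw [Nat.add_sub_cancel, pow_succ]
        field_simp)
    have hU : {s : ℂ | -(1/2) < s.re} ∈ 𝓝 (0:ℂ) := by
      have hopen : IsOpen {s : ℂ | -(1/2) < s.re} := isOpen_lt continuous_const Complex.continuous_re
      exact hopen.mem_nhds (by simp)
    have hR0 : R 0 = 0 := by
      have h1 : Tendsto (fun σ : ℝ => R (σ : ℂ)) (𝓝[>] 0) (𝓝 (R 0)) := by
        have hc : ContinuousAt R 0 := (hR.differentiableAt hU).continuousAt
        have h2 : Tendsto (fun σ : ℝ => (σ : ℂ)) (𝓝[>] 0) (𝓝 (0:ℂ)) := by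
          have : Tendsto (fun σ : ℝ => (σ : ℂ)) (𝓝 0) (𝓝 ((0:ℝ):ℂ)) :=
            Complex.continuous_ofReal.tendsto 0
          rw [Complex.ofReal_zero] at this
          exact this.mono_left nhdsWithin_le_nhds
        exact hc.tendsto.comp h2
      refine tendsto_nhds_unique h1 (hz'.congr' ?_)
      filter_upwards [self_mem_nhdsWithin] with σ hσ
      have hσ0 : (σ:ℂ) ≠ 0 := by
        have : (0:ℝ) < σ := hσ
        exact_mod_cast this.ne'
      rw [hRe, mul_div_assoc, mul_comm, div_mul_cancel₀]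
      exact pow_ne_zero _ hσ0
    refine ⟨dslope R 0, (Complex.differentiableOn_dslope hU).mpr hR, fun s => ?_⟩
    have h1 := sub_smul_dslope R 0 s
    rw [hR0, sub_zero, sub_zero, smul_eq_mul] at h1
    rw [hRe, pow_succ, ← h1]
    ring

end Pool.Agent.Helper29
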