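import Pool.Agent.Helper29.ClassThm

set_option autoImplicit false
open Filter Topology

namespace Pool.Agent.Helper29

/-- Every completely multiplicative function has partial sums that are at least a constant times
`N ^ (-σ)` infinitely often, for some `σ < 1` (depending on the function). -/
theorem power_omega (f : ℕ → ℂ) (h1 : f 1 = 1)
    (hmul : ∀ m n : ℕ, 0 < m → 0 < n → f (m * n) = f m * f n) :
    ∃ σ : ℝ, 0 < σ ∧ σ < 1 ∧ ∃ c : ℝ, 0 < c ∧ ∀ M : ℕ, ∃ N : ℕ, M ≤ N ∧ 0 < N ∧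
      c / (N : ℝ) ^ σ ≤ ‖∑ n ∈ Finset.Icc 1 N, f n‖ := by
  by_cases hall : ∀ p : ℕ, p.Prime → ‖f p‖ ≤ 1 / p
  · have h := Pool.Agent.Helper29.omega_of_class f h1 hmul 0 le_rfl f
      (fun p hp => Or.inl (hall p hp)) (by
        have : (fun p : Nat.Primes =>
            min (Real.sqrt (p : ℕ) * ‖f p - f p‖) (((p : ℕ) : ℝ) ^ (-(0:ℝ)))) = fun _ => 0 := by
          ext p
          simp
        rw [this]
        exact summable_zero)
    exact ⟨1/2 + 0, by norm_num, by norm_num, h⟩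
  · push Not at hall
    obtain ⟨p, hp, hlt⟩ := hall
    have hp1 : (1:ℝ) < p := by exact_mod_cast hp.one_lt
    have hp0 : (0:ℝ) < p := by linarith
    have ha0 : 0 < ‖f p‖ := lt_trans (by positivity) hlt
    set σ : ℝ := max (1/2) (-Real.logb p ‖f p‖) with hσ
    have hσ0 : 0 < σ := lt_of_lt_of_le (by norm_num) (le_max_left _ _)
    have hσ1 : σ < 1 := by
      refine max_lt (by norm_num) ?_
      have h2 : Real.logb p (1 / p) < Real.logb p ‖f p‖ :=
        Real.logb_lt_logb hp1 (by positivity) hlt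
      rw [one_div, Real.logb_inv, Real.logb_self_eq_one hp1] at h2
      linarith
    have hpow : (p:ℝ) ^ (-σ) ≤ ‖f p‖ := by
      calc (p:ℝ) ^ (-σ) ≤ (p:ℝ) ^ (Real.logb p ‖f p‖) := by
            refine Real.rpow_le_rpow_of_exponent_le hp1.le ?_
            have := le_max_right (1/2) (-Real.logb p ‖f p‖)
            linarith
        _ = ‖f p‖ := Real.rpow_logb hp0 hp1.ne' ha0
    refine ⟨σ, hσ0, hσ1, 1/2 * 2 ^ (-σ), by positivity, fun M => ?_⟩
    obtain ⟨k, hk⟩ : ∃ k : ℕ, M + 2 ≤ p ^ k := ⟨M + 2, (Nat.lt_pow_self hp.one_lt).le⟩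
    have hfk : ∀ j : ℕ, f (p ^ j) = f p ^ j := by
      intro j
      induction j with
      | zero => simpa using h1
      | succ j ih => rw [pow_succ, hmul _ _ (pow_pos hp.pos j) hp.pos, ih, pow_succ]
    obtain ⟨m, hm⟩ : ∃ m, p ^ k = m + 1 := ⟨p ^ k - 1, by omega⟩
    have hfm : f (m + 1) = ∑ k ∈ Finset.Icc 1 (m + 1), f k - ∑ k ∈ Finset.Icc 1 m, f k := by
      rw [Finset.sum_Icc_succ_top (by omega)]
      ring
    have hbig : ((m + 1 : ℕ) : ℝ) ^ (-σ) ≤ ‖f (m + 1)‖ := by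
      rw [← hm, hfk, norm_pow]
      push_cast
      rw [← Real.rpow_natCast, ← Real.rpow_mul hp0.le, mul_comm, Real.rpow_mul hp0.le,
        Real.rpow_natCast]
      exact pow_le_pow_left₀ (by positivity) hpow k
    have hm0 : 0 < m := by omega
    have htri : ‖f (m + 1)‖ ≤ ‖∑ k ∈ Finset.Icc 1 (m + 1), f k‖ + ‖∑ k ∈ Finset.Icc 1 m, f k‖ := by
      rw [hfm]
      exact norm_sub_le _ _
    have h2σ : (2:ℝ) ^ (-σ) ≤ 1 := Real.rpow_le_one_of_one_le_of_nonpos (by norm_num) (by linarith)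
    by_cases hcase : 1/2 * ((m + 1 : ℕ) : ℝ) ^ (-σ) ≤ ‖∑ k ∈ Finset.Icc 1 (m + 1), f k‖
    · refine ⟨m + 1, by omega, by omega, le_trans ?_ hcase⟩
      rw [div_eq_mul_inv, ← Real.rpow_neg (by positivity)]
      have h3 : (0:ℝ) ≤ ((m + 1 : ℕ) : ℝ) ^ (-σ) := by positivity
      have := mul_le_mul_of_nonneg_right h2σ h3
      linarith
    · refine ⟨m, by omega, hm0, ?_⟩
      have h4 : 1/2 * ((m + 1 : ℕ) : ℝ) ^ (-σ) ≤ ‖∑ k ∈ Finset.Icc 1 m, f k‖ := by
        linarith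
      refine le_trans ?_ h4
      rw [div_eq_mul_inv, ← Real.rpow_neg (by positivity)]
      have h5 : (2:ℝ) ^ (-σ) * (m : ℝ) ^ (-σ) ≤ ((m + 1 : ℕ) : ℝ) ^ (-σ) := by
        rw [← Real.mul_rpow (by norm_num) (by positivity)]
        refine Real.rpow_le_rpow_of_nonpos (by positivity) ?_ (by linarith)
        have : (1:ℝ) ≤ m := by exact_mod_cast hm0
        push_cast
        linarith
      linarith

end Pool.Agent.Helper29
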