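import Pool.Agent.Helper29.Core
import Pool.Agent.Helper29.Order
import Pool.Agent.Helper29.CoreStar3
import Pool.Agent.Helper29.ClassThm

set_option autoImplicit false
open Filter Topology ArithmeticFunction Complex Asymptotics
open scoped ComplexOrder

namespace Pool.Agent.Helper29

/-- a completely multiplicative function with small partial sums and a comparison function -/
structure Pre (f G : ArithmeticFunction ℂ) : Prop where
  cmf : CM f
  cmG : CM G
  small : ∀ p : ℕ, p.Prime → ‖G p‖ * Real.sqrt p ≤ 1/2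
  sum : Summable (fun p : Nat.Primes => Real.sqrt p * ‖f p - G p‖)
  lim : Tendsto (fun N : ℕ => ‖∑ k ∈ Finset.Icc 1 N, f k‖ * Real.sqrt N) atTop (𝓝 0)

lemma Pre.conj {f G : ArithmeticFunction ℂ} (h : Pre f G) : Pre (conjA f) (conjA G) where
  cmf := conjA_CM h.cmf
  cmG := conjA_CM h.cmG
  small := fun p hp => by rw [conjA_apply, Complex.norm_conj]; exact h.small p hp
  sum := by
    refine h.sum.congr fun p => ?_
    rw [conjA_apply, conjA_apply, ← map_sub, Complex.norm_conj]
  lim := by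
    refine h.lim.congr fun N => ?_
    simp only [conjA_apply]
    rw [← map_sum (starRingEnd ℂ), Complex.norm_conj]

lemma Pre.summable_r {f G : ArithmeticFunction ℂ} (h : Pre f G) :
    Summable (fun n : ℕ => ‖rfun f G n‖ * Real.sqrt n) :=
  summable_rfun h.cmf h.cmG h.small h.sum

lemma Pre.LSeriesSummable_r {f G : ArithmeticFunction ℂ} (h : Pre f G) {s : ℂ}
    (hs : -(1/2) ≤ s.re) : LSeriesSummable (rfun f G) s := by
  refine Summable.of_norm_bounded h.summable_r fun n => ?_
  exact norm_term_le hs n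

lemma Pre.norm_LSeries_r {f G : ArithmeticFunction ℂ} (h : Pre f G) {s : ℂ}
    (hs : -(1/2) ≤ s.re) : ‖LSeries (rfun f G) s‖ ≤ ∑' n : ℕ, ‖rfun f G n‖ * Real.sqrt n := by
  exact tsum_of_norm_bounded h.summable_r.hasSum fun n => norm_term_le hs n

lemma Pre.LSeriesSummable_f {f G : ArithmeticFunction ℂ} (h : Pre f G) {s : ℂ}
    (hs : 1 < s.re) : LSeriesSummable f s := by
  obtain ⟨C, hC⟩ := bounded_of_lim h.lim
  exact LSeriesSummable_of_bounded_of_one_lt_re hC hs

lemma Pre.G_norm_le {f G : ArithmeticFunction ℂ} (h : Pre f G) (n : ℕ) : ‖G n‖ ≤ 1 := by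
  refine norm_le_of_prime h.cmG (fun p hp => ?_) n
  have h1 := h.small p hp
  have h2 : 1 ≤ Real.sqrt p := by
    rw [Real.one_le_sqrt]
    exact_mod_cast hp.one_le
  have h3 := norm_nonneg (G p)
  nlinarith

lemma Pre.LSeriesSummable_G {f G : ArithmeticFunction ℂ} (h : Pre f G) {s : ℂ}
    (hs : 1 < s.re) : LSeriesSummable G s :=
  LSeriesSummable_of_bounded_of_one_lt_re (fun n _ => h.G_norm_le n) hs

lemma Pre.LSeries_G {f G : ArithmeticFunction ℂ} (h : Pre f G) {s : ℂ}
    (hs : 1 < s.re) : LSeries G s = s * Qf f G s := by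
  have h1 : LSeries G s = LSeries (rfun f G * f : ArithmeticFunction ℂ) s := by
    rw [rfun_mul h.cmf]
  rw [h1, LSeries_mul' (h.LSeriesSummable_r (by linarith)) (h.LSeriesSummable_f hs),
    LSeries_eq_MT (by linarith) (h.LSeriesSummable_f hs) (lim_isBigO' h.lim), Qf]
  ring

lemma Pre.differentiableOn_Q {f G : ArithmeticFunction ℂ} (h : Pre f G) :
    DifferentiableOn ℂ (Qf f G) {s | -(1/2) < s.re} := by
  intro s hs
  refine DifferentiableAt.differentiableWithinAt ?_
  have h1 : DifferentiableAt ℂ (LSeries (rfun f G)) s := by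
    have habs : LSeries.abscissaOfAbsConv (rfun f G) < s.re := by
      have := (h.LSeriesSummable_r (s := ((-(1/2) : ℝ) : ℂ)) (by simp)).abscissaOfAbsConv_le
      refine this.trans_lt ?_
      rw [Complex.ofReal_re]
      exact_mod_cast hs
    exact (LSeries_hasDerivAt habs).differentiableAt
  have h2 : DifferentiableAt ℂ (MT f) s :=
    MT_differentiableAt (a := 1/2) (by norm_num) (lim_isBigO h.lim) hs
  exact h1.mul h2

lemma Pre.Q_lim {f G : ArithmeticFunction ℂ} (h : Pre f G) :
    Tendsto (fun w : ℝ => (w + 1/2) * ‖Qf f G w‖) (𝓝[>] (-(1/2))) (𝓝 0) := by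
  set B := ∑' n : ℕ, ‖rfun f G n‖ * Real.sqrt n with hB
  have hB0 : 0 ≤ B := tsum_nonneg fun n => by positivity
  rw [Metric.tendsto_nhdsWithin_nhds]
  intro ε hε
  set η : ℝ := ε / (4 * (B + 1)) with hη
  have hη0 : 0 < η := by positivity
  obtain ⟨M, hM⟩ := (h.lim.eventually_le_const hη0).exists_forall_of_atTop
  obtain ⟨K, hK0, hK⟩ := psum_le_of_small hη0.le hM
  refine ⟨ε / (4 * (B + 1) * (K + 1)), by positivity, fun {w} hw hdist => ?_⟩
  have hw' : -(1/2) < w := hw
  have hb := MT_bound hK hw'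
  have hr := h.norm_LSeries_r (s := (w : ℂ)) (by simpa using hw'.le)
  have hdw : w + 1/2 < ε / (4 * (B + 1) * (K + 1)) := by
    rw [Real.dist_eq] at hdist
    have := (abs_lt.mp hdist).2
    linarith
  have hw0 : 0 < w + 1/2 := by linarith
  rw [Real.dist_eq, sub_zero, abs_of_nonneg (by positivity)]
  have h1 : ‖Qf f G w‖ ≤ B * (K / (w + 2) + 2 * η / (w + 1/2)) := by
    rw [Qf, norm_mul]
    exact mul_le_mul hr hb (norm_nonneg _) hB0
  have h2 : (w + 1/2) * ‖Qf f G w‖ ≤ (w + 1/2) * (B * (K / (w + 2) + 2 * η / (w + 1/2))) :=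
    mul_le_mul_of_nonneg_left h1 hw0.le
  have h3 : (w + 1/2) * (B * (K / (w + 2) + 2 * η / (w + 1/2))) =
      (w + 1/2) * (B * (K / (w + 2))) + 2 * η * B := by
    have h30 : 2 * η / (w + 1/2) * (w + 1/2) = 2 * η := div_mul_cancel₀ _ hw0.ne'
    linear_combination B * h30
  have h4 : (w + 1/2) * (B * (K / (w + 2))) ≤ (w + 1/2) * ((B + 1) * (K + 1)) := by
    refine mul_le_mul_of_nonneg_left ?_ hw0.le
    have : K / (w + 2) ≤ K + 1 := by
      rw [div_le_iff₀ (by linarith)]
      nlinarith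
    exact mul_le_mul (by linarith) this (div_nonneg hK0 (by linarith)) (by linarith)
  have h5 : (w + 1/2) * ((B + 1) * (K + 1)) < ε / 4 := by
    have h51 : (0:ℝ) < (B + 1) * (K + 1) := by positivity
    calc (w + 1/2) * ((B + 1) * (K + 1)) < ε / (4 * (B + 1) * (K + 1)) * ((B + 1) * (K + 1)) :=
          mul_lt_mul_of_pos_right hdw h51
      _ = ε / 4 := by field_simp
  have h6 : 2 * η * B ≤ ε / 2 := by
    have : B ≤ B + 1 := by linarith
    calc 2 * η * B ≤ 2 * η * (B + 1) := mul_le_mul_of_nonneg_left this (by positivity)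
      _ = ε / 2 := by rw [hη]; field_simp; ring
  linarith

end Pool.Agent.Helper29
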