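import Pool.Agent.Helper29.Euler

set_option autoImplicit false
open Filter Topology ArithmeticFunction Complex
open scoped ComplexOrder ArithmeticFunction.zeta ArithmeticFunction.Moebius

namespace Pool.Agent.Helper29

/-- indicator function of the smooth numbers -/
noncomputable def sInd (y : ℕ) : ArithmeticFunction ℂ :=
  ⟨(Nat.smoothNumbers y : Set ℕ).indicator 1, by
    rw [Set.indicator_of_notMem]
    exact fun h => h.1 rfl⟩

lemma sInd_mem {y n : ℕ} (h : n ∈ Nat.smoothNumbers y) : sInd y n = 1 := by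
  simp [sInd, h]

lemma sInd_notMem {y n : ℕ} (h : n ∉ Nat.smoothNumbers y) : sInd y n = 0 := by
  simp [sInd, h]

lemma sInd_CM (y : ℕ) : CM (sInd y) := by
  constructor
  · refine sInd_mem ?_
    exact ⟨one_ne_zero, by simp⟩
  · intro m n
    by_cases hm : m ∈ Nat.smoothNumbers y
    · by_cases hn : n ∈ Nat.smoothNumbers y
      · rw [sInd_mem hm, sInd_mem hn, sInd_mem (Nat.mul_mem_smoothNumbers hm hn), one_mul]
      · have : m * n ∉ Nat.smoothNumbers y :=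
          fun h => hn (Nat.mem_smoothNumbers_of_dvd h (Dvd.intro_left m rfl))
        rw [sInd_notMem hn, sInd_notMem this, mul_zero]
    · have : m * n ∉ Nat.smoothNumbers y :=
        fun h => hm (Nat.mem_smoothNumbers_of_dvd h (Dvd.intro n rfl))
      rw [sInd_notMem hm, sInd_notMem this, zero_mul]

lemma hasSum_smooth {φ : ArithmeticFunction ℂ} (hφ : CM φ) {w : ℝ}
    (h : ∀ p : ℕ, p.Prime → ‖φ p‖ * (p : ℝ) ^ (-w) < 1) (y : ℕ) :
    LSeriesHasSum ((sInd y).pmul φ) w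
      (∏ p ∈ y.primesBelow, (1 - φ p * (p : ℂ) ^ (-(w : ℂ)))⁻¹) := by
  set F : ℕ →* ℂ :=
    { toFun := fun n => φ n * (n : ℂ) ^ (-(w : ℂ))
      map_one' := by simp [hφ.1]
      map_mul' := by
        intro m n
        rw [hφ.2, Nat.cast_mul, Complex.natCast_mul_natCast_cpow]
        ring } with hF
  have hFapp : ∀ n, F n = φ n * (n : ℂ) ^ (-(w : ℂ)) := fun n => rfl
  have hlt : ∀ {p : ℕ}, p.Prime → ‖F p‖ < 1 := by
    intro p hp
    rw [hFapp, norm_mul, show -(w:ℂ) = ((-w : ℝ) : ℂ) by push_cast; ring,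
      show (p : ℂ) = ((p : ℝ) : ℂ) by push_cast; ring,
      Complex.norm_cpow_eq_rpow_re_of_pos (by exact_mod_cast hp.pos), Complex.ofReal_re]
    exact h p hp
  have key := (EulerProduct.summable_and_hasSum_smoothNumbers_prod_primesBelow_geometric hlt y).2
  have key2 := hasSum_subtype_iff_indicator.mp key
  unfold LSeriesHasSum
  convert! key2 using 1
  ext n
  by_cases hn : n ∈ Nat.smoothNumbers y
  · rw [Set.indicator_of_mem hn, hFapp, LSeries.term_of_ne_zero hn.1, pmul_apply, sInd_mem hn,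
      one_mul, Complex.cpow_neg, div_eq_mul_inv]
  · rw [Set.indicator_of_notMem hn]
    rcases Nat.eq_zero_or_pos n with rfl | hpos
    · simp
    · rw [LSeries.term_of_ne_zero hpos.ne', pmul_apply, sInd_notMem hn]
      simp

/-- the function n ↦ 1/n -/
noncomputable def uA : ArithmeticFunction ℂ := ⟨fun n => (n : ℂ)⁻¹, by simp⟩

lemma uA_apply (n : ℕ) : uA n = (n : ℂ)⁻¹ := rfl

lemma uA_CM : CM uA := by
  constructor
  · simp [uA]
  · intro m n
    simp only [uA, coe_mk]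
    push_cast
    rw [mul_inv]

/-- conjugate -/
noncomputable def conjA (φ : ArithmeticFunction ℂ) : ArithmeticFunction ℂ :=
  ⟨fun n => (starRingEnd ℂ) (φ n), by simp⟩

lemma conjA_apply (φ : ArithmeticFunction ℂ) (n : ℕ) : conjA φ n = (starRingEnd ℂ) (φ n) := rfl

lemma conjA_CM {φ : ArithmeticFunction ℂ} (h : CM φ) : CM (conjA φ) := by
  constructor
  · simp [conjA, h.1]
  · intro m n
    simp only [conjA, coe_mk]
    rw [h.2, map_mul]

/-- the nonnegative comparison function -/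
noncomputable def bfun (G : ArithmeticFunction ℂ) : ArithmeticFunction ℂ :=
  uA * uA * G * conjA G

lemma bfun_nonneg {G : ArithmeticFunction ℂ} (hG : CM G)
    (hpos : ∀ p : ℕ, p.Prime → ‖G p‖ ≤ 1 / p ∨ 0 ≤ G p) : ∀ n, 0 ≤ bfun G n := by
  refine nonneg_of_log (L := uA.pmul vonC + uA.pmul vonC + G.pmul vonC + (conjA G).pmul vonC)
    ?_ ?_ ?_ (log_four uA_CM uA_CM hG (conjA_CM hG))
  · have h1 : (uA * uA * G * conjA G).IsMultiplicative :=
      (((uA_CM.isMult.mul uA_CM.isMult).mul hG.isMult).mul (conjA_CM hG).isMult)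
    exact h1.1
  · intro n
    by_cases hn : IsPrimePow n
    · obtain ⟨p, k, hp, hk, rfl⟩ := (isPrimePow_nat_iff n).mp hn
      have hval : (uA.pmul vonC + uA.pmul vonC + G.pmul vonC + (conjA G).pmul vonC) (p ^ k) =
          ((vonMangoldt (p ^ k) * (2 * ((p:ℝ) ^ k)⁻¹ + 2 * ((G p) ^ k).re) : ℝ) : ℂ) := by
        simp only [ArithmeticFunction.add_apply, pmul_apply, vonC_apply, uA_apply, conjA_apply, hG.pow]
        have : ((G p) ^ k) + (starRingEnd ℂ) ((G p) ^ k) = ((2 * ((G p) ^ k).re : ℝ) : ℂ) :=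
          Complex.add_conj _
        push_cast at this ⊢
        linear_combination (vonMangoldt (p ^ k) : ℂ) * this
      rw [hval]
      have hre : 0 ≤ ((p:ℝ) ^ k)⁻¹ + ((G p) ^ k).re := by
        rcases hpos p hp with h | h
        · have h1 : |((G p) ^ k).re| ≤ ‖(G p) ^ k‖ := Complex.abs_re_le_norm _
          have h2 : ‖(G p) ^ k‖ ≤ ((p:ℝ) ^ k)⁻¹ := by
            rw [norm_pow, ← inv_pow]
            exact pow_le_pow_left₀ (norm_nonneg _) (by simpa using h) k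
          have h3 := (abs_le.mp (h1.trans h2)).1
          linarith
        · have h1 : 0 ≤ (G p) ^ k := pow_nonneg h k
          have h2 : 0 ≤ ((G p) ^ k).re := (Complex.nonneg_iff.mp h1).1
          have : 0 ≤ ((p:ℝ) ^ k)⁻¹ := by positivity
          linarith
      have h4 : 0 ≤ vonMangoldt (p ^ k) * (2 * ((p:ℝ) ^ k)⁻¹ + 2 * ((G p) ^ k).re) := by
        refine mul_nonneg vonMangoldt_nonneg ?_
        linarith
      exact_mod_cast h4
    · have h0 : vonC n = 0 := by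
        rw [vonC_apply, vonMangoldt_apply, if_neg hn]
        simp
      simp [pmul_apply, h0]
  · simp [pmul_apply, vonC_apply]

lemma local_bound {x : ℝ} {a : ℂ} (hx0 : 0 ≤ x) (hx : x < 1) (ha : ‖a‖ < 1)
    (h : ‖a‖ ≤ x ∨ 0 ≤ a) :
    ((1 - x ^ 2)⁻¹) ^ 2 ≤ ((1 - x)⁻¹) ^ 2 * (‖1 - a‖⁻¹) ^ 2 := by
  have h1 : ‖1 - a‖ ≤ 1 + x := by
    rcases h with h | h
    · calc ‖1 - a‖ ≤ ‖(1:ℂ)‖ + ‖a‖ := norm_sub_le _ _
        _ ≤ 1 + x := by simpa using h
    · obtain ⟨r, hr0, rfl⟩ : ∃ r : ℝ, 0 ≤ r ∧ a = r := by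
        refine ⟨a.re, (Complex.nonneg_iff.mp h).1, ?_⟩
        exact Complex.ext rfl (by simpa using (Complex.nonneg_iff.mp h).2.symm)
      rw [Complex.norm_real, Real.norm_of_nonneg hr0] at ha
      rw [← Complex.ofReal_one, ← Complex.ofReal_sub, Complex.norm_real,
        Real.norm_of_nonneg (by linarith)]
      linarith
  have h2 : 0 < ‖1 - a‖ := by
    rw [norm_pos_iff, sub_ne_zero]
    intro h3
    rw [← h3] at ha
    simp at ha
  rw [← mul_pow, ← mul_inv]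
  refine pow_le_pow_left₀ (by
    rw [inv_nonneg]; nlinarith) ?_ 2
  refine inv_anti₀ (mul_pos (by linarith) h2) ?_
  calc (1 - x) * ‖1 - a‖ ≤ (1 - x) * (1 + x) := mul_le_mul_of_nonneg_left h1 (by linarith)
    _ = 1 - x ^ 2 := by ring

/-- lower bound for the smooth part -/
lemma smooth_lower {G : ArithmeticFunction ℂ} (hG : CM G)
    (hsmall : ∀ p : ℕ, p.Prime → ‖G p‖ * Real.sqrt p ≤ 1/2)
    (hpos : ∀ p : ℕ, p.Prime → ‖G p‖ ≤ 1 / p ∨ 0 ≤ G p)
    {w : ℝ} (hw : -(1/2) < w) (y : ℕ) :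
    ∃ P : ℂ, LSeriesHasSum ((sInd y).pmul (bfun G)) w P ∧
      ∏ p ∈ y.primesBelow, ((1 - (p:ℝ) ^ (-(2 + 2 * w)))⁻¹) ^ 2 ≤ P.re := by
  have hsqrt : ∀ p : ℕ, p.Prime → (p : ℝ) ^ (-w) ≤ Real.sqrt p := by
    intro p hp
    rw [Real.sqrt_eq_rpow]
    exact Real.rpow_le_rpow_of_exponent_le (by exact_mod_cast hp.one_le) (by linarith)
  have hG1 : ∀ p : ℕ, p.Prime → ‖G p‖ * (p : ℝ) ^ (-w) < 1 := by
    intro p hp
    calc ‖G p‖ * (p : ℝ) ^ (-w) ≤ ‖G p‖ * Real.sqrt p :=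
          mul_le_mul_of_nonneg_left (hsqrt p hp) (norm_nonneg _)
      _ ≤ 1/2 := hsmall p hp
      _ < 1 := by norm_num
  have hu : ∀ p : ℕ, p.Prime → ‖uA p‖ = (p:ℝ)⁻¹ := by
    intro p hp
    rw [uA_apply, norm_inv]
    simp
  have hx1 : ∀ p : ℕ, p.Prime → (p:ℝ)⁻¹ * (p : ℝ) ^ (-w) < 1 := by
    intro p hp
    have h2 : (1:ℝ) < p := by exact_mod_cast hp.one_lt
    have : (p:ℝ)⁻¹ * (p : ℝ) ^ (-w) = (p:ℝ) ^ (-1 - w) := by
      rw [← Real.rpow_neg_one, ← Real.rpow_add (by linarith)]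
      ring_nf
    rw [this]
    exact Real.rpow_lt_one_of_one_lt_of_neg h2 (by linarith)
  have hu1 : ∀ p : ℕ, p.Prime → ‖uA p‖ * (p : ℝ) ^ (-w) < 1 := by
    intro p hp
    rw [hu p hp]
    exact hx1 p hp
  have hGb : ∀ p : ℕ, p.Prime → ‖conjA G p‖ * (p : ℝ) ^ (-w) < 1 := by
    intro p hp
    rw [conjA_apply, Complex.norm_conj]
    exact hG1 p hp
  have s1 := hasSum_smooth uA_CM hu1 y
  have s3 := hasSum_smooth hG hG1 y
  have s4 := hasSum_smooth (conjA_CM hG) hGb y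
  have hall := LSeriesHasSum_mul (LSeriesHasSum_mul (LSeriesHasSum_mul s1 s1) s3) s4
  rw [← (sInd_CM y).pmul_mul, ← (sInd_CM y).pmul_mul, ← (sInd_CM y).pmul_mul] at hall
  refine ⟨_, hall, ?_⟩
  rw [← Finset.prod_mul_distrib, ← Finset.prod_mul_distrib, ← Finset.prod_mul_distrib]
  have hterm : ∀ p ∈ y.primesBelow,
      (1 - uA p * (p : ℂ) ^ (-(w : ℂ)))⁻¹ * (1 - uA p * (p : ℂ) ^ (-(w : ℂ)))⁻¹ *
        (1 - G p * (p : ℂ) ^ (-(w : ℂ)))⁻¹ * (1 - conjA G p * (p : ℂ) ^ (-(w : ℂ)))⁻¹ =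
      ((((1 - (p:ℝ)⁻¹ * (p : ℝ) ^ (-w))⁻¹) ^ 2 *
        (‖1 - G p * (p : ℂ) ^ (-(w : ℂ))‖⁻¹) ^ 2 : ℝ) : ℂ) := by
    intro p hp
    have hp' := Nat.prime_of_mem_primesBelow hp
    have hpow : (p : ℂ) ^ (-(w : ℂ)) = (((p:ℝ) ^ (-w) : ℝ) : ℂ) := by
      rw [Complex.ofReal_cpow (by positivity)]
      push_cast
      rfl
    have hconj : (1 - conjA G p * (p : ℂ) ^ (-(w : ℂ)))⁻¹ =
        (starRingEnd ℂ) ((1 - G p * (p : ℂ) ^ (-(w : ℂ)))⁻¹) := by
      rw [conjA_apply, hpow]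
      simp
    rw [hconj, mul_assoc, Complex.mul_conj, hpow, uA_apply, Complex.normSq_eq_norm_sq]
    push_cast
    rw [norm_inv]
    push_cast
    ring
  rw [Finset.prod_congr rfl hterm, ← Complex.ofReal_prod, Complex.ofReal_re]
  refine Finset.prod_le_prod (fun p _ => by positivity) fun p hp => ?_
  have hp' := Nat.prime_of_mem_primesBelow hp
  have h2 : (1:ℝ) < p := by exact_mod_cast hp'.one_lt
  have hnorm : ‖G p * (p : ℂ) ^ (-(w : ℂ))‖ = ‖G p‖ * (p : ℝ) ^ (-w) := by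
    rw [norm_mul, show -(w:ℂ) = ((-w : ℝ) : ℂ) by push_cast; ring,
      show (p : ℂ) = ((p : ℝ) : ℂ) by push_cast; ring,
      Complex.norm_cpow_eq_rpow_re_of_pos (by linarith), Complex.ofReal_re]
  have hb := local_bound (x := (p:ℝ)⁻¹ * (p : ℝ) ^ (-w)) (a := G p * (p : ℂ) ^ (-(w : ℂ)))
    (by positivity) (hx1 p hp') (by rw [hnorm]; exact hG1 p hp') (by
      rcases hpos p hp' with h | h
      · left
        rw [hnorm]
        exact mul_le_mul_of_nonneg_right (by simpa using h) (by positivity)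
      · right
        have : (p : ℂ) ^ (-(w : ℂ)) = (((p:ℝ) ^ (-w) : ℝ) : ℂ) := by
          rw [Complex.ofReal_cpow (by positivity)]
          push_cast
          rfl
        rw [this]
        refine mul_nonneg h ?_
        exact_mod_cast (by positivity : (0:ℝ) ≤ (p:ℝ) ^ (-w)))
  have hx2 : ((p:ℝ)⁻¹ * (p : ℝ) ^ (-w)) ^ 2 = (p:ℝ) ^ (-(2 + 2 * w)) := by
    rw [← Real.rpow_neg_one, ← Real.rpow_add (by linarith), ← Real.rpow_natCast,
      ← Real.rpow_mul (by linarith)]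
    congr 1
    push_cast
    ring
  rw [hx2] at hb
  exact hb

end Pool.Agent.Helper29
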