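import Pool.Agent.Helper29.Local

set_option autoImplicit false
set_option linter.unusedSectionVars false
open Filter Topology ArithmeticFunction Complex
open scoped ComplexOrder

namespace Pool.Agent.Helper29

variable {N : ℕ} [NeZero N]

/-- the real combination of characters -/
noncomputable def aC (τ : DirichletCharacter ℂ N → ℕ) (n : ℕ) : ℝ :=
  (∑ χ, (τ χ : ℝ) * (χ n).re) / 2

/-- its companion at squares -/
noncomputable def aC2 (τ : DirichletCharacter ℂ N → ℕ) (n : ℕ) : ℝ :=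
  (∑ χ, (τ χ : ℝ) * ((χ n) ^ 2).re) / 2

/-- the data of the comparison argument -/
structure Star (τ : DirichletCharacter ℂ N → ℕ) (m : ℕ) (K M : ℝ) (p₀ : ℕ)
    (G : ArithmeticFunction ℂ) (Q Q' : ℂ → ℂ) : Prop where
  cmG : CM G
  sym : ∀ χ, τ χ⁻¹ = τ χ
  one : τ 1 = 2 * m
  hm : 1 ≤ m
  K0 : 0 ≤ K
  KM : 2 * K ≤ M
  TM : ((∑ χ, τ χ : ℕ) : ℝ) ≤ M
  Mp : (4 * M) ^ 2 ≤ p₀
  Np : N < p₀
  zero : ∀ p : ℕ, p.Prime → p < p₀ → G p = 0
  small : ∀ p : ℕ, p.Prime → ‖G p‖ * Real.sqrt p ≤ 1/2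
  reg : ∀ p : ℕ, p.Prime → p₀ ≤ p →
    (‖(p : ℂ) * G p‖ ≤ K ∧ 0 ≤ ((p : ℂ) * G p).re + aC τ p ∧
      ((p : ℂ) * G p).im ^ 2 ≤ K * (((p : ℂ) * G p).re + aC τ p)) ∨
    (0 ≤ aC τ p ∧ 0 ≤ G p)
  diff : DifferentiableOn ℂ Q {s | -(1/2) < s.re}
  diff' : DifferentiableOn ℂ Q' {s | -(1/2) < s.re}
  eq : ∀ s : ℂ, 1 < s.re → LSeries G s = s ^ m * Q s
  eq' : ∀ s : ℂ, 1 < s.re → LSeries (conjA G) s = s ^ m * Q' s
  lim : Tendsto (fun w : ℝ => (w + 1/2) * ‖Q w‖) (𝓝[>] (-(1/2))) (𝓝 0)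
  lim' : Tendsto (fun w : ℝ => (w + 1/2) * ‖Q' w‖) (𝓝[>] (-(1/2))) (𝓝 0)

/-- product of the character functions -/
noncomputable def prodX (τ : DirichletCharacter ℂ N → ℕ) : ArithmeticFunction ℂ :=
  ∏ χ, uX χ ^ τ χ

/-- correction -/
noncomputable def eS (τ : DirichletCharacter ℂ N → ℕ) (M : ℝ) (p₀ : ℕ) : ArithmeticFunction ℂ :=
  eQ p₀ M * vQ p₀ (∑ χ, τ χ)

/-- the nonnegative function -/
noncomputable def bS (τ : DirichletCharacter ℂ N → ℕ) (M : ℝ) (p₀ : ℕ)
    (G : ArithmeticFunction ℂ) : ArithmeticFunction ℂ :=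
  prodX τ * G * conjA G * eS τ M p₀

lemma sum_im_zero {τ : DirichletCharacter ℂ N → ℕ} (hsym : ∀ χ, τ χ⁻¹ = τ χ) (n k : ℕ) :
    ∑ χ, (τ χ : ℝ) * ((χ n) ^ k).im = 0 := by
  have h1 : ∑ χ : DirichletCharacter ℂ N, (τ χ : ℝ) * ((χ n) ^ k).im =
      ∑ χ : DirichletCharacter ℂ N, (τ χ⁻¹ : ℝ) * ((χ⁻¹ n) ^ k).im :=
    (Fintype.sum_equiv (Equiv.inv (DirichletCharacter ℂ N)) _ _ fun χ => rfl).symm
  have h2 : ∑ χ : DirichletCharacter ℂ N, (τ χ⁻¹ : ℝ) * ((χ⁻¹ n) ^ k).im =
      -∑ χ : DirichletCharacter ℂ N, (τ χ : ℝ) * ((χ n) ^ k).im := by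
    rw [← Finset.sum_neg_distrib]
    refine Finset.sum_congr rfl fun χ _ => ?_
    rw [hsym, ← MulChar.star_apply', ← star_pow, Complex.star_def, Complex.conj_im]
    ring
  linarith

lemma sum_real {τ : DirichletCharacter ℂ N → ℕ} (hsym : ∀ χ, τ χ⁻¹ = τ χ) (n k : ℕ) :
    ∑ χ, (τ χ : ℂ) * (χ n) ^ k = ((∑ χ, (τ χ : ℝ) * ((χ n) ^ k).re : ℝ) : ℂ) := by
  apply Complex.ext
  · rw [Complex.re_sum, Complex.ofReal_re]
    refine Finset.sum_congr rfl fun χ _ => ?_
    rw [← Complex.ofReal_natCast, Complex.re_ofReal_mul]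
  · rw [Complex.im_sum, Complex.ofReal_im, ← sum_im_zero hsym n k]
    refine Finset.sum_congr rfl fun χ _ => ?_
    rw [← Complex.ofReal_natCast, Complex.im_ofReal_mul]

lemma abs_sum_le (τ : DirichletCharacter ℂ N → ℕ) (n k : ℕ) :
    |∑ χ, (τ χ : ℝ) * ((χ n) ^ k).re| ≤ ((∑ χ, τ χ : ℕ) : ℝ) := by
  refine (Finset.abs_sum_le_sum_abs _ _).trans ?_
  push_cast
  refine Finset.sum_le_sum fun χ _ => ?_
  rw [abs_mul, abs_of_nonneg (by positivity : (0:ℝ) ≤ (τ χ : ℝ))]
  refine mul_le_of_le_one_right (by positivity) ?_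
  refine (Complex.abs_re_le_norm _).trans ?_
  rw [norm_pow]
  exact pow_le_one₀ (norm_nonneg _) (χ.norm_le_one _)

lemma prodX_one (τ : DirichletCharacter ℂ N → ℕ) : prodX τ 1 = 1 :=
  prod_apply_one _ fun χ _ => pow_apply_one (uX_CM χ).1 _

lemma prodX_logDer (τ : DirichletCharacter ℂ N → ℕ) :
    LogDer (prodX τ) (∑ χ, τ χ • (uX χ).pmul vonC) :=
  LogDer.prod _ fun χ _ => (uX_CM χ).logDer.pow _

variable {τ : DirichletCharacter ℂ N → ℕ} {m : ℕ} {K M : ℝ} {p₀ : ℕ}
  {G : ArithmeticFunction ℂ} {Q Q' : ℂ → ℂ}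

lemma Star.M0 (h : Star τ m K M p₀ G Q Q') : 0 ≤ M := by
  have := h.K0
  have := h.KM
  linarith

lemma Star.T1 (h : Star τ m K M p₀ G Q Q') : 1 ≤ ∑ χ, τ χ := by
  have h1 : τ 1 ≤ ∑ χ, τ χ := Finset.single_le_sum (fun _ _ => Nat.zero_le _) (Finset.mem_univ _)
  have := h.one
  have := h.hm
  omega

lemma Star.corr (h : Star τ m K M p₀ G Q Q') :
    Corr (eS τ M p₀) (lQ p₀ M + (∑ χ, τ χ) • (((sInd p₀).pmul uA).pmul vonC)) :=
  corr_exists h.M0 h.Mp _

/-- log derivative of `bS` -/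
noncomputable def lS (τ : DirichletCharacter ℂ N → ℕ) (M : ℝ) (p₀ : ℕ)
    (G : ArithmeticFunction ℂ) : ArithmeticFunction ℂ :=
  (∑ χ, τ χ • (uX χ).pmul vonC) + G.pmul vonC + (conjA G).pmul vonC +
    (lQ p₀ M + (∑ χ, τ χ) • (((sInd p₀).pmul uA).pmul vonC))

lemma Star.bS_logDer (h : Star τ m K M p₀ G Q Q') : LogDer (bS τ M p₀ G) (lS τ M p₀ G) :=
  (((prodX_logDer τ).mul h.cmG.logDer).mul (conjA_CM h.cmG).logDer).mul h.corr.logDer

lemma Star.bS_one (h : Star τ m K M p₀ G Q Q') : bS τ M p₀ G 1 = 1 := by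
  rw [bS, mul_apply_one, mul_apply_one, mul_apply_one, prodX_one, h.cmG.1, (conjA_CM h.cmG).1,
    h.corr.one]
  ring

lemma sum_apply' {ι : Type*} (t : Finset ι) (φ : ι → ArithmeticFunction ℂ) (n : ℕ) :
    (∑ i ∈ t, φ i) n = ∑ i ∈ t, φ i n := by
  classical
  induction t using Finset.induction_on with
  | empty => simp
  | insert i t hi ih => rw [Finset.sum_insert hi, Finset.sum_insert hi, ArithmeticFunction.add_apply, ih]

lemma nsmul_apply' (k : ℕ) (φ : ArithmeticFunction ℂ) (n : ℕ) : (k • φ) n = k * φ n := by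
  induction k with
  | zero => simp
  | succ k ih =>
    rw [succ_nsmul, ArithmeticFunction.add_apply, ih]
    push_cast
    ring

lemma sumX_apply (hsym : ∀ χ, τ χ⁻¹ = τ χ) (p k : ℕ) :
    (∑ χ, τ χ • (uX χ).pmul vonC) (p ^ k) =
      ((vonMangoldt (p ^ k) * ((∑ χ, (τ χ : ℝ) * ((χ p) ^ k).re) * ((p:ℝ) ^ k)⁻¹) : ℝ) : ℂ) := by
  rw [sum_apply']
  have h1 : ∀ χ : DirichletCharacter ℂ N, (τ χ • (uX χ).pmul vonC) (p ^ k) =
      ((τ χ : ℂ) * (χ p) ^ k) * (((p:ℂ) ^ k)⁻¹ * (vonMangoldt (p ^ k) : ℂ)) := by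
    intro χ
    rw [nsmul_apply', pmul_apply, (uX_CM χ).pow, uX_apply, vonC_apply]
    rw [mul_pow, inv_pow]
    ring
  rw [Finset.sum_congr rfl fun χ _ => h1 χ, ← Finset.sum_mul, sum_real hsym]
  push_cast
  ring

lemma Star.bS_nonneg (h : Star τ m K M p₀ G Q Q') : ∀ n, 0 ≤ bS τ M p₀ G n := by
  refine nonneg_of_log (L := lS τ M p₀ G) h.bS_one ?_ ?_ h.bS_logDer
  · intro n
    by_cases hn : IsPrimePow n
    · obtain ⟨p, k, hp, hk, rfl⟩ := (isPrimePow_nat_iff n).mp hn
      have hp0 : (0:ℝ) < p := by exact_mod_cast hp.pos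
      have hT := abs_sum_le τ p k
      have hT1 : (1:ℝ) ≤ ((∑ χ, τ χ : ℕ) : ℝ) := by exact_mod_cast h.T1
      have hM := h.M0
      set A : ℝ := ∑ χ, (τ χ : ℝ) * ((χ p) ^ k).re with hA
      set T : ℕ := ∑ χ, τ χ with hTdef
      have hGG : (G.pmul vonC) (p ^ k) + ((conjA G).pmul vonC) (p ^ k) =
          ((vonMangoldt (p ^ k) * (2 * ((G p) ^ k).re) : ℝ) : ℂ) := by
        simp only [pmul_apply, vonC_apply, conjA_apply, h.cmG.pow]
        have : ((G p) ^ k) + (starRingEnd ℂ) ((G p) ^ k) = ((2 * ((G p) ^ k).re : ℝ) : ℂ) :=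
          Complex.add_conj _
        push_cast at this ⊢
        linear_combination (vonMangoldt (p ^ k) : ℂ) * this
      by_cases hpp : p₀ ≤ p
      · have hsI : (sInd p₀) (p ^ k) = 0 := by
          refine sInd_notMem fun hmem => ?_
          have := (Nat.mem_smoothNumbers'.mp hmem) p hp (dvd_pow_self p hk.ne')
          omega
        have hval : lS τ M p₀ G (p ^ k) = ((vonMangoldt (p ^ k) * (A * ((p:ℝ) ^ k)⁻¹ +
            2 * ((G p) ^ k).re + (2 ^ k - 2) * (M / p) ^ k) : ℝ) : ℂ) := by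
          unfold lS
          rw [ArithmeticFunction.add_apply, ArithmeticFunction.add_apply, ArithmeticFunction.add_apply, ArithmeticFunction.add_apply, add_assoc ((∑ χ, τ χ • (uX χ).pmul vonC) (p ^ k)),
            hGG, sumX_apply h.sym, ← hA, lQ_prime_pow hp hpp, nsmul_apply', pmul_apply, pmul_apply,
            hsI]
          push_cast
          ring
        rw [hval]
        have hR : 0 ≤ A * ((p:ℝ) ^ k)⁻¹ + 2 * ((G p) ^ k).re + (2 ^ k - 2) * (M / p) ^ k := by
          have hGZ : ((G p) ^ k).re = (((p:ℂ) * G p) ^ k).re * ((p:ℝ) ^ k)⁻¹ := by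
            rw [mul_pow, ← Complex.ofReal_natCast, ← Complex.ofReal_pow, Complex.re_ofReal_mul]
            field_simp
          rw [hGZ, div_pow]
          have : A * ((p:ℝ) ^ k)⁻¹ + 2 * ((((p:ℂ) * G p) ^ k).re * ((p:ℝ) ^ k)⁻¹) +
              (2 ^ k - 2) * (M ^ k / (p:ℝ) ^ k) =
              (A + 2 * (((p:ℂ) * G p) ^ k).re + (2 ^ k - 2) * M ^ k) * ((p:ℝ) ^ k)⁻¹ := by
            ring
          rw [this]
          refine mul_nonneg ?_ (by positivity)
          rcases Nat.eq_or_lt_of_le hk with h1 | h1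
          · -- k = 1
            have hk1 : k = 1 := by omega
            subst hk1
            have hA2 : A = 2 * aC τ p := by
              rw [hA, aC]
              simp only [pow_one]
              ring
            rw [hA2]
            simp only [pow_one]
            rcases h.reg p hp hpp with h2 | h2
            · linarith [h2.2.1]
            · have h3 : 0 ≤ ((p : ℂ) * G p).re := by
                have h4 : 0 ≤ (p : ℂ) * G p := mul_nonneg (by exact_mod_cast hp0.le) h2.2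
                exact (Complex.nonneg_iff.mp h4).1
              linarith [h2.1]
          · have h2k : (4:ℝ) ≤ 2 ^ k := by
              calc (4:ℝ) = 2 ^ 2 := by norm_num
                _ ≤ 2 ^ k := pow_le_pow_right₀ (by norm_num) h1
            have hTk : (T:ℝ) ≤ M ^ k := by
              calc (T:ℝ) ≤ (T:ℝ) ^ k := le_self_pow₀ hT1 (by omega)
                _ ≤ M ^ k := pow_le_pow_left₀ (by positivity) h.TM k
            have hMk : 0 ≤ M ^ k := by positivity
            have hA' := (abs_le.mp hT).1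
            rcases h.reg p hp hpp with h2 | h2
            · have hK := h.K0
              have h3 : |(((p:ℂ) * G p) ^ k).re| ≤ K ^ k := by
                refine (Complex.abs_re_le_norm _).trans ?_
                rw [norm_pow]
                exact pow_le_pow_left₀ (norm_nonneg _) h2.1 k
              have h4 : 4 * K ^ k ≤ M ^ k := by
                calc 4 * K ^ k ≤ 2 ^ k * K ^ k := mul_le_mul_of_nonneg_right h2k (by positivity)
                  _ = (2 * K) ^ k := by rw [mul_pow]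
                  _ ≤ M ^ k := pow_le_pow_left₀ (by positivity) h.KM k
              have h5 := (abs_le.mp h3).1
              nlinarith
            · have h3 : 0 ≤ (((p:ℂ) * G p) ^ k).re := by
                have h4 : 0 ≤ (p : ℂ) * G p := mul_nonneg (by exact_mod_cast hp0.le) h2.2
                exact (Complex.nonneg_iff.mp (pow_nonneg h4 k)).1
              nlinarith
        exact_mod_cast mul_nonneg vonMangoldt_nonneg hR
      · have hplt : p < p₀ := not_le.mp hpp
        have hsI : (sInd p₀) (p ^ k) = 1 := by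
          refine sInd_mem ?_
          exact Nat.mem_smoothNumbers'.mpr fun q hq hd => by
            have := (Nat.prime_dvd_prime_iff_eq hq hp).mp (hq.dvd_of_dvd_pow hd)
            omega
        have hval : lS τ M p₀ G (p ^ k) = ((vonMangoldt (p ^ k) * ((A + T) * ((p:ℝ) ^ k)⁻¹) : ℝ)
            : ℂ) := by
          unfold lS
          rw [ArithmeticFunction.add_apply, ArithmeticFunction.add_apply, ArithmeticFunction.add_apply, ArithmeticFunction.add_apply, add_assoc ((∑ χ, τ χ • (uX χ).pmul vonC) (p ^ k)),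
            hGG, sumX_apply h.sym, ← hA, lQ_prime_pow' hp hpp M hk.ne', nsmul_apply', pmul_apply,
            pmul_apply, hsI, uA_apply, vonC_apply, h.zero p hp hplt, zero_pow hk.ne', ← hTdef]
          push_cast
          rw [Complex.zero_re]
          push_cast
          ring
        rw [hval]
        have hR : 0 ≤ (A + T) * ((p:ℝ) ^ k)⁻¹ := by
          refine mul_nonneg ?_ (by positivity)
          have := (abs_le.mp hT).1
          linarith
        exact_mod_cast mul_nonneg vonMangoldt_nonneg hR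
    · have h0 : vonC n = 0 := by
        rw [vonC_apply, vonMangoldt_apply, if_neg hn]
        simp
      have h1 : (∑ χ, τ χ • (uX χ).pmul vonC) n = 0 := by
        rw [sum_apply']
        exact Finset.sum_eq_zero fun χ _ => by
          rw [nsmul_apply', pmul_apply, h0]
          simp
      unfold lS
      rw [ArithmeticFunction.add_apply, ArithmeticFunction.add_apply,
        ArithmeticFunction.add_apply, ArithmeticFunction.add_apply, h1,
        lQ_of_not_primePow p₀ M hn, nsmul_apply']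
      simp [pmul_apply, h0]
  · have h0 : vonC 1 = 0 := by simp [vonC_apply]
    have h1 : (∑ χ, τ χ • (uX χ).pmul vonC) 1 = 0 := by
      rw [sum_apply']
      exact Finset.sum_eq_zero fun χ _ => by
        rw [nsmul_apply', pmul_apply, h0]
        simp
    unfold lS
    rw [ArithmeticFunction.add_apply, ArithmeticFunction.add_apply,
      ArithmeticFunction.add_apply, ArithmeticFunction.add_apply, h1, lQ_of_not_primePow p₀ M
      not_isPrimePow_one, nsmul_apply']
    simp [pmul_apply, h0]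

end Pool.Agent.Helper29
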