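import Pool.Agent.Helper29.Pre

set_option autoImplicit false
open Filter Topology ArithmeticFunction Complex Asymptotics
open scoped ComplexOrder

namespace Pool.Agent.Helper29

lemma Pre.diff_r {f G : ArithmeticFunction ℂ} (h : Pre f G) :
    DifferentiableOn ℂ (LSeries (rfun f G)) {s | -(1/2) < s.re} := by
  intro s hs
  refine DifferentiableAt.differentiableWithinAt ?_
  have habs : LSeries.abscissaOfAbsConv (rfun f G) < s.re := by
    have := (h.LSeriesSummable_r (s := ((-(1/2) : ℝ) : ℂ)) (by simp)).abscissaOfAbsConv_le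
    refine this.trans_lt ?_
    rw [Complex.ofReal_re]
    exact_mod_cast hs
  exact (LSeries_hasDerivAt habs).differentiableAt

/-- the hypothesis on the order of vanishing at `0` -/
def Ord (f : ℕ → ℂ) (m : ℕ) : Prop :=
  m = 1 ∨ ∃ F : ℝ → ℂ, (∀ σ : ℝ, 0 < σ → Tendsto (fun X : ℕ =>
    ∑ n ∈ Finset.Icc 1 X, f n * (n : ℂ) ^ (-(σ:ℂ))) atTop (𝓝 (F σ))) ∧
    Tendsto (fun σ : ℝ => F σ / (σ : ℂ) ^ (m - 1)) (𝓝[>] 0) (𝓝 0)

lemma Ord.conj {f : ArithmeticFunction ℂ} {m : ℕ} (h : Ord f m) : Ord (conjA f) m := by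
  rcases h with h | ⟨F, h1, h2⟩
  · exact Or.inl h
  · right
    refine ⟨fun σ => (starRingEnd ℂ) (F σ), fun σ hσ => ?_, ?_⟩
    · refine ((Complex.continuous_conj.tendsto _).comp (h1 σ hσ)).congr fun X => ?_
      rw [Function.comp_apply, map_sum]
      refine Finset.sum_congr rfl fun n _ => ?_
      rw [map_mul, conjA_apply, cpow_neg_real, Complex.conj_ofReal]
    · have h3 := (Complex.continuous_conj.tendsto _).comp h2
      rw [_root_.map_zero] at h3
      refine h3.congr fun σ => ?_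
      rw [Function.comp_apply, map_div₀, map_pow, Complex.conj_ofReal]

lemma Pre.exists_Q {f G : ArithmeticFunction ℂ} (h : Pre f G) {m : ℕ} (hm : 1 ≤ m)
    (hord : Ord f m) :
    ∃ Q : ℂ → ℂ, DifferentiableOn ℂ Q {s | -(1/2) < s.re} ∧
      (∀ s : ℂ, 1 < s.re → LSeries G s = s ^ m * Q s) ∧
      Tendsto (fun w : ℝ => (w + 1/2) * ‖Q w‖) (𝓝[>] (-(1/2))) (𝓝 0) := by
  have hMT : DifferentiableOn ℂ (MT f) {s | -(1/2) < s.re} := fun s hs =>
    (MT_differentiableAt (a := 1/2) (by norm_num) (lim_isBigO h.lim) hs).differentiableWithinAt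
  obtain ⟨R, hR, hRe⟩ := exists_div hMT (m - 1) (by
    rcases hord with h1 | ⟨F, h1, h2⟩
    · left; omega
    · rcases Nat.eq_or_lt_of_le hm with hm1 | hm1
      · left; omega
      · right
        refine h2.congr' ?_
        filter_upwards [self_mem_nhdsWithin] with σ hσ
        have hσ' : (0:ℝ) < σ := hσ
        have hσ0 : (σ:ℂ) ≠ 0 := by exact_mod_cast hσ'.ne'
        have h3 : F σ = σ * MT f σ :=
          tendsto_nhds_unique (h1 σ hσ') (tendsto_partial hσ' (lim_isBigO' h.lim))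
        obtain ⟨j, rfl⟩ : ∃ j, m = j + 2 := ⟨m - 2, by omega⟩
        rw [h3, show j + 2 - 1 = j + 1 by omega, Nat.add_sub_cancel, pow_succ]
        field_simp)
  have hQf : ∀ s, Qf f G s = s ^ (m - 1) * (LSeries (rfun f G) s * R s) := fun s => by
    rw [Qf, hRe]
    ring
  refine ⟨fun s => LSeries (rfun f G) s * R s, h.diff_r.mul hR, fun s hs => ?_, ?_⟩
  · rw [h.LSeries_G hs, hQf]
    obtain ⟨j, rfl⟩ : ∃ j, m = j + 1 := ⟨m - 1, by omega⟩
    rw [Nat.add_sub_cancel, pow_succ]
    ring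
  · have h1 := (h.Q_lim).const_mul ((4:ℝ) ^ (m - 1))
    rw [mul_zero] at h1
    refine squeeze_zero' ?_ ?_ h1
    · filter_upwards [self_mem_nhdsWithin] with w hw
      have hw' : -(1/2) < w := hw
      exact mul_nonneg (by linarith) (norm_nonneg _)
    · filter_upwards [Ioo_mem_nhdsGT (show (-(1/2) : ℝ) < -(1/4) by norm_num)] with w hw
      have hw0 : 0 ≤ w + 1/2 := by linarith [hw.1]
      have h2 : ‖Qf f G w‖ = |w| ^ (m - 1) * ‖LSeries (rfun f G) w * R w‖ := by
        rw [hQf, norm_mul, norm_pow, Complex.norm_real, Real.norm_eq_abs]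
      have h3 : 1 ≤ (4:ℝ) ^ (m - 1) * |w| ^ (m - 1) := by
        rw [← mul_pow]
        refine one_le_pow₀ ?_
        rw [abs_of_neg (by linarith [hw.2])]
        linarith [hw.2]
      have h4 : ‖LSeries (rfun f G) w * R w‖ ≤ (4:ℝ) ^ (m - 1) * ‖Qf f G w‖ := by
        rw [h2, ← mul_assoc]
        exact le_mul_of_one_le_left (norm_nonneg _) h3
      calc (w + 1/2) * ‖LSeries (rfun f G) w * R w‖ ≤ (w + 1/2) * ((4:ℝ) ^ (m - 1) * ‖Qf f G w‖) :=
            mul_le_mul_of_nonneg_left h4 hw0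
        _ = _ := by ring

/-- the general theorem, exponents `κ ≤ 1/2` -/
theorem omega_star (f : ℕ → ℂ) (h1 : f 1 = 1)
    (hmul : ∀ m n : ℕ, 0 < m → 0 < n → f (m * n) = f m * f n)
    (N : ℕ) [NeZero N] (τ : DirichletCharacter ℂ N → ℕ) (hτ : ∀ χ, τ χ⁻¹ = τ χ)
    (m : ℕ) (hm : 1 ≤ m) (hτ1 : τ 1 = 2 * m) (hord : Ord f m)
    (κ : ℝ) (hκ : 0 ≤ κ) (hκ2 : κ ≤ 1/2) (K : ℝ) (g : ℕ → ℂ)
    (hg : ∀ᶠ p : ℕ in atTop, p.Prime →
      (‖(p : ℂ) * g p‖ ≤ K ∧ 0 ≤ ((p : ℂ) * g p).re + aC τ p ∧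
        ((p : ℂ) * g p).im ^ 2 ≤ K * (((p : ℂ) * g p).re + aC τ p)) ∨
      (0 ≤ aC τ p ∧ (g p).im = 0 ∧ 0 ≤ (g p).re))
    (hfg : Summable (fun p : Nat.Primes =>
      min (Real.sqrt (p : ℕ) * ‖f p - g p‖) (((p : ℕ) : ℝ) ^ (-κ)))) :
    ∃ c : ℝ, 0 < c ∧ ∀ M : ℕ, ∃ X : ℕ, M ≤ X ∧ 0 < X ∧
      c / (X : ℝ) ^ (1/2 + κ) ≤ ‖∑ n ∈ Finset.Icc 1 X, f n‖ := by
  by_contra hcon
  push Not at hcon
  set fA : ArithmeticFunction ℂ := ⟨fun n => if n = 0 then 0 else f n, by simp⟩ with hfA
  have hfA_apply : ∀ n, n ≠ 0 → fA n = f n := fun n hn => by simp [hfA, hn]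
  have hCM : CM fA := by
    constructor
    · rw [hfA_apply 1 one_ne_zero, h1]
    · intro m n
      rcases Nat.eq_zero_or_pos m with rfl | hm
      · simp
      rcases Nat.eq_zero_or_pos n with rfl | hn
      · simp
      rw [hfA_apply _ (Nat.mul_pos hm hn).ne', hfA_apply _ hm.ne', hfA_apply _ hn.ne',
        hmul m n hm hn]
  have hsumA : ∀ N : ℕ, ∑ k ∈ Finset.Icc 1 N, fA k = ∑ k ∈ Finset.Icc 1 N, f k := by
    intro N
    refine Finset.sum_congr rfl fun k hk => hfA_apply k ?_
    have := (Finset.mem_Icc.mp hk).1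
    omega
  have hOrdA : Ord fA m := by
    rcases hord with h | ⟨F, h2, h3⟩
    · exact Or.inl h
    · refine Or.inr ⟨F, fun σ hσ => (h2 σ hσ).congr fun X => ?_, h3⟩
      refine Finset.sum_congr rfl fun k hk => ?_
      rw [hfA_apply k]
      have := (Finset.mem_Icc.mp hk).1
      omega
  -- the values at primes are small
  have hjump : ∀ ε : ℝ, 0 < ε → ∀ᶠ n : ℕ in atTop, ‖f n‖ * (n : ℝ) ^ (1/2 + κ) ≤ ε := by
    intro ε hε
    have hC : (0:ℝ) < 1 + 2 ^ (1/2 + κ) := by positivity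
    obtain ⟨M, hM⟩ := hcon (ε / (1 + 2 ^ (1/2 + κ))) (by positivity)
    filter_upwards [eventually_ge_atTop (M + 2)] with n hn
    have := jump_le hκ hM hn
    rwa [div_mul_cancel₀ _ hC.ne'] at this
  have hlim : Tendsto (fun N : ℕ => ‖∑ k ∈ Finset.Icc 1 N, f k‖ * Real.sqrt N) atTop (𝓝 0) := by
    rw [Metric.tendsto_atTop]
    intro ε hε
    obtain ⟨M, hM⟩ := hcon ε hε
    refine ⟨M + 1, fun N hN => ?_⟩
    have hN0 : 0 < N := by omega
    have h2 := hM N (by omega) hN0
    rw [Real.dist_eq, sub_zero, abs_of_nonneg (by positivity)]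
    have hN1 : (1:ℝ) ≤ N := by exact_mod_cast hN0
    have h3 : Real.sqrt N ≤ (N : ℝ) ^ (1/2 + κ) := by
      rw [Real.sqrt_eq_rpow]
      exact Real.rpow_le_rpow_of_exponent_le hN1 (by linarith)
    have h4 : (0:ℝ) < (N : ℝ) ^ (1/2 + κ) := by positivity
    calc ‖∑ k ∈ Finset.Icc 1 N, f k‖ * Real.sqrt N
        ≤ ‖∑ k ∈ Finset.Icc 1 N, f k‖ * (N : ℝ) ^ (1/2 + κ) :=
          mul_le_mul_of_nonneg_left h3 (norm_nonneg _)
      _ < ε := by rwa [lt_div_iff₀ h4] at h2
  classical
  -- parameters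
  obtain ⟨p₁, hp₁⟩ := eventually_atTop.mp hg
  set T : ℝ := ((∑ χ, τ χ : ℕ) : ℝ) with hT
  have hT0 : 0 ≤ T := by positivity
  have hT2 : 2 ≤ T := by
    have h2 : τ 1 ≤ ∑ χ, τ χ :=
      Finset.single_le_sum (fun _ _ => Nat.zero_le _) (Finset.mem_univ _)
    rw [hT]
    have : 2 ≤ ∑ χ, τ χ := by omega
    exact_mod_cast this
  set K' : ℝ := max K T with hK'
  have hK'0 : 0 ≤ K' := hT0.trans (le_max_right _ _)
  have hKK' : K ≤ K' := le_max_left _ _
  have hTK' : T ≤ K' := le_max_right _ _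
  set M' : ℝ := 2 * K' with hM'
  obtain ⟨p₂, hp₂⟩ := exists_nat_ge ((4 * M') ^ 2)
  set p₀ : ℕ := max (max p₁ p₂) (N + 1) with hp₀
  have hp01 : p₁ ≤ p₀ := (le_max_left _ _).trans (le_max_left _ _)
  have hp02 : (4 * M') ^ 2 ≤ p₀ := by
    refine hp₂.trans ?_
    exact_mod_cast (le_max_right p₁ p₂).trans (le_max_left _ _)
  have hp0N : N < p₀ := lt_of_lt_of_le (Nat.lt_succ_self N) (le_max_right _ _)
  -- the comparison values
  set v : ℕ → ℂ := fun p => if aC τ p < 0 then ((-(aC τ p) / p : ℝ) : ℂ) else 0 with hv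
  have hvn : ∀ p : ℕ, p.Prime → ‖v p‖ ≤ T / 2 / p := by
    intro p hp
    have hp0 : (0:ℝ) < p := by exact_mod_cast hp.pos
    simp only [hv]
    split_ifs with hc
    · rw [Complex.norm_real, Real.norm_of_nonneg (div_nonneg (by linarith) hp0.le)]
      refine div_le_div_of_nonneg_right ?_ hp0.le
      have := (abs_le.mp (abs_aC_le τ p)).1
      rw [← hT] at this
      linarith
    · rw [norm_zero]
      positivity
  set h : ℕ → ℂ := fun p => if p < p₀ then 0 else
    if Real.sqrt p * ‖g p‖ ≤ 1/2 ∧ Real.sqrt p * ‖f p - g p‖ ≤ (p : ℝ) ^ (-κ) then g p else v p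
    with hh
  have hsmall : ∀ p : ℕ, p.Prime → ‖cmOf h p‖ * Real.sqrt p ≤ 1/2 := by
    intro p hp
    have hp0 : (0:ℝ) < p := by exact_mod_cast hp.pos
    rw [cmOf_prime h hp]
    simp only [hh]
    split_ifs with hc1 hc2
    · simp
    · rw [mul_comm]; exact hc2.1
    · have h2 := hvn p hp
      have h3 : 0 < Real.sqrt p := Real.sqrt_pos.mpr hp0
      have h4 : 4 * M' ≤ Real.sqrt p := by
        apply Real.le_sqrt_of_sq_le
        have : (p₀:ℝ) ≤ p := by exact_mod_cast not_lt.mp hc1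
        exact hp02.trans this
      calc ‖v p‖ * Real.sqrt p ≤ T / 2 / p * Real.sqrt p :=
            mul_le_mul_of_nonneg_right h2 h3.le
        _ = T / 2 / Real.sqrt p := by
            rw [div_mul_eq_mul_div, div_eq_div_iff hp0.ne' h3.ne', mul_assoc,
              Real.mul_self_sqrt hp0.le]
        _ ≤ 1/2 := by
            rw [div_le_iff₀ h3]
            linarith
  have hPre : Pre fA (cmOf h) :=
    { cmf := hCM
      cmG := cmOf_CM h
      small := hsmall
      sum := by
        refine Summable.of_norm_bounded_eventually (hfg.mul_left (1 + T)) ?_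
        have e1 : ∀ᶠ p : Nat.Primes in cofinite, ‖f p‖ * ((p : ℕ) : ℝ) ^ (1/2 + κ) ≤ 1/4 :=
          tendsto_primes_atTop.eventually (hjump (1/4) (by norm_num))
        have e2 : ∀ᶠ p : Nat.Primes in cofinite,
            min (Real.sqrt (p : ℕ) * ‖f p - g p‖) (((p : ℕ) : ℝ) ^ (-κ)) ≤ 1/4 :=
          hfg.tendsto_cofinite_zero.eventually_le_const (by norm_num)
        have e3 : ∀ᶠ p : Nat.Primes in cofinite, p₀ ≤ (p : ℕ) :=
          tendsto_primes_atTop.eventually (eventually_ge_atTop p₀)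
        filter_upwards [e1, e2, e3] with p hp1 hp2 hp3
        have hp : (p : ℕ).Prime := p.2
        have hp0 : (0:ℝ) < (p : ℕ) := by exact_mod_cast hp.pos
        have hp1' : (1:ℝ) ≤ (p : ℕ) := by exact_mod_cast hp.one_le
        rw [hfA_apply _ hp.ne_zero, cmOf_prime h hp, Real.norm_of_nonneg (by positivity)]
        have hfp : Real.sqrt (p : ℕ) * ‖f p‖ ≤ 1/4 * ((p : ℕ) : ℝ) ^ (-κ) := by
          rw [Real.sqrt_eq_rpow]
          have h5 : ((p : ℕ) : ℝ) ^ (1/2 + κ) * ((p : ℕ) : ℝ) ^ (-κ) =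
              ((p : ℕ) : ℝ) ^ (1/2 : ℝ) := by
            rw [← Real.rpow_add hp0]
            congr 1
            ring
          rw [← h5]
          have := mul_le_mul_of_nonneg_right hp1 (Real.rpow_nonneg hp0.le (-κ))
          linarith
        have hκ1 : ((p : ℕ) : ℝ) ^ (-κ) ≤ 1 := Real.rpow_le_one_of_one_le_of_nonpos hp1' (by linarith)
        have hκ0 : 0 ≤ ((p : ℕ) : ℝ) ^ (-κ) := by positivity
        have hmin0 : 0 ≤ min (Real.sqrt (p : ℕ) * ‖f p - g p‖) (((p : ℕ) : ℝ) ^ (-κ)) :=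
          le_min (by positivity) hκ0
        simp only [hh]
        rw [if_neg (not_lt.mpr hp3)]
        split_ifs with hc
        · rw [min_eq_left hc.2] at hmin0 ⊢
          have := mul_nonneg hT0 hmin0
          linarith
        · by_cases hc2 : Real.sqrt (p : ℕ) * ‖f p - g p‖ ≤ ((p : ℕ) : ℝ) ^ (-κ)
          · exfalso
            apply hc
            refine ⟨?_, hc2⟩
            rw [min_eq_left hc2] at hp2
            have h6 : ‖g p‖ ≤ ‖f p‖ + ‖f p - g p‖ := by
              have : g p = f p - (f p - g p) := by ring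
              calc ‖g p‖ = ‖f p - (f p - g p)‖ := by rw [← this]
                _ ≤ ‖f p‖ + ‖f p - g p‖ := norm_sub_le _ _
            have h7 := mul_le_mul_of_nonneg_left h6 (Real.sqrt_nonneg ((p : ℕ) : ℝ))
            rw [mul_add] at h7
            linarith
          · rw [min_eq_right (not_le.mp hc2).le]
            have h6 : Real.sqrt (p : ℕ) * ‖f p - v p‖ ≤
                Real.sqrt (p : ℕ) * ‖f p‖ + Real.sqrt (p : ℕ) * ‖v p‖ := by
              rw [← mul_add]
              exact mul_le_mul_of_nonneg_left (norm_sub_le _ _) (Real.sqrt_nonneg _)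
            have h7 : Real.sqrt (p : ℕ) * ‖v p‖ ≤ T / 2 * ((p : ℕ) : ℝ) ^ (-κ) := by
              have h3 : 0 < Real.sqrt (p : ℕ) := Real.sqrt_pos.mpr hp0
              calc Real.sqrt (p : ℕ) * ‖v p‖ ≤ Real.sqrt (p : ℕ) * (T / 2 / (p : ℕ)) :=
                    mul_le_mul_of_nonneg_left (hvn p hp) h3.le
                _ = T / 2 * (Real.sqrt (p : ℕ))⁻¹ := by
                    field_simp
                    rw [Real.sq_sqrt hp0.le]
                _ ≤ T / 2 * ((p : ℕ) : ℝ) ^ (-κ) := by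
                    refine mul_le_mul_of_nonneg_left ?_ (by positivity)
                    rw [Real.sqrt_eq_rpow, ← Real.rpow_neg hp0.le]
                    exact Real.rpow_le_rpow_of_exponent_le hp1' (by linarith)
            nlinarith
      lim := by
        refine hlim.congr fun N => ?_
        rw [hsumA] }
  obtain ⟨Q, hQ1, hQ2, hQ3⟩ := hPre.exists_Q hm hOrdA
  obtain ⟨Q', hQ1', hQ2', hQ3'⟩ := hPre.conj.exists_Q hm hOrdA.conj
  have hStar : Star τ m K' M' p₀ (cmOf h) Q Q' :=
    { cmG := cmOf_CM h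
      sym := hτ
      one := hτ1
      hm := hm
      K0 := hK'0
      KM := le_refl _
      TM := by rw [← hT, hM']; linarith
      Mp := hp02
      Np := hp0N
      zero := by
        intro p hp hlt
        rw [cmOf_prime h hp]
        simp [hh, hlt]
      small := hsmall
      reg := by
        intro p hp hle
        have hp0 : (0:ℝ) < p := by exact_mod_cast hp.pos
        have hpc : (p:ℂ) ≠ 0 := by exact_mod_cast hp.ne_zero
        rw [cmOf_prime h hp]
        simp only [hh]
        rw [if_neg (not_lt.mpr hle)]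
        split_ifs with hc
        · rcases hp₁ p (hp01.trans hle) hp with ⟨h2, h3, h4⟩ | ⟨h2, h3, h4⟩
          · left
            refine ⟨h2.trans hKK', h3, h4.trans ?_⟩
            exact mul_le_mul_of_nonneg_right hKK' h3
          · right
            refine ⟨h2, ?_⟩
            rw [Complex.nonneg_iff]
            exact ⟨h4, h3.symm⟩
        · left
          simp only [hv]
          split_ifs with hc2
          · have h5 : (p:ℂ) * ((-(aC τ p) / p : ℝ) : ℂ) = ((-(aC τ p) : ℝ) : ℂ) := by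
              push_cast
              field_simp
            rw [h5]
            refine ⟨?_, ?_, ?_⟩
            · rw [Complex.norm_real, Real.norm_of_nonneg (by linarith)]
              have := (abs_le.mp (abs_aC_le τ p)).1
              rw [← hT] at this
              linarith
            · rw [Complex.ofReal_re]
              linarith
            · rw [Complex.ofReal_im, Complex.ofReal_re]
              simp
          · rw [mul_zero]
            have := not_lt.mp hc2
            refine ⟨by simpa using hK'0, by simpa using this, ?_⟩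
            simp only [Complex.zero_im, Complex.zero_re, zero_add]
            have := mul_nonneg hK'0 this
            simpa using this
      diff := hQ1
      diff' := hQ1'
      eq := hQ2
      eq' := hQ2'
      lim := hQ3
      lim' := hQ3' }
  exact hStar.false

end Pool.Agent.Helper29
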